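import Pool.Agent.Lib.MP_cc6c48_an.Defs

/-! Basic facts on the action: homogeneous coordinates, joint continuity, images. -/

set_option autoImplicit false

open OnePoint Topology Filter

namespace Pool.Agent.Lib.MP_cc6c48_an

/-- the point with homogeneous coordinates `u : v` -/
noncomputable def pr (u v : ℂ) : Ch := if v = 0 then (∞ : OnePoint ℂ) else ((u / v : ℂ) : OnePoint ℂ)

lemma pr_one (z : ℂ) : pr z 1 = (z : OnePoint ℂ) := by simp [pr]

lemma pr_zero (u : ℂ) : pr u 0 = (∞ : OnePoint ℂ) := by simp [pr]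

lemma exists_pr (p : Ch) : ∃ u v : ℂ, (u ≠ 0 ∨ v ≠ 0) ∧ p = pr u v := by
  induction p using OnePoint.rec with
  | infty => exact ⟨1, 0, Or.inl one_ne_zero, (pr_zero 1).symm⟩
  | coe z => exact ⟨z, 1, Or.inr one_ne_zero, (pr_one z).symm⟩

lemma det_ne (g : GLC) : g 0 0 * g 1 1 - g 0 1 * g 1 0 ≠ 0 := by
  have h := g.det_ne_zero
  rwa [Matrix.det_fin_two] at h

lemma smul_pr (g : GLC) (u v : ℂ) (h : u ≠ 0 ∨ v ≠ 0) :
    g • pr u v = pr (g 0 0 * u + g 0 1 * v) (g 1 0 * u + g 1 1 * v) := by
  by_cases hv : v = 0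
  · subst hv
    have hu : u ≠ 0 := by simpa using h
    rw [pr_zero, smul_infty_eq_ite]
    unfold pr
    by_cases hc : g 1 0 = 0
    · simp [hc]
    · simp only [hc, mul_zero, add_zero, if_false, mul_eq_zero, hu, or_self]
      congr 1
      field_simp
  · have h1 : pr u v = ((u / v : ℂ) : OnePoint ℂ) := by simp [pr, hv]
    rw [h1, smul_some_eq_ite]
    unfold pr
    have e : g 1 0 * (u / v) + g 1 1 = (g 1 0 * u + g 1 1 * v) / v := by field_simp
    have e2 : g 0 0 * (u / v) + g 0 1 = (g 0 0 * u + g 0 1 * v) / v := by field_simp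
    rw [e, e2]
    by_cases hc : g 1 0 * u + g 1 1 * v = 0
    · simp [hc]
    · have : (g 1 0 * u + g 1 1 * v) / v ≠ 0 := div_ne_zero hc hv
      simp only [this, hc, if_false]
      congr 1
      field_simp

/-- coordinates of a point of the sphere -/
noncomputable def ph (p : Ch) : ℂ × ℝ :=
  p.elim ((0 : ℂ), (0 : ℝ)) (fun z => (((1 + Complex.normSq z)⁻¹ : ℝ) * z, (1 + Complex.normSq z)⁻¹))

lemma ph_infty : ph (∞ : OnePoint ℂ) = (0, 0) := rfl

lemma ph_coe (z : ℂ) : ph (z : OnePoint ℂ) =
    (((1 + Complex.normSq z)⁻¹ : ℝ) * z, (1 + Complex.normSq z)⁻¹) := rfl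

lemma one_add_pos (z : ℂ) : 0 < 1 + Complex.normSq z := by
  have := Complex.normSq_nonneg z; linarith

lemma ph_inj : Function.Injective ph := by
  intro p q h
  induction p using OnePoint.rec with
  | infty =>
    induction q using OnePoint.rec with
    | infty => rfl
    | coe w =>
      rw [ph_infty, ph_coe, Prod.mk.injEq] at h
      have := inv_pos.2 (one_add_pos w)
      linarith [h.2]
  | coe z =>
    induction q using OnePoint.rec with
    | infty =>
      rw [ph_infty, ph_coe, Prod.mk.injEq] at h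
      have := inv_pos.2 (one_add_pos z)
      linarith [h.2]
    | coe w =>
      rw [ph_coe, ph_coe, Prod.mk.injEq] at h
      have h2 := h.2
      have h1 := h.1
      rw [h2] at h1
      have : (((1 + Complex.normSq w)⁻¹ : ℝ) : ℂ) ≠ 0 := by
        exact_mod_cast (inv_pos.2 (one_add_pos w)).ne'
      rw [mul_right_inj' this] at h1
      rw [h1]

lemma ph_cont : Continuous ph := by
  rw [OnePoint.continuous_iff]
  constructor
  · have e : (fun z : ℂ => ph (z : OnePoint ℂ)) = fun z : ℂ =>
      ((((1 + Complex.normSq z)⁻¹ : ℝ) : ℂ) * z, (1 + Complex.normSq z)⁻¹) := rfl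
    have hn : Tendsto (fun z : ℂ => ‖z‖) (coclosedCompact ℂ) atTop := by
      rw [coclosedCompact_eq_cocompact]; exact tendsto_norm_cocompact_atTop
    have h2 : Tendsto (fun z : ℂ => (1 + Complex.normSq z)⁻¹) (coclosedCompact ℂ) (𝓝 0) := by
      apply tendsto_inv_atTop_zero.comp
      apply tendsto_atTop_add_const_left
      have : (fun z : ℂ => Complex.normSq z) = fun z => ‖z‖ ^ 2 := by
        funext z; exact Complex.normSq_eq_norm_sq z
      show Tendsto (fun z : ℂ => Complex.normSq z) (coclosedCompact ℂ) atTop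
      rw [this]
      exact (tendsto_pow_atTop (by norm_num)).comp hn
    have h1 : Tendsto (fun z : ℂ => (((1 + Complex.normSq z)⁻¹ : ℝ) : ℂ) * z)
        (coclosedCompact ℂ) (𝓝 0) := by
      have hi : Tendsto (fun z : ℂ => ‖z‖⁻¹) (coclosedCompact ℂ) (𝓝 0) :=
        tendsto_inv_atTop_zero.comp hn
      refine squeeze_zero_norm ?_ hi
      intro z
      rw [norm_mul, Complex.norm_real, Real.norm_of_nonneg (inv_pos.2 (one_add_pos z)).le]
      have hz := Complex.normSq_eq_norm_sq z
      rw [hz]
      rcases eq_or_lt_of_le (norm_nonneg z) with h0 | h0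
      · rw [← h0]; simp
      · rw [inv_mul_le_iff₀ (by positivity)]
        have : (1 + ‖z‖ ^ 2) * ‖z‖⁻¹ = ‖z‖⁻¹ + ‖z‖ := by field_simp
        rw [this]
        have := inv_pos.2 h0
        linarith
    have h3 := h1.prodMk_nhds h2
    rw [ph_infty]
    exact h3
  · have e : (fun z : ℂ => ph (z : OnePoint ℂ)) = fun z : ℂ =>
      ((((1 + Complex.normSq z)⁻¹ : ℝ) : ℂ) * z, (1 + Complex.normSq z)⁻¹) := rfl
    show Continuous (fun z : ℂ => ph (z : OnePoint ℂ))
    rw [e]
    have hc : Continuous fun z : ℂ => (1 + Complex.normSq z)⁻¹ :=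
      (continuous_const.add Complex.continuous_normSq).inv₀ (fun z => (one_add_pos z).ne')
    exact ((Complex.continuous_ofReal.comp hc).mul continuous_id).prodMk hc

lemma ph_emb : IsClosedEmbedding ph := ph_cont.isClosedEmbedding ph_inj

/-- numerator of the first coordinate of the image -/
noncomputable def aN (g : GLC) (x : ℂ × ℝ) : ℂ :=
  g 0 0 * (starRingEnd ℂ) (g 1 0) * ((1 - x.2 : ℝ) : ℂ) + g 0 0 * (starRingEnd ℂ) (g 1 1) * x.1
    + g 0 1 * (starRingEnd ℂ) (g 1 0) * (starRingEnd ℂ) x.1
    + g 0 1 * (starRingEnd ℂ) (g 1 1) * (x.2 : ℂ)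

noncomputable def aM (g : GLC) (x : ℂ × ℝ) : ℝ :=
  Complex.normSq (g 1 0) * (1 - x.2) + 2 * (g 1 0 * (starRingEnd ℂ) (g 1 1) * x.1).re
    + Complex.normSq (g 1 1) * x.2

noncomputable def aL (g : GLC) (x : ℂ × ℝ) : ℝ :=
  Complex.normSq (g 0 0) * (1 - x.2) + 2 * (g 0 0 * (starRingEnd ℂ) (g 0 1) * x.1).re
    + Complex.normSq (g 0 1) * x.2

lemma ph_pr (u v : ℂ) (h : u ≠ 0 ∨ v ≠ 0) :
    ph (pr u v) = ((((Complex.normSq u + Complex.normSq v)⁻¹ : ℝ) : ℂ) * (u * (starRingEnd ℂ) v),
      (Complex.normSq u + Complex.normSq v)⁻¹ * Complex.normSq v) := by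
  by_cases hv : v = 0
  · subst hv
    rw [pr_zero, ph_infty]
    simp
  · have h1 : pr u v = ((u / v : ℂ) : OnePoint ℂ) := by simp [pr, hv]
    rw [h1, ph_coe]
    have hvn : Complex.normSq v ≠ 0 := by simpa using hv
    have hvp : 0 < Complex.normSq v := Complex.normSq_pos.2 hv
    have hpos : Complex.normSq u + Complex.normSq v ≠ 0 := by
      have := Complex.normSq_nonneg u; positivity
    have e : (1 + Complex.normSq (u / v))⁻¹ =
        (Complex.normSq u + Complex.normSq v)⁻¹ * Complex.normSq v := by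
      rw [map_div₀]
      symm
      apply eq_inv_of_mul_eq_one_left
      have e1 : (Complex.normSq u + Complex.normSq v)⁻¹ * Complex.normSq v *
        (1 + Complex.normSq u / Complex.normSq v) = (Complex.normSq u + Complex.normSq v)⁻¹ *
        (Complex.normSq u + Complex.normSq v) := by
        field_simp
        ring
      rw [e1, inv_mul_cancel₀ hpos]
    rw [e]
    refine Prod.ext ?_ rfl
    simp only
    push_cast
    rw [mul_assoc]
    congr 1
    rw [← Complex.mul_conj]
    field_simp

lemma aD_pos (g : GLC) (p : Ch) : 0 < aL g (ph p) + aM g (ph p) := by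
  obtain ⟨u, v, h, rfl⟩ := exists_pr p
  have hs : 0 < Complex.normSq u + Complex.normSq v := by
    rcases h with h | h
    · have := Complex.normSq_pos.2 h; have := Complex.normSq_nonneg v; linarith
    · have := Complex.normSq_pos.2 h; have := Complex.normSq_nonneg u; linarith
  have key : aL g (ph (pr u v)) + aM g (ph (pr u v)) =
      (Complex.normSq u + Complex.normSq v)⁻¹ * (Complex.normSq (g 0 0 * u + g 0 1 * v) +
        Complex.normSq (g 1 0 * u + g 1 1 * v)) := by
    rw [ph_pr u v h, aL, aM]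
    have : 1 - (Complex.normSq u + Complex.normSq v)⁻¹ * Complex.normSq v =
      (Complex.normSq u + Complex.normSq v)⁻¹ * Complex.normSq u := by
      field_simp; ring
    simp only [this]
    simp only [Complex.normSq_apply, Complex.mul_re, Complex.mul_im, Complex.add_re,
      Complex.add_im, Complex.conj_re, Complex.conj_im, Complex.ofReal_re, Complex.ofReal_im]
    ring
  rw [key]
  have : 0 < Complex.normSq (g 0 0 * u + g 0 1 * v) +
        Complex.normSq (g 1 0 * u + g 1 1 * v) := by
    by_contra hcon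
    have h1 := Complex.normSq_nonneg (g 0 0 * u + g 0 1 * v)
    have h2 := Complex.normSq_nonneg (g 1 0 * u + g 1 1 * v)
    have h3 : Complex.normSq (g 0 0 * u + g 0 1 * v) = 0 := by linarith
    have h4 : Complex.normSq (g 1 0 * u + g 1 1 * v) = 0 := by linarith
    rw [Complex.normSq_eq_zero] at h3 h4
    have hd := det_ne g
    have e1 : (g 0 0 * g 1 1 - g 0 1 * g 1 0) * u = 0 := by linear_combination g 1 1 * h3 - g 0 1 * h4
    have e2 : (g 0 0 * g 1 1 - g 0 1 * g 1 0) * v = 0 := by linear_combination g 0 0 * h4 - g 1 0 * h3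
    have hu : u = 0 := (mul_eq_zero.1 e1).resolve_left hd
    have hv : v = 0 := (mul_eq_zero.1 e2).resolve_left hd
    rcases h with h | h <;> contradiction
  positivity

lemma ph_smul (g : GLC) (p : Ch) : ph (g • p) =
    ((((aL g (ph p) + aM g (ph p))⁻¹ : ℝ) : ℂ) * aN g (ph p),
      (aL g (ph p) + aM g (ph p))⁻¹ * aM g (ph p)) := by
  have hpos := aD_pos g p
  obtain ⟨u, v, h, rfl⟩ := exists_pr p
  have hs : 0 < Complex.normSq u + Complex.normSq v := by
    rcases h with h | h
    · have := Complex.normSq_pos.2 h; have := Complex.normSq_nonneg v; linarith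
    · have := Complex.normSq_pos.2 h; have := Complex.normSq_nonneg u; linarith
  have h' : (g 0 0 * u + g 0 1 * v ≠ 0) ∨ (g 1 0 * u + g 1 1 * v ≠ 0) := by
    by_contra hcon
    push Not at hcon
    obtain ⟨h3, h4⟩ := hcon
    have hd := det_ne g
    have e1 : (g 0 0 * g 1 1 - g 0 1 * g 1 0) * u = 0 := by linear_combination g 1 1 * h3 - g 0 1 * h4
    have e2 : (g 0 0 * g 1 1 - g 0 1 * g 1 0) * v = 0 := by linear_combination g 0 0 * h4 - g 1 0 * h3
    have hu : u = 0 := (mul_eq_zero.1 e1).resolve_left hd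
    have hv : v = 0 := (mul_eq_zero.1 e2).resolve_left hd
    rcases h with h | h <;> contradiction
  have t1 : 1 - (Complex.normSq u + Complex.normSq v)⁻¹ * Complex.normSq v =
      (Complex.normSq u + Complex.normSq v)⁻¹ * Complex.normSq u := by
    field_simp; ring
  have eM : aM g (ph (pr u v)) = (Complex.normSq u + Complex.normSq v)⁻¹ *
      Complex.normSq (g 1 0 * u + g 1 1 * v) := by
    rw [ph_pr u v h, aM]
    simp only [t1]
    simp only [Complex.normSq_apply, Complex.mul_re, Complex.mul_im, Complex.add_re,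
      Complex.add_im, Complex.conj_re, Complex.conj_im, Complex.ofReal_re, Complex.ofReal_im]
    ring
  have eL : aL g (ph (pr u v)) = (Complex.normSq u + Complex.normSq v)⁻¹ *
      Complex.normSq (g 0 0 * u + g 0 1 * v) := by
    rw [ph_pr u v h, aL]
    simp only [t1]
    simp only [Complex.normSq_apply, Complex.mul_re, Complex.mul_im, Complex.add_re,
      Complex.add_im, Complex.conj_re, Complex.conj_im, Complex.ofReal_re, Complex.ofReal_im]
    ring
  have eN : aN g (ph (pr u v)) = (((Complex.normSq u + Complex.normSq v)⁻¹ : ℝ) : ℂ) *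
      ((g 0 0 * u + g 0 1 * v) * (starRingEnd ℂ) (g 1 0 * u + g 1 1 * v)) := by
    rw [ph_pr u v h, aN]
    simp only [t1]
    push_cast
    rw [← Complex.mul_conj, ← Complex.mul_conj]
    simp only [map_add, map_mul, map_inv₀, Complex.conj_conj]
    ring
  have key : (aL g (ph (pr u v)) + aM g (ph (pr u v)))⁻¹ * (Complex.normSq u + Complex.normSq v)⁻¹ =
      (Complex.normSq (g 0 0 * u + g 0 1 * v) + Complex.normSq (g 1 0 * u + g 1 1 * v))⁻¹ := by
    rw [eL, eM, ← mul_add, mul_inv, inv_inv]
    field_simp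
  rw [smul_pr g u v h, ph_pr _ _ h', eN]
  refine Prod.ext ?_ ?_
  · simp only
    rw [← key]
    push_cast
    ring
  · simp only
    rw [← key]
    rw [eM]
    ring

lemma entry_cont (i j : Fin 2) : Continuous fun g : GLC => (g i j : ℂ) :=
  (Units.continuous_val : Continuous (fun g : GLC => (g : Matrix (Fin 2) (Fin 2) ℂ))).matrix_elem i j

/-- the action is jointly continuous -/
lemma smul_cont : Continuous fun x : GLC × Ch => x.1 • x.2 := by
  rw [ph_emb.isInducing.continuous_iff]
  have e : (ph ∘ fun x : GLC × Ch => x.1 • x.2) = fun x : GLC × Ch =>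
    ((((aL x.1 (ph x.2) + aM x.1 (ph x.2))⁻¹ : ℝ) : ℂ) * aN x.1 (ph x.2),
      (aL x.1 (ph x.2) + aM x.1 (ph x.2))⁻¹ * aM x.1 (ph x.2)) := by
    funext x
    exact ph_smul x.1 x.2
  rw [e]
  have c (i j : Fin 2) : Continuous fun x : GLC × Ch => (x.1 i j : ℂ) :=
    (entry_cont i j).comp continuous_fst
  have cp : Continuous fun x : GLC × Ch => ph x.2 := ph_cont.comp continuous_snd
  have cp1 : Continuous fun x : GLC × Ch => (ph x.2).1 := continuous_fst.comp cp
  have cp2 : Continuous fun x : GLC × Ch => (ph x.2).2 := continuous_snd.comp cp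
  have cc : Continuous (starRingEnd ℂ) := Complex.continuous_conj
  have c' (i j : Fin 2) : Continuous fun x : GLC × Ch => (starRingEnd ℂ) (x.1 i j : ℂ) :=
    cc.comp (c i j)
  have cs (i j : Fin 2) : Continuous fun x : GLC × Ch => Complex.normSq (x.1 i j : ℂ) :=
    Complex.continuous_normSq.comp (c i j)
  have cN : Continuous fun x : GLC × Ch => aN x.1 (ph x.2) := by
    unfold aN
    exact ((((c 0 0).mul (c' 1 0)).mul (Complex.continuous_ofReal.comp (continuous_const.sub cp2))).add
      (((c 0 0).mul (c' 1 1)).mul cp1)).add (((c 0 1).mul (c' 1 0)).mul (cc.comp cp1)) |>.add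
      (((c 0 1).mul (c' 1 1)).mul (Complex.continuous_ofReal.comp cp2))
  have cM : Continuous fun x : GLC × Ch => aM x.1 (ph x.2) := by
    unfold aM
    exact (((cs 1 0).mul (continuous_const.sub cp2)).add (continuous_const.mul
      (Complex.continuous_re.comp (((c 1 0).mul (c' 1 1)).mul cp1)))).add ((cs 1 1).mul cp2)
  have cL : Continuous fun x : GLC × Ch => aL x.1 (ph x.2) := by
    unfold aL
    exact (((cs 0 0).mul (continuous_const.sub cp2)).add (continuous_const.mul
      (Complex.continuous_re.comp (((c 0 0).mul (c' 0 1)).mul cp1)))).add ((cs 0 1).mul cp2)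
  have cD : Continuous fun x : GLC × Ch => (aL x.1 (ph x.2) + aM x.1 (ph x.2))⁻¹ :=
    (cL.add cM).inv₀ (fun x => (aD_pos x.1 x.2).ne')
  exact ((Complex.continuous_ofReal.comp cD).mul cN).prodMk (cD.mul cM)

instance : ContinuousSMul GLC Ch := ⟨smul_cont⟩

lemma mem_act {g : GLC} {S : Set Ch} {p : Ch} : p ∈ act g S ↔ g⁻¹ • p ∈ S := by
  constructor
  · rintro ⟨q, hq, rfl⟩
    simpa using hq
  · intro h
    exact ⟨g⁻¹ • p, h, by simp⟩

lemma smul_mem_act {g : GLC} {S : Set Ch} {p : Ch} : g • p ∈ act g S ↔ p ∈ S := by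
  rw [mem_act]; simp

lemma act_one (S : Set Ch) : act 1 S = S := by ext p; simp [mem_act]

lemma act_mul (g h : GLC) (S : Set Ch) : act (g * h) S = act g (act h S) := by
  ext p; simp [mem_act, mul_smul]

lemma act_inv_act (g : GLC) (S : Set Ch) : act g⁻¹ (act g S) = S := by
  rw [← act_mul]; simp [act_one]

lemma act_act_inv (g : GLC) (S : Set Ch) : act g (act g⁻¹ S) = S := by
  rw [← act_mul]; simp [act_one]

lemma act_inter (g : GLC) (S T : Set Ch) : act g (S ∩ T) = act g S ∩ act g T := by
  ext p; simp [mem_act]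

lemma act_empty_iff (g : GLC) (S : Set Ch) : act g S = ∅ ↔ S = ∅ := by
  unfold act; exact Set.image_eq_empty

lemma act_inj {g : GLC} {S T : Set Ch} : act g S = act g T ↔ S = T := by
  constructor
  · intro h
    rw [← act_inv_act g S, h, act_inv_act]
  · intro h; rw [h]

lemma act_subset {g : GLC} {S T : Set Ch} : act g S ⊆ act g T ↔ S ⊆ T := by
  constructor
  · intro h p hp
    have := h (smul_mem_act.2 hp)
    exact smul_mem_act.1 this
  · intro h p hp
    rw [mem_act] at *
    exact h hp

lemma eq_act_iff {g : GLC} {S T : Set Ch} : S = act g T ↔ act g⁻¹ S = T := by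
  constructor
  · intro h; rw [h, act_inv_act]
  · intro h; rw [← h, act_act_inv]

lemma tan_act (g : GLC) (S T : Set Ch) :
    (∃! p, p ∈ act g S ∩ act g T) ↔ ∃! p, p ∈ S ∩ T := by
  rw [← act_inter]
  constructor
  · rintro ⟨p, hp, hu⟩
    refine ⟨g⁻¹ • p, mem_act.1 hp, ?_⟩
    intro q hq
    have := hu (g • q) (smul_mem_act.2 hq)
    rw [← this]; simp
  · rintro ⟨p, hp, hu⟩
    refine ⟨g • p, smul_mem_act.2 hp, ?_⟩
    intro q hq
    have := hu (g⁻¹ • q) (mem_act.1 hq)
    rw [← this]; simp

lemma smul_homeo_cont (g : GLC) : Continuous fun p : Ch => g • p := continuous_const_smul g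

lemma act_eq_smul (g : GLC) (S : Set Ch) : act g S = (Homeomorph.smul g) '' S := rfl

lemma act_isClosed {g : GLC} {S : Set Ch} : IsClosed (act g S) ↔ IsClosed S := by
  rw [act_eq_smul]; exact (Homeomorph.smul g).isClosed_image

lemma act_isOpen {g : GLC} {S : Set Ch} : IsOpen (act g S) ↔ IsOpen S := by
  rw [act_eq_smul]; exact (Homeomorph.smul g).isOpen_image

lemma act_closure (g : GLC) (S : Set Ch) : act g (closure S) = closure (act g S) := by
  rw [act_eq_smul, act_eq_smul]; exact (Homeomorph.smul g).image_closure S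

end Pool.Agent.Lib.MP_cc6c48_an
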