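import Pool.Agent.Lib.MP_cc6c48_an.Basic

/-! Circles of the sphere as zero sets of hermitian forms. -/

set_option autoImplicit false

open OnePoint Topology Filter Complex ComplexConjugate

namespace Pool.Agent.Lib.MP_cc6c48_an

/-- coefficients of a hermitian form -/
@[ext] structure Vec where
  b : ℝ
  x : ℝ
  y : ℝ
  c : ℝ

/-- the quadratic form -/
def Vec.q (v : Vec) : ℝ := v.x ^ 2 + v.y ^ 2 - v.b * v.c

/-- the hermitian form -/
noncomputable def Hf (v : Vec) (s t : ℂ) : ℝ :=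
  v.b * normSq s - 2 * (v.x * (s * conj t).re + v.y * (s * conj t).im) + v.c * normSq t

/-- the zero set of the form -/
def cirV (v : Vec) : Set Ch :=
  {p | p.elim (v.b = 0) (fun z => v.b * normSq z - 2 * (v.x * z.re + v.y * z.im) + v.c = 0)}

lemma infty_mem_cirV (v : Vec) : (∞ : OnePoint ℂ) ∈ cirV v ↔ v.b = 0 := Iff.rfl

lemma coe_mem_cirV (v : Vec) (z : ℂ) : (z : OnePoint ℂ) ∈ cirV v ↔
    v.b * normSq z - 2 * (v.x * z.re + v.y * z.im) + v.c = 0 := Iff.rfl

lemma pr_mem_cirV (v : Vec) (s t : ℂ) (h : s ≠ 0 ∨ t ≠ 0) : pr s t ∈ cirV v ↔ Hf v s t = 0 := by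
  by_cases ht : t = 0
  · subst ht
    have hs : s ≠ 0 := by simpa using h
    rw [pr_zero, infty_mem_cirV, Hf]
    simp [hs]
  · have h1 : pr s t = ((s / t : ℂ) : OnePoint ℂ) := by simp [pr, ht]
    rw [h1, coe_mem_cirV, Hf]
    have hp : 0 < normSq t := normSq_pos.2 ht
    have e : s / t = s * conj t * ((normSq t)⁻¹ : ℝ) := by
      rw [div_eq_mul_inv, Complex.inv_def, mul_assoc]
    have e1 : (s / t).re = (s * conj t).re * (normSq t)⁻¹ := by
      rw [e, Complex.re_mul_ofReal]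
    have e2 : (s / t).im = (s * conj t).im * (normSq t)⁻¹ := by
      rw [e, Complex.im_mul_ofReal]
    rw [e1, e2, map_div₀]
    have e3 : v.b * (normSq s / normSq t) - 2 * (v.x * ((s * conj t).re * (normSq t)⁻¹) +
        v.y * ((s * conj t).im * (normSq t)⁻¹)) + v.c = (v.b * normSq s -
        2 * (v.x * (s * conj t).re + v.y * (s * conj t).im) + v.c * normSq t) * (normSq t)⁻¹ := by
      field_simp
    rw [e3]
    constructor
    · intro h0
      exact (mul_eq_zero.1 h0).resolve_right (inv_pos.2 hp).ne'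
    · intro h0; rw [h0, zero_mul]

lemma inv_smul_pr (g : GLC) (s t : ℂ) (h : s ≠ 0 ∨ t ≠ 0) :
    g⁻¹ • pr s t = pr (g 1 1 * s - g 0 1 * t) (g 0 0 * t - g 1 0 * s) ∧
    (g 1 1 * s - g 0 1 * t ≠ 0 ∨ g 0 0 * t - g 1 0 * s ≠ 0) := by
  have hd := det_ne g
  have h' : (g 1 1 * s - g 0 1 * t ≠ 0) ∨ (g 0 0 * t - g 1 0 * s ≠ 0) := by
    by_contra hcon
    push Not at hcon
    obtain ⟨h3, h4⟩ := hcon
    have e1 : (g 0 0 * g 1 1 - g 0 1 * g 1 0) * s = 0 := by linear_combination g 0 0 * h3 + g 0 1 * h4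
    have e2 : (g 0 0 * g 1 1 - g 0 1 * g 1 0) * t = 0 := by linear_combination g 1 1 * h4 + g 1 0 * h3
    have hu : s = 0 := (mul_eq_zero.1 e1).resolve_left hd
    have hv : t = 0 := (mul_eq_zero.1 e2).resolve_left hd
    rcases h with h | h <;> contradiction
  refine ⟨?_, h'⟩
  rw [inv_smul_eq_iff, smul_pr g _ _ h']
  have e1 : g 0 0 * (g 1 1 * s - g 0 1 * t) + g 0 1 * (g 0 0 * t - g 1 0 * s) =
    (g 0 0 * g 1 1 - g 0 1 * g 1 0) * s := by ring
  have e2 : g 1 0 * (g 1 1 * s - g 0 1 * t) + g 1 1 * (g 0 0 * t - g 1 0 * s) =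
    (g 0 0 * g 1 1 - g 0 1 * g 1 0) * t := by ring
  rw [e1, e2]
  unfold pr
  by_cases ht : t = 0
  · simp [ht]
  · simp only [ht, if_false, mul_eq_zero, hd, or_self]
    congr 1
    field_simp

/-- the transformed form -/
noncomputable def vom (g : GLC) (v : Vec) : ℂ :=
  v.b * (g 1 1) * conj (g 0 1 : ℂ) + (v.x - v.y * I) * (g 1 1) * conj (g 0 0 : ℂ)
   + (v.x + v.y * I) * conj (g 0 1 : ℂ) * (g 1 0) + v.c * (g 1 0) * conj (g 0 0 : ℂ)

noncomputable def vact (g : GLC) (v : Vec) : Vec where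
  b := v.b * normSq (g 1 1) + 2 * ((v.x - v.y * I) * (g 1 1) * conj (g 1 0 : ℂ)).re
    + v.c * normSq (g 1 0)
  x := (vom g v).re
  y := -(vom g v).im
  c := v.b * normSq (g 0 1) + 2 * ((v.x - v.y * I) * (g 0 1) * conj (g 0 0 : ℂ)).re
    + v.c * normSq (g 0 0)

lemma act_cirV (g : GLC) (v : Vec) : act g (cirV v) = cirV (vact g v) := by
  ext p
  obtain ⟨s, t, h, rfl⟩ := exists_pr p
  obtain ⟨e1, e2⟩ := inv_smul_pr g s t h
  rw [mem_act, e1, pr_mem_cirV _ _ _ e2, pr_mem_cirV _ _ _ h]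
  have : Hf v (g 1 1 * s - g 0 1 * t) (g 0 0 * t - g 1 0 * s) = Hf (vact g v) s t := by
    unfold Hf vact vom
    simp only [normSq_apply, mul_re, mul_im, add_re, add_im, sub_re, sub_im, conj_re, conj_im,
      ofReal_re, ofReal_im, I_re, I_im]
    ring
  rw [this]

lemma vact_q (g : GLC) (v : Vec) :
    (vact g v).q = normSq (g 0 0 * g 1 1 - g 0 1 * g 1 0) * v.q := by
  unfold Vec.q vact vom
  simp only [normSq_apply, mul_re, mul_im, add_re, add_im, sub_re, sub_im, conj_re, conj_im,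
      ofReal_re, ofReal_im, I_re, I_im, map_sub, map_mul]
  ring

lemma vact_q_pos (g : GLC) (v : Vec) (h : 0 < v.q) : 0 < (vact g v).q := by
  rw [vact_q]
  exact mul_pos (normSq_pos.2 (det_ne g)) h

/-- the vector of the real line -/
def v0 : Vec := ⟨0, 0, -1, 0⟩

lemma v0_q : v0.q = 1 := by simp [Vec.q, v0]

lemma Rhat_eq : Rhat = cirV v0 := by
  ext p
  induction p using OnePoint.rec with
  | infty => simp [Rhat, infty_mem_cirV, v0]
  | coe z =>
    rw [coe_mem_cirV]
    unfold Rhat v0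
    constructor
    · rintro (h | ⟨x, hx⟩)
      · exact absurd h (coe_ne_infty z)
      · have : (x : ℂ) = z := coe_injective hx
        rw [← this]; simp
    · intro h
      right
      refine ⟨z.re, ?_⟩
      show ((z.re : ℂ) : OnePoint ℂ) = z
      congr 1
      apply Complex.ext
      · simp
      · simp at h; simp [h]

lemma mem_Rhat_coe (z : ℂ) : (z : OnePoint ℂ) ∈ Rhat ↔ z.im = 0 := by
  rw [Rhat_eq, coe_mem_cirV]; simp [v0]

lemma infty_mem_Rhat : (∞ : OnePoint ℂ) ∈ Rhat := Set.mem_insert _ _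

lemma Rhat_closed : IsClosed Rhat := by
  rw [OnePoint.isClosed_iff_of_mem infty_mem_Rhat]
  have : ((↑) ⁻¹' Rhat : Set ℂ) = {z : ℂ | z.im = 0} := by
    ext z; exact mem_Rhat_coe z
  rw [this]
  exact isClosed_eq Complex.continuous_im continuous_const

lemma act_Rhat_closed (g : GLC) : IsClosed (act g Rhat) := act_isClosed.2 Rhat_closed

lemma act_Rhat_eq (g : GLC) : ∃ v : Vec, 0 < v.q ∧ act g Rhat = cirV v := by
  refine ⟨vact g v0, vact_q_pos g v0 ?_, ?_⟩
  · rw [v0_q]; exact one_pos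
  · rw [Rhat_eq, act_cirV]

lemma cirV_smul (v : Vec) (r : ℝ) (hr : r ≠ 0) :
    cirV ⟨r * v.b, r * v.x, r * v.y, r * v.c⟩ = cirV v := by
  ext p
  induction p using OnePoint.rec with
  | infty => rw [infty_mem_cirV, infty_mem_cirV]; simp [hr]
  | coe z =>
    rw [coe_mem_cirV, coe_mem_cirV]
    have : r * v.b * normSq z - 2 * (r * v.x * z.re + r * v.y * z.im) + r * v.c =
      r * (v.b * normSq z - 2 * (v.x * z.re + v.y * z.im) + v.c) := by ring
    simp only [this, mul_eq_zero, hr, false_or]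

/-- infinitely many real points only on the real line -/
lemma inf_real (v : Vec) (h : (Rhat ∩ cirV v).Infinite) : v.b = 0 ∧ v.x = 0 ∧ v.c = 0 := by
  by_contra hcon
  apply h
  have hfin : {t : ℝ | v.b * t ^ 2 - 2 * v.x * t + v.c = 0}.Finite := by
    by_cases hb : v.b = 0
    · by_cases hx : v.x = 0
      · have hc : v.c ≠ 0 := fun hc => hcon ⟨hb, hx, hc⟩
        have : {t : ℝ | v.b * t ^ 2 - 2 * v.x * t + v.c = 0} = ∅ := by
          ext t; simp [hb, hx, hc]
        rw [this]; exact Set.finite_empty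
      · apply Set.Finite.subset (Set.finite_singleton (v.c / (2 * v.x)))
        intro t ht
        simp only [Set.mem_ofPred_eq, hb] at ht
        simp only [Set.mem_singleton_iff]
        field_simp
        linarith
    · apply Set.Finite.subset (Set.toFinite {(v.x + Real.sqrt (v.x ^ 2 - v.b * v.c)) / v.b,
        (v.x - Real.sqrt (v.x ^ 2 - v.b * v.c)) / v.b})
      intro t ht
      simp only [Set.mem_ofPred_eq] at ht
      have hk : (v.b * t - v.x) ^ 2 = v.x ^ 2 - v.b * v.c := by linear_combination v.b * ht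
      have hd : 0 ≤ v.x ^ 2 - v.b * v.c := by rw [← hk]; positivity
      have hs := Real.sq_sqrt hd
      set s := Real.sqrt (v.x ^ 2 - v.b * v.c)
      have : (v.b * t - v.x - s) * (v.b * t - v.x + s) = 0 := by linear_combination hk - hs
      rcases mul_eq_zero.1 this with h1 | h1
      · left; field_simp; linarith
      · right; simp only [Set.mem_singleton_iff]; field_simp; linarith
  apply Set.Finite.subset (Set.Finite.insert (∞ : OnePoint ℂ)
    (hfin.image (fun t : ℝ => ((t : ℂ) : OnePoint ℂ))))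
  rintro p ⟨hp, hp2⟩
  rcases hp with hp | ⟨t, rfl⟩
  · left; exact hp
  · right
    refine ⟨t, ?_, rfl⟩
    rw [coe_mem_cirV] at hp2
    simp only [Set.mem_ofPred_eq]
    simp only [normSq_ofReal, ofReal_re, ofReal_im] at hp2
    linarith

lemma eq_of_inf (g : GLC) (v : Vec) (hq : 0 < v.q) (h : (act g Rhat ∩ cirV v).Infinite) :
    act g Rhat = cirV v := by
  have e : act g Rhat ∩ cirV v = act g (Rhat ∩ cirV (vact g⁻¹ v)) := by
    rw [act_inter, ← act_cirV, act_act_inv]
  rw [e] at h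
  have h2 : (Rhat ∩ cirV (vact g⁻¹ v)).Infinite := by
    intro hf; exact h (hf.image _)
  obtain ⟨hb, hx, hc⟩ := inf_real _ h2
  have hq2 := vact_q_pos g⁻¹ v hq
  have hy : (vact g⁻¹ v).y ≠ 0 := by
    intro hy
    rw [Vec.q, hb, hx, hy] at hq2
    norm_num at hq2
  have : cirV (vact g⁻¹ v) = Rhat := by
    rw [Rhat_eq, ← cirV_smul v0 (-(vact g⁻¹ v).y) (neg_ne_zero.2 hy)]
    congr 1
    ext <;> simp [v0, hb, hx, hc]
  rw [← this, ← act_cirV, act_act_inv]

lemma eq_of_inf' (g h : GLC) (hi : (act g Rhat ∩ act h Rhat).Infinite) :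
    act g Rhat = act h Rhat := by
  obtain ⟨v, hq, e⟩ := act_Rhat_eq h
  rw [e] at hi ⊢
  exact eq_of_inf g v hq hi

/-- a circle with exactly one common point with the real line -/
lemma tan_real (v : Vec) (h : ∃! p, p ∈ Rhat ∩ cirV v) : v.x ^ 2 = v.b * v.c := by
  obtain ⟨p, ⟨hp1, hp2⟩, hu⟩ := h
  have hr : ∀ t : ℝ, v.b * t ^ 2 - 2 * v.x * t + v.c = 0 → ((t : ℂ) : OnePoint ℂ) = p := by
    intro t ht
    apply hu
    refine ⟨(mem_Rhat_coe _).2 (by simp), ?_⟩
    rw [coe_mem_cirV]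
    simp only [normSq_ofReal, ofReal_re, ofReal_im]
    linarith
  by_cases hb : v.b = 0
  · have hpi : (∞ : OnePoint ℂ) = p := hu _ ⟨infty_mem_Rhat, hb⟩
    by_cases hx : v.x = 0
    · rw [hb, hx]; ring
    · exfalso
      have := hr (v.c / (2 * v.x)) (by rw [hb]; field_simp; ring)
      rw [← hpi] at this
      exact coe_ne_infty _ this
  · have hd : 0 ≤ v.x ^ 2 - v.b * v.c := by
      rcases hp1 with hp1 | ⟨t, rfl⟩
      · rw [hp1] at hp2; exact absurd hp2 hb
      · have h2 := (coe_mem_cirV _ _).1 hp2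
        simp only [normSq_ofReal, ofReal_re, ofReal_im] at h2
        have hk : (v.b * t - v.x) ^ 2 = v.x ^ 2 - v.b * v.c := by linear_combination v.b * h2
        rw [← hk]; positivity
    have hs := Real.sq_sqrt hd
    set s := Real.sqrt (v.x ^ 2 - v.b * v.c)
    have h1 := hr ((v.x + s) / v.b) (by field_simp; nlinarith)
    have h2 := hr ((v.x - s) / v.b) (by field_simp; nlinarith)
    rw [← h2] at h1
    have h3 : (((v.x + s) / v.b : ℝ) : ℂ) = (((v.x - s) / v.b : ℝ) : ℂ) := coe_injective h1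
    have h4 : (v.x + s) / v.b = (v.x - s) / v.b := by exact_mod_cast h3
    have h5 : s = 0 := by
      field_simp at h4; linarith
    rw [h5] at hs
    linarith

end Pool.Agent.Lib.MP_cc6c48_an
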