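import Mathlib

/-! Basic definitions for MP_cc6c48_an: Moebius action of GL2(C) on the Riemann sphere,
circles, the strip Apollonian packing. -/

set_option autoImplicit false

namespace Pool.Agent.Lib.MP_cc6c48_an

/-- GL2 over the complex numbers -/
abbrev GLC : Type := Matrix.GeneralLinearGroup (Fin 2) ℂ

/-- the Riemann sphere -/
abbrev Ch : Type := OnePoint ℂ

/-- the extended real line -/
def Rhat : Set Ch :=
  insert (OnePoint.infty : OnePoint ℂ) (Set.range (fun x : ℝ => OnePoint.some (x : ℂ)))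

/-- image of a set of points of the sphere under a Moebius map -/
def act (g : GLC) (S : Set Ch) : Set Ch := (fun w : OnePoint ℂ => g • w) '' S

/-- exactly one common point -/
def Tan (S T : Set Ch) : Prop := ∃! p, p ∈ S ∩ T

/-- families containing four given circles and closed under adding any circle tangent to three
mutually tangent members -/
def IsFam (C₁ C₂ C₃ C₄ : Set Ch) (F : Set (Set Ch)) : Prop :=
  C₁ ∈ F ∧ C₂ ∈ F ∧ C₃ ∈ F ∧ C₄ ∈ F ∧
      ∀ S ∈ F, ∀ T ∈ F, ∀ U ∈ F, ∀ V : Set Ch,
        (∃ g : GLC, V = act g Rhat) →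
        (∃! p, p ∈ S ∩ T) → (∃! p, p ∈ T ∩ U) → (∃! p, p ∈ S ∩ U) → S ∩ T ∩ U = ∅ →
        (∃! p, p ∈ V ∩ S) → (∃! p, p ∈ V ∩ T) → (∃! p, p ∈ V ∩ U) → V ∈ F

/-- the family generated by four circles -/
def Pack (C₁ C₂ C₃ C₄ : Set Ch) : Set (Set Ch) := ⋂₀ {F | IsFam C₁ C₂ C₃ C₄ F}

/-- a two by two complex matrix with nonzero determinant as an element of GL2 -/
noncomputable def mk (a b c d : ℂ) (h : a * d - b * c ≠ 0) : GLC :=
  Matrix.GeneralLinearGroup.mkOfDetNeZero !![a, b; c, d] (by simpa [Matrix.det_fin_two] using h)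

/-- z ↦ z + 1 -/
noncomputable def gT : GLC := mk 1 1 0 1 (by simp)

/-- z ↦ -1/z -/
noncomputable def gw : GLC := mk 0 (-1) 1 0 (by simp)

/-- z ↦ i - z -/
noncomputable def gr : GLC := mk (-1) Complex.I 0 1 (by simp)

/-- the scalar i, acting trivially -/
noncomputable def gi : GLC := mk Complex.I 0 0 Complex.I (by simp)

/-- the group generated by the four maps above -/
noncomputable def G0 : Subgroup GLC := Subgroup.closure {gT, gw, gr, gi}

/-- R + i -/
noncomputable def C2 : Set Ch := act gr Rhat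
/-- the circle of centre i/2 and radius 1/2 -/
noncomputable def C3 : Set Ch := act gw C2
/-- C3 + 1 -/
noncomputable def C4 : Set Ch := act gT C3

/-- the strip packing -/
noncomputable def PP : Set (Set Ch) := Pack Rhat C2 C3 C4

/-- the closure of the union of the circles of the packing -/
noncomputable def Lam : Set Ch := closure (⋃₀ PP)

/-- the set of parabolic points -/
def X0 : Set Ch := {y | ∃ g ∈ G0, y = g • (OnePoint.infty : OnePoint ℂ)}

/-- entries are Gaussian integers -/
def IsG (g : GLC) : Prop := ∀ i j, ∃ m n : ℤ, (g i j : ℂ) = (m : ℂ) + (n : ℂ) * Complex.I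

end Pool.Agent.Lib.MP_cc6c48_an
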