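import Pool.Agent.Lib.MP_cc6c48_an.Geom

/-! The maximal family of involutions and the orbit of the circle. -/

set_option autoImplicit false

open OnePoint Topology Filter Complex ComplexConjugate Matrix

namespace Pool.Agent.Lib.MP_cc6c48_an

/-- admissible families -/
def Adm (J : Set GLC) : Prop :=
  ia ∈ J ∧ ib ∈ J ∧ (∀ M ∈ J, Cand M) ∧ (∀ M ∈ J, ∀ N ∈ J, M ≠ N → Disjoint (DD M) (DD N)) ∧
  ∀ M ∈ J, M ≠ ia → M ≠ ib → Disjoint (DD M) K0

lemma adm_base : Adm {ia, ib} := by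
  refine ⟨Or.inl rfl, Or.inr rfl, ?_, ?_, ?_⟩
  · rintro M (rfl | rfl)
    · exact ia_cand
    · exact ib_cand
  · rintro M (rfl | rfl) N (rfl | rfl) h
    · exact absurd rfl h
    · exact ab_disj
    · exact ab_disj.symm
    · exact absurd rfl h
  · rintro M (rfl | rfl) h1 h2
    · exact absurd rfl h1
    · exact absurd rfl h2

lemma exists_max : ∃ J : Set GLC, Adm J ∧ ∀ J', Adm J' → J ⊆ J' → J' = J := by
  obtain ⟨J, _, hJ⟩ := zorn_subset_nonempty {J | Adm J} (by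
    intro c hc hchain hne
    refine ⟨⋃₀ c, ?_, fun s hs => Set.subset_sUnion_of_mem hs⟩
    obtain ⟨s0, hs0⟩ := hne
    refine ⟨⟨s0, hs0, (hc hs0).1⟩, ⟨s0, hs0, (hc hs0).2.1⟩, ?_, ?_, ?_⟩
    · rintro M ⟨s, hs, hM⟩
      exact (hc hs).2.2.1 M hM
    · rintro M ⟨s, hs, hM⟩ N ⟨t, ht, hN⟩ hne
      rcases hchain.total hs ht with h | h
      · exact (hc ht).2.2.2.1 M (h hM) N hN hne
      · exact (hc hs).2.2.2.1 M hM N (h hN) hne
    · rintro M ⟨s, hs, hM⟩ h1 h2
      exact (hc hs).2.2.2.2 M hM h1 h2) {ia, ib} adm_base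
  refine ⟨J, hJ.prop, ?_⟩
  intro J' hJ' hsub
  exact Set.Subset.antisymm (hJ.le_of_ge hJ' hsub) hsub

lemma Cs_K0 (k : ℕ) : Cs (mu ^ k) ⊆ K0 := fun _ hp => Or.inl ⟨mu ^ k, Or.inr ⟨k, rfl⟩, hp⟩

lemma Cs_K0' (k : ℕ) : act ib (Cs (mu ^ k)) ⊆ K0 := by
  intro p hp
  right
  rw [mem_act] at hp ⊢
  exact ⟨mu ^ k, Or.inr ⟨k, rfl⟩, hp⟩

lemma red_class (J : Set GLC) (hJ : Adm J) (o : Option GLC) (X : Set Ch) (h : Red J (Cs 1) o X) :
    (o = none ∧ X = Cs 1) ∨ ∃ M ∈ J, o = Option.some M ∧ (X ⊆ DD M ∨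
      (M = ia ∧ ∃ k : ℕ, X = Cs (mu ^ (k + 1))) ∨ (M = ib ∧ ∃ k : ℕ, X = act ib (Cs (mu ^ k)))) := by
  induction h with
  | base => exact Or.inl ⟨rfl, rfl⟩
  | step o X M hM ho h ih =>
    right
    refine ⟨M, hM, rfl, ?_⟩
    have hMc := hJ.2.2.1 M hM
    have e1 : Cs 1 = Cs (mu ^ 0) := by rw [pow_zero]
    rcases ih with ⟨rfl, rfl⟩ | ⟨N, hN, rfl, h1⟩
    · by_cases ha : M = ia
      · subst ha
        left
        exact act_disj _ hMc _ C_disj
      · by_cases hb : M = ib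
        · subst hb
          right; right
          exact ⟨rfl, 0, by rw [pow_zero]⟩
        · left
          apply act_disj _ hMc
          have := hJ.2.2.2.2 M hM ha hb
          rw [e1]
          exact (this.mono_right (Cs_K0 0)).symm
    · have hNM : N ≠ M := fun h => ho (by rw [h])
      rcases h1 with h1 | ⟨rfl, k, rfl⟩ | ⟨rfl, k, rfl⟩
      · left
        apply act_disj _ hMc
        exact (hJ.2.2.2.1 N hN M hM hNM).mono_left h1
      · by_cases hb : M = ib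
        · subst hb
          right; right
          exact ⟨rfl, k + 1, rfl⟩
        · left
          apply act_disj _ hMc
          have := hJ.2.2.2.2 M hM hNM.symm hb
          exact (this.mono_right (Cs_K0 _)).symm
      · by_cases ha : M = ia
        · subst ha
          right; left
          refine ⟨rfl, k, ?_⟩
          rw [← act_mul, act_ab, pow_succ']
        · left
          apply act_disj _ hMc
          have := hJ.2.2.2.2 M hM ha hNM.symm
          exact (this.mono_right (Cs_K0' _)).symm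

lemma orbit_class (J : Set GLC) (hJ : Adm J) (g : GLC) (hg : g ∈ Subgroup.closure J) :
    (∃ k : ℕ, act g (Cs 1) = Cs (mu ^ k)) ∨ (∃ k : ℕ, act g (Cs 1) = act ib (Cs (mu ^ k))) ∨
      ∃ M ∈ J, act g (Cs 1) ⊆ DD M := by
  obtain ⟨o, ho⟩ := red_all J hJ.2.2.1 (Cs 1) g hg
  rcases red_class J hJ o _ ho with ⟨_, h⟩ | ⟨M, hM, _, h | ⟨_, k, h⟩ | ⟨_, k, h⟩⟩
  · left; exact ⟨0, by rw [pow_zero]; exact h⟩
  · right; right; exact ⟨M, hM, h⟩
  · left; exact ⟨k + 1, h⟩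
  · right; left; exact ⟨k, h⟩

/-- the orbit set in GL2 -/
def Orb (Γ : Subgroup GLC) (C : Set Ch) : Set GLC := {h | ∃ γ ∈ Γ, act h Rhat = act γ C}

lemma al_nmem (k : ℕ) : rp al ∉ Cs (mu ^ k) := by
  rw [al_mem]
  exact (pow_pos mu_pos k).ne'

lemma be_nmem (k : ℕ) : rp be ∉ act ib (Cs (mu ^ k)) := by
  rw [mem_act, cand_inv ib ib_cand, ib_be]
  exact al_nmem k

lemma al_mem' (k : ℕ) : rp al ∈ act ib (Cs (mu ^ k)) := by
  rw [mem_act, cand_inv ib ib_cand, ib_al]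
  exact be_mem _

lemma not_closed (J : Set GLC) (hJ : Adm J) : ¬ IsClosed (Orb (Subgroup.closure J) (Cs 1)) := by
  intro hcl
  have h0 : hs 0 ∈ Orb (Subgroup.closure J) (Cs 1) := by
    have ht : Tendsto (fun k : ℕ => hs (mu ^ k)) atTop (𝓝 (hs 0)) :=
      (hs_cont.tendsto 0).comp (tendsto_pow_atTop_nhds_zero_of_lt_one mu_pos.le mu_lt)
    apply hcl.mem_of_tendsto ht
    apply Filter.Eventually.of_forall
    intro k
    refine ⟨(ia * ib) ^ k, ?_, ?_⟩
    · exact Subgroup.pow_mem _ (Subgroup.mul_mem _ (Subgroup.subset_closure hJ.1)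
        (Subgroup.subset_closure hJ.2.1)) k
    · rw [act_ab_pow]; rfl
  obtain ⟨γ, hγ, he⟩ := h0
  have he' : Cs 0 = act γ (Cs 1) := he
  have ha : rp al ∈ act γ (Cs 1) := by rw [← he']; exact (al_mem 0).2 rfl
  have hb : rp be ∈ act γ (Cs 1) := by rw [← he']; exact be_mem 0
  rcases orbit_class J hJ γ hγ with ⟨k, h⟩ | ⟨k, h⟩ | ⟨M, hM, h⟩
  · rw [h] at ha; exact al_nmem k ha
  · rw [h] at hb; exact be_nmem k hb
  · have h1 : M = ia := by
      by_contra hne
      exact Set.disjoint_left.1 (hJ.2.2.2.1 M hM ia hJ.1 hne) (h ha) al_DDa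
    have h2 : M = ib := by
      by_contra hne
      exact Set.disjoint_left.1 (hJ.2.2.2.1 M hM ib hJ.2.1 hne) (h hb) be_DDb
    exact ia_ne_ib (h1.symm.trans h2)

/-- a circle far from the orbit -/
noncomputable def hf : GLC := mk 1 (I / 10) 0 1 (by simp)

lemma hf_infty : (∞ : OnePoint ℂ) ∈ act hf Rhat := by
  have h : hf • (∞ : OnePoint ℂ) = ∞ := by rw [smul_infty_eq_self_iff]; rfl
  have h2 : hf • (∞ : OnePoint ℂ) ∈ act hf Rhat := smul_mem_act.2 infty_mem_Rhat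
  rwa [h] at h2

lemma hf_coe (z : ℂ) : hf • (z : OnePoint ℂ) = ((z + I / 10 : ℂ) : OnePoint ℂ) := by
  apply smul_coe_of
  · simp [hf]
  · simp [hf]

lemma hf_rp (x : ℝ) : rp x ∉ act hf Rhat := by
  intro h
  rw [mem_act] at h
  have : hf⁻¹ • rp x = ((x - I / 10 : ℂ) : OnePoint ℂ) := by
    rw [inv_smul_eq_iff, hf_coe]; unfold rp; congr 1; ring
  rw [this, mem_Rhat_coe] at h
  simp at h

lemma not_dense (J : Set GLC) (hJ : Adm J) : hf ∉ closure (Orb (Subgroup.closure J) (Cs 1)) := by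
  rw [mem_closure_iff]
  push Not
  have c1 (p : Ch) : Continuous fun h : GLC => h • p := continuous_id.smul continuous_const
  have c2 (p : Ch) : Continuous fun h : GLC => h⁻¹ • p := continuous_inv.smul continuous_const
  refine ⟨{h | h • (((0 : ℂ)) : OnePoint ℂ) ∈ DI ia} ∩ {h | h • (((4 : ℂ)) : OnePoint ℂ) ∈ DI ib} ∩
    ({h | h⁻¹ • rp al ∈ Rhatᶜ} ∩ {h | h⁻¹ • rp be ∈ Rhatᶜ}), ?_, ?_, ?_⟩
  · exact (((DI_open ia).preimage (c1 _)).inter ((DI_open ib).preimage (c1 _))).inter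
      ((Rhat_closed.isOpen_compl.preimage (c2 _)).inter (Rhat_closed.isOpen_compl.preimage (c2 _)))
  · refine ⟨⟨?_, ?_⟩, ?_, ?_⟩
    · show hf • (((0 : ℂ)) : OnePoint ℂ) ∈ DI ia
      rw [hf_coe, DIa, zero_add, norm_div, norm_I]; norm_num
    · show hf • (((4 : ℂ)) : OnePoint ℂ) ∈ DI ib
      rw [hf_coe, DIb, add_sub_cancel_left, norm_div, norm_I]; norm_num
    · have := hf_rp al; rw [mem_act] at this; exact this
    · have := hf_rp be; rw [mem_act] at this; exact this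
  · rw [← Set.not_nonempty_iff_eq_empty]
    rintro ⟨h, ⟨⟨h1, h2⟩, h3, h4⟩, γ, hγ, he⟩
    have h1' : h • (((0 : ℂ)) : OnePoint ℂ) ∈ DI ia := h1
    have h2' : h • (((4 : ℂ)) : OnePoint ℂ) ∈ DI ib := h2
    have h3' : rp al ∉ act γ (Cs 1) := by rw [← he, mem_act]; exact h3
    have h4' : rp be ∉ act γ (Cs 1) := by rw [← he, mem_act]; exact h4
    have p1 : h • (((0 : ℂ)) : OnePoint ℂ) ∈ act γ (Cs 1) := by
      rw [← he, smul_mem_act, mem_Rhat_coe]; simp
    have p2 : h • (((4 : ℂ)) : OnePoint ℂ) ∈ act γ (Cs 1) := by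
      rw [← he, smul_mem_act, mem_Rhat_coe]; simp
    rcases orbit_class J hJ γ hγ with ⟨k, hk⟩ | ⟨k, hk⟩ | ⟨M, hM, hk⟩
    · rw [hk] at h4'; exact h4' (be_mem _)
    · rw [hk] at h3'; exact h3' (al_mem' _)
    · have e1 : M = ia := by
        by_contra hne
        exact Set.disjoint_left.1 (hJ.2.2.2.1 M hM ia hJ.1 hne) (hk p1) (DI_sub _ h1')
      have e2 : M = ib := by
        by_contra hne
        exact Set.disjoint_left.1 (hJ.2.2.2.1 M hM ib hJ.2.1 hne) (hk p2) (DI_sub _ h2')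
      exact ia_ne_ib (e1.symm.trans e2)

lemma real_Lam (x : ℝ) : rp x ∈ Lam := Rhat_Lam ((mem_Rhat_coe _).2 (by simp))

lemma hs1_coe (t w : ℂ) (h1 : (1 + I) * t + 0 ≠ 0)
    (h2 : be * (1 + I) * t + (al - be) = w * ((1 + I) * t + 0)) :
    hs 1 • (t : OnePoint ℂ) = (w : OnePoint ℂ) := by
  apply smul_coe_of
  · unfold hs; simp only [mk00, mk01, mk10, mk11]; push_cast; rw [sub_self]; exact h1
  · unfold hs; simp only [mk00, mk01, mk10, mk11]; push_cast; rw [sub_self, mul_one]; exact h2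

lemma one_I_ne : (1 + I : ℂ) ≠ 0 := by
  intro h
  have := congrArg Complex.re h
  simp at this

lemma sep_upper : ∃ t : ℂ, 0 < t.im ∧ hs 1 • (t : OnePoint ℂ) = rp 5 := by
  have h5 : (5 - be : ℝ) > 0 := by unfold be; have := s5_ub; linarith
  have h6 : 0 < be - al := by unfold al be; have := s5_pos; linarith
  set r : ℝ := (be - al) / (2 * (5 - be)) with hr
  have hrp : 0 < r := by positivity
  have hr2 : r * (2 * (5 - be)) = be - al := by rw [hr]; field_simp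
  refine ⟨⟨-r, r⟩, hrp, ?_⟩
  have e : (⟨-r, r⟩ : ℂ) = -r + r * I := by apply Complex.ext <;> simp
  have e2 : (1 + I) * (⟨-r, r⟩ : ℂ) = -2 * r := by
    rw [e]; linear_combination (r : ℂ) * I_sq
  unfold rp
  apply hs1_coe
  · rw [e2, add_zero]
    have : (-2 * r : ℝ) ≠ 0 := by nlinarith
    exact_mod_cast this
  · have hr3 : (r : ℂ) * (2 * (5 - be)) = be - al := by exact_mod_cast hr2
    have : (be : ℂ) * (1 + I) * (⟨-r, r⟩ : ℂ) = be * ((1 + I) * (⟨-r, r⟩ : ℂ)) := by ring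
    rw [this, e2]
    push_cast
    linear_combination hr3

lemma sep_lower : ∃ t : ℂ, t.im < 0 ∧ hs 1 • (t : OnePoint ℂ) = rp 0 := by
  have h5 : (be : ℝ) > 0 := by unfold be; have := s5_pos; linarith
  have h6 : 0 < be - al := by unfold al be; have := s5_pos; linarith
  set r : ℝ := (be - al) / (2 * be) with hr
  have hrp : 0 < r := by positivity
  have hr2 : r * (2 * be) = be - al := by rw [hr]; field_simp
  refine ⟨⟨r, -r⟩, by simpa using hrp, ?_⟩
  have e : (⟨r, -r⟩ : ℂ) = r - r * I := by apply Complex.ext <;> simp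
  have e2 : (1 + I) * (⟨r, -r⟩ : ℂ) = 2 * r := by
    rw [e]; linear_combination -(r : ℂ) * I_sq
  unfold rp
  apply hs1_coe
  · rw [e2, add_zero]
    have : (2 * r : ℝ) ≠ 0 := by positivity
    exact_mod_cast this
  · have hr3 : (r : ℂ) * (2 * be) = be - al := by exact_mod_cast hr2
    have : (be : ℂ) * (1 + I) * (⟨r, -r⟩ : ℂ) = be * ((1 + I) * (⟨r, -r⟩ : ℂ)) := by ring
    rw [this, e2]
    push_cast
    linear_combination hr3

end Pool.Agent.Lib.MP_cc6c48_an
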