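import Pool.Agent.Lib.MP_cc6c48_an.Inv

/-! The concrete circle and the two involutions. -/

set_option autoImplicit false

open OnePoint Topology Filter Complex ComplexConjugate Matrix

namespace Pool.Agent.Lib.MP_cc6c48_an

noncomputable def s5 : ℝ := Real.sqrt 5

lemma s5_sq : s5 ^ 2 = 5 := Real.sq_sqrt (by norm_num)
lemma s5_pos : 0 < s5 := Real.sqrt_pos.2 (by norm_num)
lemma s5_lb : 2.236 < s5 := by
  have := s5_sq; have := s5_pos; nlinarith
lemma s5_ub : s5 < 2.237 := by
  have := s5_sq; have := s5_pos; nlinarith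

lemma s5_irr (p q : ℚ) (h : (p : ℝ) + q * s5 = 0) : q = 0 := by
  by_contra hq
  have hirr : Irrational s5 := by
    have : Irrational (Real.sqrt (5 : ℕ)) := Nat.Prime.irrational_sqrt (by norm_num)
    simpa [s5] using this
  apply hirr
  refine ⟨-p / q, ?_⟩
  have hq' : (q : ℝ) ≠ 0 := by exact_mod_cast hq
  push_cast
  field_simp
  linarith

noncomputable def al : ℝ := 2 - s5
noncomputable def be : ℝ := 2 + s5

noncomputable def ia : GLC := gi * gw
noncomputable def ib : GLC := mk (4 * I) (-17 * I) I (-4 * I) (by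
  have : (4 * I) * (-4 * I) - (-17 * I) * I = -1 := by linear_combination I_sq
  rw [this]; norm_num)

lemma mk_ext {a b c d a' b' c' d' : ℂ} {h : a * d - b * c ≠ 0} {h' : a' * d' - b' * c' ≠ 0}
    (e1 : a = a') (e2 : b = b') (e3 : c = c') (e4 : d = d') : mk a b c d h = mk a' b' c' d' h' := by
  subst e1 e2 e3 e4; rfl

lemma mk_mul {a b c d a' b' c' d' : ℂ} {h : a * d - b * c ≠ 0} {h' : a' * d' - b' * c' ≠ 0} :
    mk a b c d h * mk a' b' c' d' h' = mk (a * a' + b * c') (a * b' + b * d') (c * a' + d * c')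
      (c * b' + d * d') (by
        have : (a * a' + b * c') * (c * b' + d * d') - (a * b' + b * d') * (c * a' + d * c') =
          (a * d - b * c) * (a' * d' - b' * c') := by ring
        rw [this]; exact mul_ne_zero h h') := by
  apply Matrix.GeneralLinearGroup.ext
  intro i j
  fin_cases i <;> fin_cases j <;> simp [mk, Matrix.mul_apply, Fin.sum_univ_two]

@[simp] lemma mk00 {a b c d : ℂ} {h : a * d - b * c ≠ 0} : (mk a b c d h 0 0 : ℂ) = a := rfl
@[simp] lemma mk01 {a b c d : ℂ} {h : a * d - b * c ≠ 0} : (mk a b c d h 0 1 : ℂ) = b := rfl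
@[simp] lemma mk10 {a b c d : ℂ} {h : a * d - b * c ≠ 0} : (mk a b c d h 1 0 : ℂ) = c := rfl
@[simp] lemma mk11 {a b c d : ℂ} {h : a * d - b * c ≠ 0} : (mk a b c d h 1 1 : ℂ) = d := rfl

lemma ia_eq : ia = mk 0 (-I) I 0 (by simp) := by
  unfold ia gi gw
  rw [mk_mul]
  apply mk_ext <;> ring

lemma gT4 : gT ^ 4 = mk 1 4 0 1 (by simp) := by
  have h2 : gT ^ 2 = mk 1 2 0 1 (by simp) := by
    rw [pow_two]; unfold gT; rw [mk_mul]; apply mk_ext <;> norm_num
  have : gT ^ 4 = gT ^ 2 * gT ^ 2 := by rw [← pow_add]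
  rw [this, h2, mk_mul]; apply mk_ext <;> norm_num

lemma ib_conj : ib = gT ^ 4 * ia * (gT ^ 4)⁻¹ := by
  rw [eq_mul_inv_iff_mul_eq, gT4, ia_eq, mk_mul]
  unfold ib
  rw [mk_mul]
  apply mk_ext <;> ring

lemma gT_G0 : gT ∈ G0 := Subgroup.subset_closure (Or.inl rfl)
lemma gw_G0 : gw ∈ G0 := Subgroup.subset_closure (Or.inr (Or.inl rfl))
lemma gi_G0 : gi ∈ G0 := Subgroup.subset_closure (Or.inr (Or.inr (Or.inr rfl)))

lemma ia_G0 : ia ∈ G0 := G0.mul_mem gi_G0 gw_G0
lemma ib_G0 : ib ∈ G0 := by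
  rw [ib_conj]
  have := G0.pow_mem gT_G0 4
  exact G0.mul_mem (G0.mul_mem this ia_G0) (G0.inv_mem this)

lemma ia_cand : Cand ia := by
  refine ⟨ia_G0, ?_, ?_, ?_⟩
  · rw [ia_eq]; simp
  · rw [ia_eq]; unfold dt; simp
  · rw [ia_eq]; simp

lemma ib_cand : Cand ib := by
  refine ⟨ib_G0, ?_, ?_, ?_⟩
  · unfold ib; simp
  · unfold ib dt; simp only [mk00, mk01, mk10, mk11]; linear_combination I_sq
  · unfold ib; simp

lemma DDa (z : ℂ) : (z : OnePoint ℂ) ∈ DD ia ↔ ‖z‖ ≤ 1 := by
  rw [coe_DD, ia_eq]; simp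

lemma DIa (z : ℂ) : (z : OnePoint ℂ) ∈ DI ia ↔ ‖z‖ < 1 := by
  rw [coe_DI, ia_eq]; simp

lemma ib_norm (z : ℂ) : ‖(ib 1 0 : ℂ) * z - ib 0 0‖ = ‖z - 4‖ := by
  have : (ib 1 0 : ℂ) * z - ib 0 0 = I * (z - 4) := by unfold ib; simp; ring
  rw [this, norm_mul, norm_I, one_mul]

lemma DDb (z : ℂ) : (z : OnePoint ℂ) ∈ DD ib ↔ ‖z - 4‖ ≤ 1 := by
  rw [coe_DD, ib_norm]

lemma DIb (z : ℂ) : (z : OnePoint ℂ) ∈ DI ib ↔ ‖z - 4‖ < 1 := by
  rw [coe_DI, ib_norm]

lemma ab_disj : Disjoint (DD ia) (DD ib) := by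
  rw [Set.disjoint_left]
  rintro p ⟨z, hz, rfl⟩ h2
  rw [DDb] at h2
  have h1 := (DDa z).1 ⟨z, hz, rfl⟩
  have : ‖(4 : ℂ)‖ ≤ ‖z‖ + ‖z - 4‖ := by
    have e : (4 : ℂ) = z - (z - 4) := by ring
    nth_rewrite 1 [e]
    exact norm_sub_le _ _
  norm_num at this
  linarith

lemma ia_ne_ib : ia ≠ ib := by
  intro h
  have h1 : ((0 : ℂ) : OnePoint ℂ) ∈ DD ia := (DDa 0).2 (by simp)
  have h2 := ab_disj
  rw [← h] at h2
  exact Set.disjoint_left.1 h2 h1 h1

/-- the point of the sphere of a real number -/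
noncomputable def rp (x : ℝ) : Ch := ((x : ℂ) : OnePoint ℂ)

lemma al_DDa : rp al ∈ DD ia := by
  unfold rp
  rw [DDa, Complex.norm_real, Real.norm_eq_abs, abs_le]
  have := s5_lb; have := s5_ub
  unfold al
  constructor <;> linarith

lemma be_DDb : rp be ∈ DD ib := by
  unfold rp
  rw [DDb]
  have : ((be : ℝ) : ℂ) - 4 = ((be - 4 : ℝ) : ℂ) := by push_cast; ring
  rw [this, Complex.norm_real, Real.norm_eq_abs, abs_le]
  have := s5_lb; have := s5_ub
  unfold be
  constructor <;> linarith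

lemma smul_coe_of (g : GLC) (z w : ℂ) (h1 : g 1 0 * z + g 1 1 ≠ 0)
    (h2 : g 0 0 * z + g 0 1 = w * (g 1 0 * z + g 1 1)) : g • (z : OnePoint ℂ) = (w : OnePoint ℂ) := by
  rw [smul_some_eq_ite, if_neg h1]
  congr 1
  rw [div_eq_iff h1, h2]

lemma ia_be : ia • rp be = rp al := by
  unfold rp
  have h1 : (be : ℂ) ≠ 0 := by
    have : be ≠ 0 := by unfold be; have := s5_pos; positivity
    exact_mod_cast this
  have h2 : I * (be : ℂ) + 0 ≠ 0 := by rw [add_zero]; exact mul_ne_zero I_ne_zero h1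
  have h3 : (al * be : ℝ) = -1 := by unfold al be; linear_combination -s5_sq
  have h4 : (al : ℂ) * be = -1 := by exact_mod_cast h3
  rw [ia_eq]
  apply smul_coe_of
  · simp only [mk00, mk01, mk10, mk11]; exact h2
  · simp only [mk00, mk01, mk10, mk11]; linear_combination -I * h4

lemma ia_al : ia • rp al = rp be := by
  rw [← ia_be, ← mul_smul, cand_sq ia ia_cand, one_smul]

lemma ib_al : ib • rp al = rp be := by
  unfold rp
  have h3 : ((al - 4) * (be - 4) : ℝ) = -1 := by unfold al be; linear_combination -s5_sq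
  have h4 : ((al : ℂ) - 4) * (be - 4) = -1 := by exact_mod_cast h3
  have h2 : I * (al : ℂ) + -4 * I ≠ 0 := by
    have : I * (al : ℂ) + -4 * I = I * (al - 4) := by ring
    rw [this]
    apply mul_ne_zero I_ne_zero
    intro h0
    rw [h0, zero_mul] at h4
    norm_num at h4
  unfold ib
  apply smul_coe_of
  · simp only [mk00, mk01, mk10, mk11]; exact h2
  · simp only [mk00, mk01, mk10, mk11]; linear_combination -I * h4

lemma ib_be : ib • rp be = rp al := by
  rw [← ib_al, ← mul_smul, cand_sq ib ib_cand, one_smul]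

lemma ab_be : (ia * ib) • rp be = rp be := by rw [mul_smul, ib_be, ia_al]
lemma ab_al : (ia * ib) • rp al = rp al := by rw [mul_smul, ib_al, ia_be]

lemma hs_det (s : ℝ) : ((be * (1 + I) : ℂ)) * (1 - s) - (al - be * s) * (1 + I) ≠ 0 := by
  have e : ((be * (1 + I) : ℂ)) * (1 - s) - (al - be * s) * (1 + I) = (2 * s5 : ℝ) * (1 + I) := by
    unfold al be; push_cast; ring
  rw [e]
  apply mul_ne_zero
  · have := s5_pos
    exact_mod_cast (by positivity : (2 * s5 : ℝ) ≠ 0)
  · intro h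
    have := congrArg Complex.re h
    simp at this

/-- the matrices whose circles form the spiral -/
noncomputable def hs (s : ℝ) : GLC := mk (be * (1 + I)) (al - be * s) (1 + I) (1 - s) (hs_det s)

noncomputable def Cs (s : ℝ) : Set Ch := act (hs s) Rhat

lemma Cs_eq (s : ℝ) : Cs s = cirV ⟨1 - s, 2 - be * s, -s5, -1 - s * be ^ 2⟩ := by
  unfold Cs
  rw [Rhat_eq, act_cirV, ← cirV_smul ⟨1 - s, 2 - be * s, -s5, -1 - s * be ^ 2⟩ 2 (by norm_num)]
  congr 1
  have hab : be - al = 2 * s5 := by unfold al be; ring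
  have hab2 : al * be = -1 := by unfold al be; linear_combination -s5_sq
  have hab3 : be + al = 4 := by unfold al be; ring
  ext
  · simp [vact, v0, hs]
  · simp [vact, vom, v0, hs]
    linear_combination hab3
  · simp [vact, vom, v0, hs]
    linear_combination -hab
  · simp [vact, v0, hs]
    linear_combination hab2

lemma mem_Cs (s : ℝ) (z : ℂ) : (z : OnePoint ℂ) ∈ Cs s ↔ (1 - s) * normSq z -
    2 * ((2 - be * s) * z.re + -s5 * z.im) + (-1 - s * be ^ 2) = 0 := by
  rw [Cs_eq, coe_mem_cirV]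

lemma be_mem (s : ℝ) : rp be ∈ Cs s := by
  unfold rp
  rw [mem_Cs]
  simp only [normSq_ofReal, ofReal_re, ofReal_im]
  have : be ^ 2 = 4 * be + 1 := by unfold be; linear_combination s5_sq
  linear_combination this

lemma al_mem (s : ℝ) : rp al ∈ Cs s ↔ s = 0 := by
  unfold rp
  rw [mem_Cs]
  simp only [normSq_ofReal, ofReal_re, ofReal_im]
  have h1 : (1 - s) * (al * al) - 2 * ((2 - be * s) * al + -s5 * 0) + (-1 - s * be ^ 2) =
    - (20 * s) := by unfold al be; ring_nf; linear_combination (1 - 4 * s) * s5_sq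
  rw [h1]
  constructor
  · intro h; linarith
  · intro h; rw [h]; ring

noncomputable def lam : ℝ := 9 - 4 * s5
noncomputable def lam' : ℝ := 9 + 4 * s5
lemma lam_mul : lam * lam' = 1 := by unfold lam lam'; linear_combination -16 * s5_sq
noncomputable def mu : ℝ := lam ^ 2

lemma lam_pos : 0 < lam := by unfold lam; have := s5_ub; linarith
lemma lam_lt : lam < 1 := by unfold lam; have := s5_lb; linarith
lemma mu_pos : 0 < mu := by unfold mu; have := lam_pos; positivity
lemma mu_lt : mu < 1 := by unfold mu; have := lam_pos; have := lam_lt; nlinarith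

lemma dg_det : (lam : ℂ) * (lam' : ℂ) - 0 * 0 ≠ 0 := by
  have : (lam : ℂ) * lam' = 1 := by exact_mod_cast lam_mul
  rw [this]; norm_num

noncomputable def dg : GLC := mk lam 0 0 lam' dg_det

lemma dg_R : act dg Rhat = Rhat := by
  have h : (lam : ℂ) * lam' = 1 := by exact_mod_cast lam_mul
  rw [Rhat_eq, act_cirV]
  congr 1
  have := lam_mul
  ext <;> simp [vact, vom, v0, dg]
  linarith

lemma ab_eq : ia * ib = mk 1 (-4) (-4) 17 (by norm_num) := by
  rw [ia_eq]; unfold ib; rw [mk_mul]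
  apply mk_ext
  · ring_nf; rw [I_sq]; ring
  · ring_nf; rw [I_sq]; ring
  · ring_nf; rw [I_sq]; ring
  · ring_nf; rw [I_sq]; ring

lemma ab_hs (s : ℝ) : ia * ib * hs s = hs (mu * s) * dg := by
  have q : (s5 : ℂ) ^ 2 = 5 := by exact_mod_cast s5_sq
  have h1 : (be : ℂ) * lam = be - 4 := by
    have : be * lam = be - 4 := by unfold be lam; linear_combination -4 * s5_sq
    exact_mod_cast this
  have h2 : (al : ℂ) * lam' = al - 4 := by
    have : al * lam' = al - 4 := by unfold al lam'; linear_combination -4 * s5_sq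
    exact_mod_cast this
  have h3 : (lam : ℂ) = 17 - 4 * be := by
    have : lam = 17 - 4 * be := by unfold lam be; ring
    rw [this]; push_cast; ring
  have h4 : (lam' : ℂ) = 17 - 4 * al := by
    have : lam' = 17 - 4 * al := by unfold lam' al; ring
    rw [this]; push_cast; ring
  have h5 : (mu : ℂ) * lam' = lam := by
    have : mu * lam' = lam := by unfold mu; linear_combination lam * lam_mul
    exact_mod_cast this
  rw [ab_eq]
  unfold hs dg
  rw [mk_mul, mk_mul]
  apply mk_ext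
  · linear_combination -(1 + I) * h1
  · push_cast
    linear_combination -h2 + (be : ℂ) * s * h5 + (s : ℂ) * h1
  · linear_combination -(1 + I) * h3
  · push_cast
    linear_combination -h4 + (s : ℂ) * h5 + (s : ℂ) * h3

lemma act_ab (s : ℝ) : act (ia * ib) (Cs s) = Cs (mu * s) := by
  unfold Cs
  rw [← act_mul, ab_hs, act_mul, dg_R]

lemma act_ab_pow (k : ℕ) : act ((ia * ib) ^ k) (Cs 1) = Cs (mu ^ k) := by
  induction k with
  | zero => rw [pow_zero, pow_zero, act_one]
  | succ k ih => rw [pow_succ', act_mul, ih, act_ab, pow_succ']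

lemma X0_rat (z : ℂ) (h : (z : OnePoint ℂ) ∈ X0) : ∃ p q : ℚ, z.re = p ∧ z.im = q := by
  obtain ⟨g, hg, hz⟩ := h
  rw [smul_infty_eq_ite] at hz
  by_cases hc : (g 1 0 : ℂ) = 0
  · rw [if_pos hc] at hz; exact absurd hz (coe_ne_infty _)
  · rw [if_neg hc] at hz
    have hz' : z = g 0 0 / g 1 0 := coe_injective hz
    have hi := (G0_int g hg).1
    obtain ⟨a1, a2, ha⟩ := (mem_GI _).1 (hi 0 0)
    obtain ⟨c1, c2, hc'⟩ := (mem_GI _).1 (hi 1 0)
    rw [ha, hc'] at hz'
    refine ⟨(a1 * c1 + a2 * c2) / (c1 ^ 2 + c2 ^ 2), (a2 * c1 - a1 * c2) / (c1 ^ 2 + c2 ^ 2), ?_, ?_⟩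
    · rw [hz', Complex.div_re]
      simp [normSq_apply]
      ring
    · rw [hz', Complex.div_im]
      simp [normSq_apply]
      ring

lemma two_pts (S : Set Ch) (hS : S ∈ PP) : ∃ z : ℂ, (z : OnePoint ℂ) ∈ S ∧ ∃ p q : ℚ, z.re = p ∧ z.im = q := by
  have hinf : (S ∩ {(∞ : OnePoint ℂ)}ᶜ).Nonempty := by
    obtain ⟨g, _, rfl⟩ := PP_orbit S hS
    by_contra hcon
    rw [Set.not_nonempty_iff_eq_empty] at hcon
    apply inf_circ g
    apply (Set.finite_singleton (∞ : OnePoint ℂ)).subset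
    intro p hp
    by_contra hp2
    have : p ∈ act g Rhat ∩ {(∞ : OnePoint ℂ)}ᶜ := ⟨hp, hp2⟩
    rw [hcon] at this
    exact this
  obtain ⟨y, hy, hyS, _, hyi⟩ := para_dense S hS Set.univ {(∞ : OnePoint ℂ)} isOpen_univ
    (by rw [Set.univ_inter]; exact hinf.mono Set.inter_subset_left) isClosed_singleton
    ((Set.countable_singleton _).mono Set.inter_subset_left)
  induction y using OnePoint.rec with
  | infty => exact absurd rfl hyi
  | coe z => exact ⟨z, hyS, X0_rat z hy⟩

lemma C_not (S : Set Ch) (hS : S ∈ PP) : Cs 1 ≠ S := by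
  intro h
  obtain ⟨z, hz, p, q, hp, hq⟩ := two_pts S hS
  rw [← h, mem_Cs, hp, hq] at hz
  have h1 : s5 * (p + q) = 5 + 2 * s5 := by
    have hb : be ^ 2 = 9 + 4 * s5 := by unfold be; linear_combination s5_sq
    rw [hb] at hz
    unfold be at hz
    linear_combination (1 / 2) * hz
  have h2 : (p : ℝ) + q = s5 + 2 := by
    have : s5 * ((p : ℝ) + q - s5 - 2) = 0 := by linear_combination h1 - s5_sq
    have := (mul_eq_zero.1 this).resolve_left s5_pos.ne'
    linarith
  have h3 := s5_irr (2 - p - q) 1 (by push_cast; linarith)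
  norm_num at h3

lemma C0_not (S : Set Ch) (hS : S ∈ PP) : Cs 0 ≠ S := by
  intro h
  obtain ⟨z, hz, p, q, hp, hq⟩ := two_pts S hS
  rw [← h, mem_Cs] at hz
  rw [normSq_apply, hp, hq] at hz
  have h1 : (((p * p + q * q - 4 * p - 1 : ℚ)) : ℝ) + ((2 * q : ℚ) : ℝ) * s5 = 0 := by
    push_cast; linear_combination hz
  have h2 := s5_irr _ _ h1
  have hq0 : q = 0 := by linarith
  rw [hq0] at h1
  have h3 : ((p : ℝ) - 2) ^ 2 = s5 ^ 2 := by
    rw [s5_sq]
    push_cast at h1
    linear_combination h1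
  have h4 : ((p : ℝ) - 2 - s5) * (p - 2 + s5) = 0 := by linear_combination h3
  rcases mul_eq_zero.1 h4 with h5 | h5
  · have := s5_irr (p - 2) (-1) (by push_cast; linarith)
    norm_num at this
  · have := s5_irr (p - 2) 1 (by push_cast; linarith)
    norm_num at this

lemma Cmu_not (k : ℕ) (S : Set Ch) (hS : S ∈ PP) : Cs (mu ^ k) ≠ S := by
  intro h
  have hg : (ia * ib) ^ k ∈ G0 := G0.pow_mem (G0.mul_mem ia_G0 ib_G0) k
  rw [← act_ab_pow] at h
  have h2 : act ((ia * ib) ^ k)⁻¹ S ∈ PP := G0_PP _ (G0.inv_mem hg) S hS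
  rw [← h, act_inv_act] at h2
  exact C_not _ h2 rfl

/-- parameters of the spiral -/
def EE : Set ℝ := insert 0 (Set.range fun k : ℕ => mu ^ k)

lemma EE_compact : IsCompact EE :=
  (tendsto_pow_atTop_nhds_zero_of_lt_one mu_pos.le mu_lt).isCompact_insert_range

lemma EE_countable : EE.Countable := (Set.countable_range _).insert _

lemma Cs_EE (s : ℝ) (hs : s ∈ EE) (S : Set Ch) (hS : S ∈ PP) : Cs s ≠ S := by
  rcases hs with rfl | ⟨k, rfl⟩
  · exact C0_not S hS
  · exact Cmu_not k S hS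

def K1 : Set Ch := {p | ∃ s ∈ EE, p ∈ Cs s}

lemma mk_cont (a b c d : ℝ → ℂ) (ha : Continuous a) (hb : Continuous b) (hc : Continuous c)
    (hd : Continuous d) (h : ∀ s, a s * d s - b s * c s ≠ 0) :
    Continuous fun s => mk (a s) (b s) (c s) (d s) (h s) := by
  rw [Units.continuous_iff]
  constructor
  · apply continuous_matrix
    intro i j
    fin_cases i <;> fin_cases j
    · exact ha
    · exact hb
    · exact hc
    · exact hd
  · have : (fun s => ((mk (a s) (b s) (c s) (d s) (h s))⁻¹ : GLC).val) = fun s =>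
        (a s * d s - b s * c s)⁻¹ • !![d s, -(b s); -(c s), a s] := by
      funext s
      have e1 : ((mk (a s) (b s) (c s) (d s) (h s))⁻¹ : GLC).val =
        ((mk (a s) (b s) (c s) (d s) (h s)).val)⁻¹ := by
        rw [Matrix.coe_units_inv]
      rw [e1]
      have e2 : (mk (a s) (b s) (c s) (d s) (h s)).val = !![a s, b s; c s, d s] := rfl
      rw [e2, Matrix.inv_def, Matrix.adjugate_fin_two_of, Matrix.det_fin_two_of,
        Ring.inverse_eq_inv']
    show Continuous (fun s => ((mk (a s) (b s) (c s) (d s) (h s))⁻¹ : GLC).val)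
    rw [this]
    have hdet : Continuous fun s => (a s * d s - b s * c s)⁻¹ :=
      ((ha.mul hd).sub (hb.mul hc)).inv₀ h
    apply hdet.smul
    apply continuous_matrix
    intro i j
    fin_cases i <;> fin_cases j
    · exact hd
    · exact hb.neg
    · exact hc.neg
    · exact ha

lemma hs_cont : Continuous hs := by
  exact mk_cont (fun _ => be * (1 + I)) (fun s => al - be * s) (fun _ => 1 + I) (fun s => 1 - s)
    continuous_const (continuous_const.sub (continuous_const.mul Complex.continuous_ofReal))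
    continuous_const (continuous_const.sub Complex.continuous_ofReal) hs_det

lemma K1_closed : IsClosed K1 := by
  have : K1 = (fun x : ℝ × Ch => hs x.1 • x.2) '' (EE ×ˢ Rhat) := by
    ext p
    constructor
    · rintro ⟨s, hs', q, hq, rfl⟩
      exact ⟨(s, q), ⟨hs', hq⟩, rfl⟩
    · rintro ⟨⟨s, q⟩, ⟨h1, h2⟩, rfl⟩
      exact ⟨s, h1, q, h2, rfl⟩
  rw [this]
  apply IsCompact.isClosed
  apply IsCompact.image (EE_compact.prod Rhat_closed.isCompact)
  have h1 : Continuous fun x : ℝ × Ch => hs x.1 := hs_cont.comp continuous_fst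
  have h2 : Continuous fun x : ℝ × Ch => x.2 := continuous_snd
  exact h1.smul h2

def K0 : Set Ch := K1 ∪ act ib K1

lemma K0_closed : IsClosed K0 := K1_closed.union (act_isClosed.2 K1_closed)

lemma K1_count (S : Set Ch) (hS : S ∈ PP) : (K1 ∩ S).Countable := by
  have : K1 ∩ S = ⋃ s ∈ EE, (Cs s ∩ S) := by
    ext p
    simp only [K1, Set.mem_inter_iff, Set.mem_ofPred_eq, Set.mem_iUnion, exists_prop]
    constructor
    · rintro ⟨⟨s, h1, h2⟩, h3⟩; exact ⟨s, h1, h2, h3⟩
    · rintro ⟨s, h1, h2, h3⟩; exact ⟨⟨s, h1, h2⟩, h3⟩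
  rw [this]
  apply EE_countable.biUnion
  intro s hs'
  apply Set.Finite.countable
  by_contra hinf
  obtain ⟨g, _, rfl⟩ := PP_orbit S hS
  exact Cs_EE s hs' _ hS (eq_of_inf' _ _ hinf)

lemma K0_count (S : Set Ch) (hS : S ∈ PP) : (K0 ∩ S).Countable := by
  unfold K0
  rw [Set.union_inter_distrib_right]
  apply (K1_count S hS).union
  have : act ib K1 ∩ S = act ib (K1 ∩ act ib⁻¹ S) := by
    rw [act_inter, act_act_inv]
  rw [this]
  exact (K1_count _ (G0_PP _ (G0.inv_mem ib_G0) S hS)).image _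

lemma C_disj : Disjoint (Cs 1) (DD ia) := by
  rw [Set.disjoint_left]
  rintro p hp ⟨z, hz, rfl⟩
  have h1 := (DDa z).1 ⟨z, hz, rfl⟩
  rw [mem_Cs] at hp
  have h2 : z.re + z.im = be := by
    have hb : be ^ 2 = 9 + 4 * s5 := by unfold be; linear_combination s5_sq
    rw [hb] at hp
    have : s5 * (z.re + z.im - be) = 0 := by
      unfold be at hp ⊢; linear_combination (1 / 2) * hp - s5_sq
    have := (mul_eq_zero.1 this).resolve_left s5_pos.ne'
    linarith
  have h3 : normSq z ≤ 1 := by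
    rw [normSq_eq_norm_sq]; nlinarith [norm_nonneg z]
  rw [normSq_apply] at h3
  have h4 : 4 < be := by unfold be; have := s5_lb; linarith
  nlinarith [sq_nonneg (z.re - z.im)]

end Pool.Agent.Lib.MP_cc6c48_an
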