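import Pool.Agent.Lib.MP_cc6c48_an.LimSub

/-! Involutions with disks, and reduced words. -/

set_option autoImplicit false

open OnePoint Topology Filter Complex ComplexConjugate Matrix

namespace Pool.Agent.Lib.MP_cc6c48_an

/-- candidates -/
def Cand (M : GLC) : Prop := M ∈ G0 ∧ (M 1 1 : ℂ) = -(M 0 0) ∧ dt M = -1 ∧ (M 1 0 : ℂ) ≠ 0

/-- the closed disk of an involution -/
def DD (M : GLC) : Set Ch := (↑) '' {z : ℂ | ‖M 1 0 * z - M 0 0‖ ≤ 1}

/-- the open disk of an involution -/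
def DI (M : GLC) : Set Ch := (↑) '' {z : ℂ | ‖M 1 0 * z - M 0 0‖ < 1}

lemma coe_DD (M : GLC) (z : ℂ) : (z : OnePoint ℂ) ∈ DD M ↔ ‖M 1 0 * z - M 0 0‖ ≤ 1 :=
  coe_injective.mem_set_image

lemma coe_DI (M : GLC) (z : ℂ) : (z : OnePoint ℂ) ∈ DI M ↔ ‖M 1 0 * z - M 0 0‖ < 1 :=
  coe_injective.mem_set_image

lemma infty_DD (M : GLC) : (∞ : OnePoint ℂ) ∉ DD M := by
  rintro ⟨z, _, h⟩; exact coe_ne_infty _ h

lemma infty_DI (M : GLC) : (∞ : OnePoint ℂ) ∉ DI M := by
  rintro ⟨z, _, h⟩; exact coe_ne_infty _ h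

lemma DI_sub (M : GLC) : DI M ⊆ DD M := by
  rintro _ ⟨z, hz, rfl⟩
  have hz' : ‖M 1 0 * z - M 0 0‖ < 1 := hz
  exact ⟨z, hz'.le, rfl⟩

lemma pr_DD (M : GLC) (hM : Cand M) (u v : ℂ) (h : u ≠ 0 ∨ v ≠ 0) :
    pr u v ∈ DD M ↔ ‖M 1 0 * u - M 0 0 * v‖ ≤ ‖v‖ := by
  by_cases hv : v = 0
  · subst hv
    have hu : u ≠ 0 := by simpa using h
    rw [pr_zero]
    simp only [infty_DD, mul_zero, sub_zero, norm_zero, false_iff, not_le]
    exact norm_pos_iff.2 (mul_ne_zero hM.2.2.2 hu)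
  · have h1 : pr u v = ((u / v : ℂ) : OnePoint ℂ) := by simp [pr, hv]
    rw [h1, coe_DD]
    have : M 1 0 * (u / v) - M 0 0 = (M 1 0 * u - M 0 0 * v) / v := by field_simp
    rw [this, norm_div, div_le_one (norm_pos_iff.2 hv)]

lemma pr_DI (M : GLC) (u v : ℂ) (h : u ≠ 0 ∨ v ≠ 0) :
    pr u v ∈ DI M ↔ ‖M 1 0 * u - M 0 0 * v‖ < ‖v‖ := by
  by_cases hv : v = 0
  · subst hv
    rw [pr_zero]
    simp only [infty_DI, mul_zero, sub_zero, norm_zero, false_iff, not_lt]
    exact norm_nonneg _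
  · have h1 : pr u v = ((u / v : ℂ) : OnePoint ℂ) := by simp [pr, hv]
    rw [h1, coe_DI]
    have : M 1 0 * (u / v) - M 0 0 = (M 1 0 * u - M 0 0 * v) / v := by field_simp
    rw [this, norm_div, div_lt_one (norm_pos_iff.2 hv)]

lemma smul_ne (g : GLC) (u v : ℂ) (h : u ≠ 0 ∨ v ≠ 0) :
    g 0 0 * u + g 0 1 * v ≠ 0 ∨ g 1 0 * u + g 1 1 * v ≠ 0 := by
  by_contra hcon
  push Not at hcon
  obtain ⟨h3, h4⟩ := hcon
  have hd := det_ne g
  have e1 : (g 0 0 * g 1 1 - g 0 1 * g 1 0) * u = 0 := by linear_combination g 1 1 * h3 - g 0 1 * h4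
  have e2 : (g 0 0 * g 1 1 - g 0 1 * g 1 0) * v = 0 := by linear_combination g 0 0 * h4 - g 1 0 * h3
  have hu : u = 0 := (mul_eq_zero.1 e1).resolve_left hd
  have hv : v = 0 := (mul_eq_zero.1 e2).resolve_left hd
  rcases h with h | h <;> contradiction

lemma cand_id (M : GLC) (hM : Cand M) : (M 0 0 : ℂ) ^ 2 + M 0 1 * M 1 0 = 1 := by
  have := hM.2.2.1
  unfold dt at this
  rw [hM.2.1] at this
  linear_combination -this

lemma smul_DI (M : GLC) (hM : Cand M) (p : Ch) : M • p ∈ DI M ↔ p ∉ DD M := by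
  obtain ⟨u, v, h, rfl⟩ := exists_pr p
  rw [smul_pr M u v h, pr_DI M _ _ (smul_ne M u v h), pr_DD M hM u v h, not_le]
  have e1 : (M 1 0 : ℂ) * (M 0 0 * u + M 0 1 * v) - M 0 0 * (M 1 0 * u + M 1 1 * v) = v := by
    rw [hM.2.1]; linear_combination v * cand_id M hM
  have e2 : (M 1 0 : ℂ) * u + M 1 1 * v = M 1 0 * u - M 0 0 * v := by rw [hM.2.1]; ring
  rw [e1, e2]

lemma smul_DD (M : GLC) (hM : Cand M) (p : Ch) : M • p ∈ DD M ↔ p ∉ DI M := by
  obtain ⟨u, v, h, rfl⟩ := exists_pr p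
  rw [smul_pr M u v h, pr_DD M hM _ _ (smul_ne M u v h), pr_DI M u v h, not_lt]
  have e1 : (M 1 0 : ℂ) * (M 0 0 * u + M 0 1 * v) - M 0 0 * (M 1 0 * u + M 1 1 * v) = v := by
    rw [hM.2.1]; linear_combination v * cand_id M hM
  have e2 : (M 1 0 : ℂ) * u + M 1 1 * v = M 1 0 * u - M 0 0 * v := by rw [hM.2.1]; ring
  rw [e1, e2]

lemma cand_sq (M : GLC) (hM : Cand M) : M * M = 1 := by
  have h := cand_id M hM
  have h2 := hM.2.1
  apply Matrix.GeneralLinearGroup.ext
  intro i j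
  fin_cases i <;> fin_cases j
  · show ((M * M : GLC) 0 0 : ℂ) = (1 : GLC) 0 0
    simp only [Matrix.GeneralLinearGroup.coe_mul, Matrix.mul_apply, Fin.sum_univ_two]
    simp
    linear_combination h
  · show ((M * M : GLC) 0 1 : ℂ) = (1 : GLC) 0 1
    simp only [Matrix.GeneralLinearGroup.coe_mul, Matrix.mul_apply, Fin.sum_univ_two, h2]
    simp
    ring
  · show ((M * M : GLC) 1 0 : ℂ) = (1 : GLC) 1 0
    simp only [Matrix.GeneralLinearGroup.coe_mul, Matrix.mul_apply, Fin.sum_univ_two, h2]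
    simp
    ring
  · show ((M * M : GLC) 1 1 : ℂ) = (1 : GLC) 1 1
    simp only [Matrix.GeneralLinearGroup.coe_mul, Matrix.mul_apply, Fin.sum_univ_two, h2]
    simp
    linear_combination h

lemma cand_inv (M : GLC) (hM : Cand M) : M⁻¹ = M := inv_eq_of_mul_eq_one_left (cand_sq M hM)

lemma act_act_cand (M : GLC) (hM : Cand M) (S : Set Ch) : act M (act M S) = S := by
  rw [← act_mul, cand_sq M hM, act_one]

lemma DD_closed (M : GLC) (hM : Cand M) : IsClosed (DD M) := by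
  unfold DD
  rw [isClosed_image_coe]
  have hc : IsClosed {z : ℂ | ‖M 1 0 * z - M 0 0‖ ≤ 1} :=
    isClosed_le ((continuous_const.mul continuous_id).sub continuous_const).norm continuous_const
  refine ⟨hc, ?_⟩
  apply Metric.isCompact_of_isClosed_isBounded hc
  rw [isBounded_iff_forall_norm_le]
  refine ⟨1 + ‖(M 0 0 : ℂ)‖, ?_⟩
  intro z hz
  have h1 := GI_one_le _ ((G0_int M hM.1).1 1 0) hM.2.2.2
  have h2 : ‖M 1 0 * z‖ ≤ 1 + ‖(M 0 0 : ℂ)‖ := by
    have : M 1 0 * z = (M 1 0 * z - M 0 0) + M 0 0 := by ring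
    rw [this]
    exact (norm_add_le _ _).trans (add_le_add hz le_rfl)
  rw [norm_mul] at h2
  nlinarith [norm_nonneg z]

lemma DI_open (M : GLC) : IsOpen (DI M) := by
  unfold DI
  rw [isOpen_image_coe]
  exact isOpen_lt ((continuous_const.mul continuous_id).sub continuous_const).norm continuous_const

lemma act_disj (M : GLC) (hM : Cand M) (X : Set Ch) (h : Disjoint X (DD M)) : act M X ⊆ DD M := by
  rintro _ ⟨p, hp, rfl⟩
  exact DI_sub M ((smul_DI M hM p).2 (Set.disjoint_left.1 h hp))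

/-- the boundary of a disk is a circle -/
lemma DD_bd (M : GLC) (hM : Cand M) : ∃ v : Vec, 0 < v.q ∧ cirV v = DD M \ DI M := by
  refine ⟨⟨normSq (M 1 0), (M 1 0 * conj (M 0 0 : ℂ)).re, -(M 1 0 * conj (M 0 0 : ℂ)).im,
    normSq (M 0 0) - 1⟩, ?_, ?_⟩
  · have h := normSq_pos.2 hM.2.2.2
    have e : (Vec.mk (normSq (M 1 0)) (M 1 0 * conj (M 0 0 : ℂ)).re (-(M 1 0 * conj (M 0 0 : ℂ)).im)
      (normSq (M 0 0) - 1)).q = normSq (M 1 0) := by
      unfold Vec.q
      simp only [normSq_apply, mul_re, mul_im, conj_re, conj_im]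
      ring
    rw [e]; exact h
  · ext p
    induction p using OnePoint.rec with
    | infty =>
      rw [infty_mem_cirV]
      simp only [Set.mem_sdiff, infty_DD, false_and, iff_false]
      exact (normSq_pos.2 hM.2.2.2).ne'
    | coe z =>
      rw [coe_mem_cirV, Set.mem_sdiff, coe_DD, coe_DI]
      have e : ‖M 1 0 * z - M 0 0‖ ^ 2 = normSq (M 1 0) * normSq z - 2 * ((M 1 0 * conj (M 0 0 : ℂ)).re *
        z.re + -(M 1 0 * conj (M 0 0 : ℂ)).im * z.im) + normSq (M 0 0) := by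
        rw [← normSq_eq_norm_sq]
        simp only [normSq_apply, mul_re, mul_im, sub_re, sub_im, conj_re, conj_im]
        ring
      have hn := norm_nonneg (M 1 0 * z - M 0 0)
      simp only
      constructor
      · intro h
        have h1 : ‖M 1 0 * z - M 0 0‖ ^ 2 = 1 := by rw [e]; linarith
        have h2 : ‖M 1 0 * z - M 0 0‖ = 1 := by nlinarith
        rw [h2]; norm_num
      · rintro ⟨h1, h2⟩
        have h3 : ‖M 1 0 * z - M 0 0‖ = 1 := le_antisymm h1 (not_lt.1 h2)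
        rw [h3] at e
        linarith

/-- reduced words applied to a set -/
inductive Red (J : Set GLC) (C : Set Ch) : Option GLC → Set Ch → Prop
  | base : Red J C none C
  | step (o : Option GLC) (X : Set Ch) (M : GLC) : M ∈ J → o ≠ Option.some M → Red J C o X →
      Red J C (Option.some M) (act M X)

lemma red_all (J : Set GLC) (hJ : ∀ M ∈ J, Cand M) (C : Set Ch) (g : GLC)
    (hg : g ∈ Subgroup.closure J) : ∃ o, Red J C o (act g C) := by
  have key : ∀ M ∈ J, ∀ o X, Red J C o X → ∃ o', Red J C o' (act M X) := by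
    intro M hM o X h
    by_cases ho : o = Option.some M
    · cases h with
      | base => exact absurd ho (by simp)
      | step o' X' M' hM' ho' h' =>
        have : M' = M := Option.some_injective _ ho
        subst this
        rw [act_act_cand _ (hJ _ hM)]
        exact ⟨o', h'⟩
    · exact ⟨Option.some M, Red.step o X M hM ho h⟩
  induction hg using Subgroup.closure_induction_left with
  | one => rw [act_one]; exact ⟨none, Red.base⟩
  | mul_left x hx y hy ih =>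
    obtain ⟨o, ho⟩ := ih
    rw [act_mul]
    exact key x hx o _ ho
  | inv_mul_cancel x hx y hy ih =>
    obtain ⟨o, ho⟩ := ih
    rw [cand_inv x (hJ x hx), act_mul]
    exact key x hx o _ ho

end Pool.Agent.Lib.MP_cc6c48_an
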