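import Pool.Agent.Lib.MP_cc6c48_an.Rational

/-! Gaussian integrality; the limit set is contained in the closure of the packing. -/

set_option autoImplicit false

open OnePoint Topology Filter Complex ComplexConjugate Matrix

namespace Pool.Agent.Lib.MP_cc6c48_an

/-- Gaussian integers -/
noncomputable def GI : Subring ℂ := GaussianInt.toComplex.range

lemma mem_GI (z : ℂ) : z ∈ GI ↔ ∃ m n : ℤ, z = (m : ℂ) + (n : ℂ) * I := by
  constructor
  · rintro ⟨w, rfl⟩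
    exact ⟨w.re, w.im, by rw [GaussianInt.toComplex_def]⟩
  · rintro ⟨m, n, rfl⟩
    exact ⟨⟨m, n⟩, by rw [GaussianInt.toComplex_def]⟩

lemma one_GI : (1 : ℂ) ∈ GI := GI.one_mem
lemma I_GI : I ∈ GI := (mem_GI _).2 ⟨0, 1, by simp⟩

lemma GI_normSq (z : ℂ) (hz : z ∈ GI) : ∃ n : ℕ, normSq z = n := by
  obtain ⟨m, n, rfl⟩ := (mem_GI _).1 hz
  refine ⟨(m ^ 2 + n ^ 2).toNat, ?_⟩
  have h : ((m ^ 2 + n ^ 2).toNat : ℤ) = m ^ 2 + n ^ 2 := Int.toNat_of_nonneg (by positivity)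
  have h2 : (((m ^ 2 + n ^ 2).toNat : ℕ) : ℝ) = (m : ℝ) ^ 2 + (n : ℝ) ^ 2 := by
    exact_mod_cast h
  rw [h2]
  simp [normSq_apply]
  ring

lemma GI_one_le (z : ℂ) (hz : z ∈ GI) (h0 : z ≠ 0) : 1 ≤ ‖z‖ := by
  obtain ⟨n, hn⟩ := GI_normSq z hz
  have hpos : 0 < normSq z := normSq_pos.2 h0
  rw [hn] at hpos
  have h1 : 1 ≤ n := by exact_mod_cast hpos
  have h2 : (1 : ℝ) ≤ normSq z := by rw [hn]; exact_mod_cast h1
  rw [normSq_eq_norm_sq] at h2
  nlinarith [norm_nonneg z]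

lemma GI_finite (R : ℝ) : {z : ℂ | z ∈ GI ∧ ‖z‖ ≤ R}.Finite := by
  have h : ((Set.Icc (-⌈R⌉) ⌈R⌉) ×ˢ (Set.Icc (-⌈R⌉) ⌈R⌉) : Set (ℤ × ℤ)).Finite :=
    (Set.finite_Icc _ _).prod (Set.finite_Icc _ _)
  apply (h.image (fun x => (x.1 : ℂ) + (x.2 : ℂ) * I)).subset
  rintro z ⟨hz, hR⟩
  obtain ⟨m, n, rfl⟩ := (mem_GI _).1 hz
  refine ⟨(m, n), ?_, rfl⟩
  have h1 := (abs_re_le_norm ((m : ℂ) + (n : ℂ) * I)).trans hR
  have h2 := (abs_im_le_norm ((m : ℂ) + (n : ℂ) * I)).trans hR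
  simp at h1 h2
  have e1 := (abs_le.1 h1)
  have e2 := (abs_le.1 h2)
  have hc := Int.le_ceil R
  refine ⟨⟨?_, ?_⟩, ⟨?_, ?_⟩⟩ <;> simp only
  · have : ((-⌈R⌉ : ℤ) : ℝ) ≤ m := by push_cast; linarith
    exact_mod_cast this
  · have : (m : ℝ) ≤ (⌈R⌉ : ℤ) := by linarith
    exact_mod_cast this
  · have : ((-⌈R⌉ : ℤ) : ℝ) ≤ n := by push_cast; linarith
    exact_mod_cast this
  · have : (n : ℝ) ≤ (⌈R⌉ : ℤ) := by linarith
    exact_mod_cast this

lemma mat_finite (R : ℝ) : {g : GLC | (∀ i j, (g i j : ℂ) ∈ GI) ∧ ∀ i j, ‖(g i j : ℂ)‖ ≤ R}.Finite := by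
  have hf : (Set.pi Set.univ (fun _ : Fin 2 => Set.pi Set.univ
    (fun _ : Fin 2 => {z : ℂ | z ∈ GI ∧ ‖z‖ ≤ R}))).Finite :=
    Set.Finite.pi' (fun _ => Set.Finite.pi' (fun _ => GI_finite R)) |>.subset (by
      intro x hx
      simp only [Set.mem_pi, Set.mem_univ, true_implies] at hx
      exact hx)
  apply Set.Finite.of_finite_image (f := fun g : GLC => (fun i j => (g i j : ℂ))) _ _
  · apply hf.subset
    rintro _ ⟨g, ⟨h1, h2⟩, rfl⟩
    simp only [Set.mem_pi, Set.mem_univ, true_implies]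
    exact fun i j => ⟨h1 i j, h2 i j⟩
  · intro a _ b _ h
    apply Matrix.GeneralLinearGroup.ext
    intro i j
    exact congrFun (congrFun h i) j

lemma G0_int (g : GLC) (hg : g ∈ G0) : (∀ i j, (g i j : ℂ) ∈ GI) ∧
    (∀ i j, ((g⁻¹ : GLC) i j : ℂ) ∈ GI) := by
  induction hg using Subgroup.closure_induction with
  | mem x hx =>
    have h1 := one_GI
    have h0 := GI.zero_mem
    have hI := I_GI
    have hm := GI.neg_mem h1
    have hmI := GI.neg_mem hI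
    rcases hx with rfl | rfl | rfl | rfl
    · refine ⟨?_, ?_⟩ <;> intro i j <;> fin_cases i <;> fin_cases j <;>
        simp [gT, mk, Matrix.inv_def, Matrix.adjugate_fin_two] <;> assumption
    · refine ⟨?_, ?_⟩ <;> intro i j <;> fin_cases i <;> fin_cases j <;>
        simp [gw, mk, Matrix.inv_def, Matrix.adjugate_fin_two] <;> assumption
    · refine ⟨?_, ?_⟩ <;> intro i j <;> fin_cases i <;> fin_cases j <;>
        simp [gr, mk, Matrix.inv_def, Matrix.adjugate_fin_two] <;> assumption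
    · refine ⟨?_, ?_⟩ <;> intro i j <;> fin_cases i <;> fin_cases j <;>
        simp [gi, mk, Matrix.inv_def, Matrix.adjugate_fin_two] <;> assumption
  | one =>
    have h1 := one_GI
    have h0 := GI.zero_mem
    refine ⟨?_, ?_⟩ <;> intro i j <;> fin_cases i <;> fin_cases j <;> simp <;> assumption
  | mul x y _ _ hx hy =>
    refine ⟨?_, ?_⟩
    · intro i j
      have : ((x * y : GLC) i j : ℂ) = x i 0 * y 0 j + x i 1 * y 1 j := by
        simp [Matrix.mul_apply, Fin.sum_univ_two]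
      rw [this]
      exact GI.add_mem (GI.mul_mem (hx.1 _ _) (hy.1 _ _)) (GI.mul_mem (hx.1 _ _) (hy.1 _ _))
    · intro i j
      have : (((x * y)⁻¹ : GLC) i j : ℂ) = (y⁻¹ : GLC) i 0 * (x⁻¹ : GLC) 0 j +
          (y⁻¹ : GLC) i 1 * (x⁻¹ : GLC) 1 j := by
        rw [_root_.mul_inv_rev]
        simp only [Matrix.GeneralLinearGroup.coe_mul, Matrix.mul_apply, Fin.sum_univ_two]
      rw [this]
      exact GI.add_mem (GI.mul_mem (hy.2 _ _) (hx.2 _ _)) (GI.mul_mem (hy.2 _ _) (hx.2 _ _))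
  | inv x _ hx => exact ⟨hx.2, by rw [inv_inv]; exact hx.1⟩

/-- determinant -/
noncomputable def dt (g : GLC) : ℂ := g 0 0 * g 1 1 - g 0 1 * g 1 0

lemma dt_mul (g h : GLC) : dt (g * h) = dt g * dt h := by
  unfold dt
  simp only [Matrix.GeneralLinearGroup.coe_mul, Matrix.mul_apply, Fin.sum_univ_two]
  ring

lemma dt_ne (g : GLC) : dt g ≠ 0 := det_ne g

lemma dt_GI (g : GLC) (h : ∀ i j, (g i j : ℂ) ∈ GI) : dt g ∈ GI :=
  GI.sub_mem (GI.mul_mem (h _ _) (h _ _)) (GI.mul_mem (h _ _) (h _ _))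

lemma G0_dt (g : GLC) (hg : g ∈ G0) : ‖dt g‖ = 1 := by
  obtain ⟨h1, h2⟩ := G0_int g hg
  have e : dt g * dt g⁻¹ = 1 := by
    rw [← dt_mul, mul_inv_cancel]
    simp [dt]
  have a := GI_one_le _ (dt_GI g h1) (dt_ne g)
  have b := GI_one_le _ (dt_GI g⁻¹ h2) (dt_ne _)
  have c : ‖dt g‖ * ‖dt g⁻¹‖ = 1 := by rw [← norm_mul, e, norm_one]
  nlinarith

/-- a finite intersection with a neighbourhood excludes accumulation -/
lemma not_acc (A U : Set Ch) (p : Ch) (hU : U ∈ 𝓝 p) (hf : (A ∩ U).Finite) : p ∉ derivedSet A := by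
  rw [mem_derivedSet, accPt_iff_frequently]
  intro hfr
  apply hfr
  have h1 : ((A ∩ U) \ {p})ᶜ ∈ 𝓝 p := by
    apply IsOpen.mem_nhds
    · exact (hf.subset Set.sdiff_subset).isClosed.isOpen_compl
    · simp
  filter_upwards [h1, hU] with y hy hyU
  rintro ⟨h2, h3⟩
  exact hy ⟨⟨h3, hyU⟩, h2⟩

/-- the set of accumulation points of an orbit is contained in `Lam` -/
lemma lim_sub (Γ : Subgroup GLC) (hΓ : Γ ≤ G0) (z : Ch) :
    derivedSet {w : Ch | ∃ g ∈ Γ, w = g • z} ⊆ Lam := by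
  intro p hp
  by_contra hpL
  by_cases hz : z ∈ Lam
  · apply not_acc _ Lamᶜ p (Lam_closed.isOpen_compl.mem_nhds hpL) _ hp
    have : {w : Ch | ∃ g ∈ Γ, w = g • z} ∩ Lamᶜ = ∅ := by
      ext w
      simp only [Set.mem_inter_iff, Set.mem_ofPred_eq, Set.mem_compl_iff, Set.mem_empty_iff_false,
        iff_false, not_and, not_not]
      rintro ⟨g, hg, rfl⟩
      exact (Lam_smul g (hΓ hg) z).2 hz
    rw [this]; exact Set.finite_empty
  · have hinf : (∞ : OnePoint ℂ) ∈ Lam := X0_Lam infty_X0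
    induction p using OnePoint.rec with
    | infty => exact hpL hinf
    | coe p0 =>
    induction z using OnePoint.rec with
    | infty => exact hz hinf
    | coe z0 =>
    have hopen : IsOpen {w : ℂ | (w : OnePoint ℂ) ∈ Lamᶜ} :=
      Lam_closed.isOpen_compl.preimage OnePoint.continuous_coe
    obtain ⟨d0, hd0, hball⟩ := Metric.isOpen_iff.1 hopen z0 hz
    obtain ⟨δ', hδ', hball'⟩ := Metric.isOpen_iff.1 hopen p0 hpL
    obtain ⟨δ, hδ, hδe⟩ : ∃ δ : ℝ, 0 < δ ∧ δ' = 2 * δ := ⟨δ' / 2, by positivity, by ring⟩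
    subst hδe
    have hUo : (((↑) : ℂ → OnePoint ℂ) '' Metric.ball p0 δ) ∈ 𝓝 (p0 : OnePoint ℂ) :=
      (isOpen_image_coe.2 Metric.isOpen_ball).mem_nhds ⟨p0, Metric.mem_ball_self hδ, rfl⟩
    apply not_acc _ _ _ hUo _ hp
    set R1 := 1 / (δ * d0) with hR1
    set R2 := 1 / δ + R1 * ‖z0‖ with hR2
    set R3 := R1 * (‖p0‖ + δ + 1 / d0) with hR3
    set R4 := (‖p0‖ + δ) / δ + R3 * ‖z0‖ with hR4
    have hR1p : 0 < R1 := by positivity
    have hR2p : 0 < R2 := by positivity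
    have hR3p : 0 < R3 := by positivity
    have hR4p : 0 < R4 := by positivity
    apply ((mat_finite (R1 + R2 + R3 + R4 + 1 + (‖p0‖ + δ + ‖z0‖))).image
      (fun g : GLC => g • (z0 : OnePoint ℂ))).subset
    rintro _ ⟨⟨g, hg, rfl⟩, ⟨w, hw, hwe⟩⟩
    have hg0 := hΓ hg
    obtain ⟨hi, hi'⟩ := G0_int g hg0
    have hdet := G0_dt g hg0
    refine ⟨g, ⟨hi, ?_⟩, rfl⟩
    rw [Metric.mem_ball, dist_eq_norm] at hw
    have hwn : ‖w‖ ≤ ‖p0‖ + δ := by
      have := norm_sub_norm_le w p0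
      linarith
    rw [smul_some_eq_ite] at hwe
    have hne : g 1 0 * z0 + g 1 1 ≠ 0 := by
      intro h0
      rw [if_pos h0] at hwe
      exact coe_ne_infty _ hwe
    rw [if_neg hne] at hwe
    have hwe' : w = (g 0 0 * z0 + g 0 1) / (g 1 0 * z0 + g 1 1) := coe_injective hwe
    have hwe2 : w * (g 1 0 * z0 + g 1 1) = g 0 0 * z0 + g 0 1 := by
      rw [hwe', div_mul_cancel₀ _ hne]
    have hnp : 0 < ‖(g 1 0 : ℂ) * z0 + g 1 1‖ := norm_pos_iff.2 hne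
    have hz0 := norm_nonneg z0
    have hp0 := norm_nonneg p0
    by_cases hc : (g 1 0 : ℂ) = 0
    · have hdt : dt g = g 0 0 * g 1 1 := by unfold dt; rw [hc]; ring
      have ha0 : (g 0 0 : ℂ) ≠ 0 := by
        intro h; apply dt_ne g; rw [hdt, h, zero_mul]
      have hd0' : (g 1 1 : ℂ) ≠ 0 := by
        intro h; apply dt_ne g; rw [hdt, h, mul_zero]
      have a1 := GI_one_le _ (hi 0 0) ha0
      have d1 := GI_one_le _ (hi 1 1) hd0'
      rw [hdt, norm_mul] at hdet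
      have a2 : ‖(g 0 0 : ℂ)‖ = 1 := by nlinarith
      have d2 : ‖(g 1 1 : ℂ)‖ = 1 := by nlinarith
      have b2 : ‖(g 0 1 : ℂ)‖ ≤ ‖p0‖ + δ + ‖z0‖ := by
        have : (g 0 1 : ℂ) = w * g 1 1 - g 0 0 * z0 := by
          rw [hc] at hwe2; linear_combination -hwe2
        rw [this]
        calc ‖w * g 1 1 - g 0 0 * z0‖ ≤ ‖w * g 1 1‖ + ‖(g 0 0 : ℂ) * z0‖ := norm_sub_le _ _
          _ = ‖w‖ + ‖z0‖ := by rw [norm_mul, norm_mul, a2, d2]; ring
          _ ≤ _ := by linarith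
      intro i j
      fin_cases i <;> fin_cases j
      · show ‖(g 0 0 : ℂ)‖ ≤ _
        rw [a2]; linarith
      · show ‖(g 0 1 : ℂ)‖ ≤ _
        linarith
      · show ‖(g 1 0 : ℂ)‖ ≤ _
        rw [hc, norm_zero]; positivity
      · show ‖(g 1 1 : ℂ)‖ ≤ _
        rw [d2]; linarith
    · have c1 := GI_one_le _ (hi 1 0) hc
      -- g • ∞ is far from p0
      have h1 : ((g 0 0 / g 1 0 : ℂ) : OnePoint ℂ) ∈ Lam := by
        have : g • (∞ : OnePoint ℂ) ∈ Lam := X0_Lam ⟨g, hg0, rfl⟩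
        rwa [smul_infty_eq_ite, if_neg hc] at this
      have h2 : ((-(g 1 1) / g 1 0 : ℂ) : OnePoint ℂ) ∈ Lam := by
        have : g⁻¹ • (∞ : OnePoint ℂ) ∈ Lam := X0_Lam ⟨g⁻¹, G0.inv_mem hg0, rfl⟩
        have e := (inv_smul_pr g 1 0 (Or.inl one_ne_zero)).1
        rw [pr_zero] at e
        rw [e] at this
        unfold pr at this
        have hne2 : (g 0 0 : ℂ) * 0 - g 1 0 * 1 ≠ 0 := by simpa using hc
        rw [if_neg hne2] at this
        have e2 : (-(g 1 1) / g 1 0 : ℂ) = (g 1 1 * 1 - g 0 1 * 0) / (g 0 0 * 0 - g 1 0 * 1) := by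
          rw [mul_one, mul_zero, mul_zero, mul_one, sub_zero, zero_sub, neg_div, div_neg]
        rw [e2]
        exact this
      have f1 : 2 * δ ≤ ‖(g 0 0 / g 1 0 : ℂ) - p0‖ := by
        by_contra hcon
        push Not at hcon
        have := hball' (show (g 0 0 / g 1 0 : ℂ) ∈ Metric.ball p0 (2 * δ) by
          rw [Metric.mem_ball, dist_eq_norm]; exact hcon)
        exact this h1
      have f2 : d0 ≤ ‖(-(g 1 1) / g 1 0 : ℂ) - z0‖ := by
        by_contra hcon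
        push Not at hcon
        have := hball (show (-(g 1 1) / g 1 0 : ℂ) ∈ Metric.ball z0 d0 by
          rw [Metric.mem_ball, dist_eq_norm]; exact hcon)
        exact this h2
      have f3 : δ ≤ ‖(g 0 0 / g 1 0 : ℂ) - w‖ := by
        have : (g 0 0 / g 1 0 : ℂ) - p0 = ((g 0 0 / g 1 0 : ℂ) - w) + (w - p0) := by ring
        rw [this] at f1
        have := norm_add_le ((g 0 0 / g 1 0 : ℂ) - w) (w - p0)
        linarith
      have e3 : (g 0 0 / g 1 0 : ℂ) - w = dt g / (g 1 0 * (g 1 0 * z0 + g 1 1)) := by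
        rw [hwe']; unfold dt; field_simp; ring
      have e4 : ‖(g 0 0 / g 1 0 : ℂ) - w‖ = 1 / (‖(g 1 0 : ℂ)‖ * ‖(g 1 0 : ℂ) * z0 + g 1 1‖) := by
        rw [e3, norm_div, hdet, norm_mul]
      have cpos : 0 < ‖(g 1 0 : ℂ)‖ := by linarith
      have f4 : δ * (‖(g 1 0 : ℂ)‖ * ‖(g 1 0 : ℂ) * z0 + g 1 1‖) ≤ 1 := by
        rw [e4, le_div_iff₀ (by positivity)] at f3
        exact f3
      have f5 : d0 * ‖(g 1 0 : ℂ)‖ ≤ ‖(g 1 0 : ℂ) * z0 + g 1 1‖ := by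
        have : (-(g 1 1) / g 1 0 : ℂ) - z0 = -(g 1 0 * z0 + g 1 1) / g 1 0 := by field_simp; ring
        rw [this, norm_div, norm_neg, le_div_iff₀ cpos] at f2
        exact f2
      have cb : ‖(g 1 0 : ℂ)‖ ≤ R1 := by
        rw [hR1, le_div_iff₀ (by positivity)]
        have : δ * (‖(g 1 0 : ℂ)‖ * (d0 * ‖(g 1 0 : ℂ)‖)) ≤ 1 :=
          le_trans (by gcongr) f4
        nlinarith [mul_pos (mul_pos hδ hd0) cpos]
      have nb : ‖(g 1 0 : ℂ) * z0 + g 1 1‖ ≤ 1 / δ := by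
        rw [le_div_iff₀ hδ]
        nlinarith [mul_pos hδ hnp]
      have db : ‖(g 1 1 : ℂ)‖ ≤ R2 := by
        have : (g 1 1 : ℂ) = (g 1 0 * z0 + g 1 1) - g 1 0 * z0 := by ring
        rw [this]
        calc _ ≤ ‖(g 1 0 * z0 + g 1 1 : ℂ)‖ + ‖(g 1 0 * z0 : ℂ)‖ := norm_sub_le _ _
          _ ≤ 1 / δ + R1 * ‖z0‖ := by
            rw [norm_mul]; gcongr
      have nlow : d0 ≤ ‖(g 1 0 : ℂ) * z0 + g 1 1‖ := by nlinarith
      have ab0 : ‖(g 0 0 / g 1 0 : ℂ)‖ ≤ ‖p0‖ + δ + 1 / d0 := by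
        have : (g 0 0 / g 1 0 : ℂ) = ((g 0 0 / g 1 0 : ℂ) - w) + w := by ring
        rw [this]
        have h5 : ‖(g 0 0 / g 1 0 : ℂ) - w‖ ≤ 1 / d0 := by
          rw [e4]
          apply one_div_le_one_div_of_le hd0
          nlinarith
        have := norm_add_le ((g 0 0 / g 1 0 : ℂ) - w) w
        linarith
      have ab : ‖(g 0 0 : ℂ)‖ ≤ R3 := by
        have : (g 0 0 : ℂ) = g 1 0 * (g 0 0 / g 1 0) := by field_simp
        rw [this, norm_mul]
        exact mul_le_mul cb ab0 (norm_nonneg _) hR1p.le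
      have bb : ‖(g 0 1 : ℂ)‖ ≤ R4 := by
        have : (g 0 1 : ℂ) = w * (g 1 0 * z0 + g 1 1) - g 0 0 * z0 := by
          linear_combination -hwe2
        rw [this]
        calc _ ≤ ‖w * (g 1 0 * z0 + g 1 1 : ℂ)‖ + ‖(g 0 0 * z0 : ℂ)‖ := norm_sub_le _ _
          _ ≤ (‖p0‖ + δ) * (1 / δ) + R3 * ‖z0‖ := by
            rw [norm_mul, norm_mul]; gcongr
          _ = R4 := by rw [hR4]; ring
      intro i j
      fin_cases i <;> fin_cases j
      · show ‖(g 0 0 : ℂ)‖ ≤ _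
        linarith
      · show ‖(g 0 1 : ℂ)‖ ≤ _
        linarith
      · show ‖(g 1 0 : ℂ)‖ ≤ _
        linarith
      · show ‖(g 1 1 : ℂ)‖ ≤ _
        linarith

end Pool.Agent.Lib.MP_cc6c48_an
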