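import Pool.Agent.Lib.MP_cc6c48_an.Fam

/-! The limit set of the group contains the closure of the packing. -/

set_option autoImplicit false

open OnePoint Topology Filter Complex ComplexConjugate Matrix

namespace Pool.Agent.Lib.MP_cc6c48_an

/-- orbit of a point -/
def orb (Γ : Subgroup GLC) (z : Ch) : Set Ch := {w : Ch | ∃ g ∈ Γ, w = g • z}

lemma L_inv (Γ : Subgroup GLC) (z : Ch) (g : GLC) (hg : g ∈ Γ) (y : Ch)
    (hy : y ∈ derivedSet (orb Γ z)) : g • y ∈ derivedSet (orb Γ z) := by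
  have h1 : (fun p : Ch => g • p) '' derivedSet (orb Γ z) ⊆ derivedSet ((fun p : Ch => g • p) '' orb Γ z) :=
    Continuous.image_derivedSet (continuous_const_smul g) (MulAction.injective g)
  have h2 : (fun p : Ch => g • p) '' orb Γ z ⊆ orb Γ z := by
    rintro _ ⟨_, ⟨h, hh, rfl⟩, rfl⟩
    exact ⟨g * h, Γ.mul_mem hg hh, by rw [mul_smul]⟩
  exact derivedSet_mono _ _ h2 (h1 ⟨y, hy, rfl⟩)

lemma not_mem_L (A : Set Ch) (y : Ch) (hy : y ∉ derivedSet A) :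
    ∃ U : Set Ch, IsOpen U ∧ y ∈ U ∧ A ∩ U ⊆ {y} := by
  rw [mem_derivedSet, accPt_iff_frequently, Filter.not_frequently] at hy
  obtain ⟨U, hU, hUo, hyU⟩ := mem_nhds_iff.1 hy
  refine ⟨U, hUo, hyU, ?_⟩
  rintro p ⟨hp, hpU⟩
  have := hU hpU
  by_contra hne
  exact this ⟨hne, hp⟩

lemma DD_diam (M : GLC) (hM : Cand M) (w w' : ℂ) (h : (w : OnePoint ℂ) ∈ DD M)
    (h' : (w' : OnePoint ℂ) ∈ DD M) : ‖(M 1 0 : ℂ)‖ * ‖w - w'‖ ≤ 2 := by
  rw [coe_DD] at h h'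
  have e : ‖(M 1 0 : ℂ)‖ * ‖w - w'‖ = ‖(M 1 0 * w - M 0 0) - (M 1 0 * w' - M 0 0)‖ := by
    rw [← norm_mul]; congr 1; ring
  rw [e]
  exact (norm_sub_le _ _).trans (by linarith)

/-- (A') near a point which is not an accumulation point of the orbit only finitely many disks -/
lemma nbhd_fin (J : Set GLC) (hJ : Adm J) (z y : Ch)
    (hy : y ∉ derivedSet (orb (Subgroup.closure J) z)) :
    ∃ U : Set Ch, IsOpen U ∧ y ∈ U ∧ {M | M ∈ J ∧ (DD M ∩ U).Nonempty}.Finite := by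
  obtain ⟨U0, hU0, hyU0, hsub⟩ := not_mem_L _ _ hy
  have hsing : ∀ p : Ch, {M | M ∈ J ∧ p ∈ DD M}.Finite := by
    intro p
    apply Set.Subsingleton.finite
    rintro M ⟨h1, h2⟩ N ⟨h3, h4⟩
    by_contra hne
    exact Set.disjoint_left.1 (hJ.2.2.2.1 M h1 N h3 hne) h2 h4
  -- a disk contained in `U0` is exceptional
  have hex : ∀ M ∈ J, DD M ⊆ U0 → M ∈ {M | M ∈ J ∧ z ∈ DD M} ∪ {M | M ∈ J ∧ y ∈ DD M} := by
    intro M hM hMU
    by_cases hz : z ∈ DD M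
    · left; exact ⟨hM, hz⟩
    · right
      have h1 : M • z ∈ DD M := DI_sub _ ((smul_DI M (hJ.2.2.1 M hM) z).2 hz)
      have h2 : M • z ∈ orb (Subgroup.closure J) z := ⟨M, Subgroup.subset_closure hM, rfl⟩
      have h3 : M • z = y := hsub ⟨h2, hMU h1⟩
      exact ⟨hM, by rw [← h3]; exact h1⟩
  induction y using OnePoint.rec with
  | infty =>
    obtain ⟨R, hR⟩ := nhd_infty U0 hU0 hyU0
    refine ⟨(((↑) : ℂ → OnePoint ℂ) '' Metric.closedBall 0 (R + 2))ᶜ, ?_, ?_, ?_⟩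
    · exact (isClosed_image_coe.2 ⟨Metric.isClosed_closedBall, isCompact_closedBall _ _⟩).isOpen_compl
    · rintro ⟨w, _, h⟩; exact coe_ne_infty _ h
    · apply ((hsing z).union (hsing (∞ : OnePoint ℂ))).subset
      rintro M ⟨hM, p, hp, hpU⟩
      apply hex M hM
      obtain ⟨w, hw, rfl⟩ := hp
      rintro _ ⟨w', hw', rfl⟩
      apply hR
      have h1 : R + 2 < ‖w‖ := by
        by_contra hcon
        push Not at hcon
        exact hpU ⟨w, by simpa using hcon, rfl⟩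
      have hMc := hJ.2.2.1 M hM
      have h2 := DD_diam M hMc w w' ⟨w, hw, rfl⟩ ⟨w', hw', rfl⟩
      have h3 := GI_one_le _ ((G0_int M hMc.1).1 1 0) hMc.2.2.2
      have h4 : ‖w - w'‖ ≤ 2 := by nlinarith [norm_nonneg (w - w')]
      have h5 := norm_sub_norm_le w w'
      linarith
  | coe y0 =>
    have hopen : IsOpen {w : ℂ | (w : OnePoint ℂ) ∈ U0} := hU0.preimage OnePoint.continuous_coe
    obtain ⟨δ', hδ', hball⟩ := Metric.isOpen_iff.1 hopen y0 hyU0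
    obtain ⟨δ, hδ, rfl⟩ : ∃ δ : ℝ, 0 < δ ∧ δ' = 3 * δ := ⟨δ' / 3, by positivity, by ring⟩
    refine ⟨((↑) : ℂ → OnePoint ℂ) '' Metric.ball y0 δ, isOpen_image_coe.2 Metric.isOpen_ball,
      ⟨y0, Metric.mem_ball_self hδ, rfl⟩, ?_⟩
    set RA := 1 + 1 / δ * (‖y0‖ + δ) with hRA
    have hRAp : 0 < RA := by positivity
    apply (((hsing z).union (hsing (y0 : OnePoint ℂ))).union
      (mat_finite (1 / δ + RA + (1 + RA ^ 2)))).subset
    rintro M ⟨hM, p, hp, ⟨w, hwb, rfl⟩⟩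
    have hMc := hJ.2.2.1 M hM
    have hint := (G0_int M hMc.1).1
    have hc1 := GI_one_le _ (hint 1 0) hMc.2.2.2
    rw [Metric.mem_ball, dist_eq_norm] at hwb
    by_cases hC : 1 / δ ≤ ‖(M 1 0 : ℂ)‖
    · left
      apply hex M hM
      rintro _ ⟨w', hw', rfl⟩
      apply hball
      rw [Metric.mem_ball, dist_eq_norm]
      have h2 := DD_diam M hMc w' w ⟨w', hw', rfl⟩ hp
      have h3 : 1 / δ * ‖w' - w‖ ≤ 2 :=
        (mul_le_mul_of_nonneg_right hC (norm_nonneg _)).trans h2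
      have h4 : ‖w' - w‖ ≤ 2 * δ := by
        rw [one_div, inv_mul_le_iff₀ hδ] at h3
        linarith
      have h5 : w' - y0 = (w' - w) + (w - y0) := by ring
      rw [h5]
      have := norm_add_le (w' - w) (w - y0)
      linarith
    · right
      push Not at hC
      have hw : ‖(M 1 0 : ℂ) * w - M 0 0‖ ≤ 1 := (coe_DD M w).1 hp
      have hwn : ‖w‖ ≤ ‖y0‖ + δ := by
        have := norm_sub_norm_le w y0
        linarith
      have hA : ‖(M 0 0 : ℂ)‖ ≤ RA := by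
        have e : (M 0 0 : ℂ) = M 1 0 * w - (M 1 0 * w - M 0 0) := by ring
        rw [e]
        calc _ ≤ ‖(M 1 0 * w : ℂ)‖ + ‖(M 1 0 : ℂ) * w - M 0 0‖ := norm_sub_le _ _
          _ ≤ 1 / δ * (‖y0‖ + δ) + 1 := by
            rw [norm_mul]
            have : ‖(M 1 0 : ℂ)‖ * ‖w‖ ≤ 1 / δ * (‖y0‖ + δ) :=
              mul_le_mul hC.le hwn (norm_nonneg _) (by positivity)
            linarith
          _ = RA := by rw [hRA]; ring
      have hB : ‖(M 0 1 : ℂ)‖ ≤ 1 + RA ^ 2 := by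
        have h1 := cand_id M hMc
        have h2 : ‖(M 0 1 : ℂ) * M 1 0‖ ≤ 1 + RA ^ 2 := by
          have e : (M 0 1 : ℂ) * M 1 0 = 1 - M 0 0 ^ 2 := by linear_combination h1
          rw [e]
          calc _ ≤ ‖(1 : ℂ)‖ + ‖(M 0 0 : ℂ) ^ 2‖ := norm_sub_le _ _
            _ ≤ 1 + RA ^ 2 := by
              rw [norm_one, norm_pow]
              have := norm_nonneg (M 0 0 : ℂ)
              gcongr
        rw [norm_mul] at h2
        nlinarith [norm_nonneg (M 0 1 : ℂ)]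
      refine ⟨hint, ?_⟩
      have hd : 0 < 1 / δ := by positivity
      intro i j
      fin_cases i <;> fin_cases j
      · show ‖(M 0 0 : ℂ)‖ ≤ _
        nlinarith
      · show ‖(M 0 1 : ℂ)‖ ≤ _
        nlinarith
      · show ‖(M 1 0 : ℂ)‖ ≤ _
        nlinarith
      · show ‖(M 1 1 : ℂ)‖ ≤ _
        rw [hMc.2.1, norm_neg]; nlinarith

/-- small disks near parabolic points -/
lemma small_cand (y0 : ℂ) (hy : (y0 : OnePoint ℂ) ∈ X0) (η : ℝ) (hη : 0 < η) :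
    ∃ N : GLC, Cand N ∧ ∀ w : ℂ, (w : OnePoint ℂ) ∈ DD N → ‖w - y0‖ < η := by
  obtain ⟨g, hg, hgy⟩ := hy
  rw [smul_infty_eq_ite] at hgy
  by_cases hr : (g 1 0 : ℂ) = 0
  · rw [if_pos hr] at hgy; exact absurd hgy (coe_ne_infty _)
  rw [if_neg hr] at hgy
  have hy0 : y0 = g 0 0 / g 1 0 := coe_injective hgy
  have hr1 := GI_one_le _ ((G0_int g hg).1 1 0) hr
  -- choose n
  set p : ℂ := g 0 0
  set q : ℂ := g 0 1
  set r : ℂ := g 1 0
  set s : ℂ := g 1 1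
  obtain ⟨n, hn⟩ := exists_nat_gt (‖s‖ + (2 * ‖r‖ + 4 / η + 1))
  have hX : 2 * ‖r‖ + 4 / η + 1 < ‖r * n + s‖ := by
    have h1 : ‖r * n‖ - ‖s‖ ≤ ‖r * n + s‖ := by
      have := norm_sub_norm_le (r * n) (-s)
      rw [norm_neg, sub_neg_eq_add] at this
      exact this
    have h2 : ‖r * n‖ = ‖r‖ * n := by rw [norm_mul, Complex.norm_natCast]
    rw [h2] at h1
    have h3 : (n : ℝ) ≤ ‖r‖ * n := by
      have : (0 : ℝ) ≤ n := Nat.cast_nonneg n
      nlinarith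
    linarith
  -- the parabolic conjugate
  have hQ : ((I * n : ℂ)) * (-I * n) - (-I * (n ^ 2 + 1)) * I = -1 := by
    linear_combination I_sq
  set Q : GLC := mk (I * n) (-I * (n ^ 2 + 1)) I (-I * n) (by rw [hQ]; norm_num) with hQd
  have hTn : gT ^ n = mk 1 n 0 1 (by simp) := by
    clear hX hn
    clear_value Q
    clear hQd hQ Q
    induction n with
    | zero =>
      apply Matrix.GeneralLinearGroup.ext
      intro i j; fin_cases i <;> fin_cases j <;> simp [mk]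
    | succ n ih =>
      rw [pow_succ, ih]; unfold gT; rw [mk_mul]; apply mk_ext <;> push_cast <;> ring
  have hQG : Q ∈ G0 := by
    have : Q = gT ^ n * ia * (gT ^ n)⁻¹ := by
      rw [eq_mul_inv_iff_mul_eq, hTn, ia_eq, mk_mul, mk_mul]
      apply mk_ext <;> ring
    rw [this]
    exact G0.mul_mem (G0.mul_mem (G0.pow_mem gT_G0 n) ia_G0) (G0.inv_mem (G0.pow_mem gT_G0 n))
  set N : GLC := g * Q * g⁻¹ with hN
  have hNg : N * g = g * Q := by rw [hN]; group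
  have hNG : N ∈ G0 := G0.mul_mem (G0.mul_mem hg hQG) (G0.inv_mem hg)
  have hdN : dt N = -1 := by
    have h1 : dt N * dt g = dt g * dt Q := by rw [← dt_mul, ← dt_mul, hNg]
    have h2 : dt Q = -1 := hQ
    rw [h2] at h1
    have := dt_ne g
    have h3 : (dt N + 1) * dt g = 0 := by linear_combination h1
    have := (mul_eq_zero.1 h3).resolve_right this
    linear_combination this
  have htr : (N 0 0 : ℂ) + N 1 1 = 0 := by
    have h1 : (N.val).trace = (Q.val).trace := by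
      rw [hN]
      show ((g * Q * g⁻¹ : GLC).val).trace = _
      rw [Matrix.GeneralLinearGroup.coe_mul, Matrix.GeneralLinearGroup.coe_mul,
        Matrix.trace_mul_cycle, ← Matrix.GeneralLinearGroup.coe_mul, inv_mul_cancel]
      simp
    rw [Matrix.trace_fin_two, Matrix.trace_fin_two] at h1
    rw [h1]
    show (I * n : ℂ) + -I * n = 0
    ring
  have e1 : (N 1 0 : ℂ) * p + N 1 1 * r = I * (r * n + s) := by
    have := congrArg (fun X : GLC => (X 1 0 : ℂ)) hNg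
    simp only [Matrix.GeneralLinearGroup.coe_mul, Matrix.mul_apply, Fin.sum_univ_two] at this
    have h2 : (Q 0 0 : ℂ) = I * n := rfl
    have h3 : (Q 1 0 : ℂ) = I := rfl
    rw [h2, h3] at this
    linear_combination this
  have e2 : (N 1 0 : ℂ) * q + N 1 1 * s = -I * (r * (n ^ 2 + 1) + s * n) := by
    have := congrArg (fun X : GLC => (X 1 1 : ℂ)) hNg
    simp only [Matrix.GeneralLinearGroup.coe_mul, Matrix.mul_apply, Fin.sum_univ_two] at this
    have h2 : (Q 0 1 : ℂ) = -I * (n ^ 2 + 1) := rfl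
    have h3 : (Q 1 1 : ℂ) = -I * n := rfl
    rw [h2, h3] at this
    linear_combination this
  have hdt : ‖p * s - q * r‖ = 1 := G0_dt g hg
  have e3 : (N 1 0 : ℂ) * (p * s - q * r) = I * ((r * n + s) ^ 2 + r ^ 2) := by
    linear_combination s * e1 - r * e2
  have hCn : ‖(N 1 0 : ℂ)‖ = ‖(r * n + s) ^ 2 + r ^ 2‖ := by
    have := congrArg norm e3
    rw [norm_mul, norm_mul, hdt, norm_I, mul_one, one_mul] at this
    exact this
  set X := ‖r * n + s‖ with hXd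
  have hη4 : 0 < 4 / η := by positivity
  have hCl : X ^ 2 / 2 ≤ ‖(N 1 0 : ℂ)‖ := by
    rw [hCn]
    have h1 : ‖(r * n + s) ^ 2‖ - ‖r ^ 2‖ ≤ ‖(r * n + s) ^ 2 + r ^ 2‖ := by
      have := norm_sub_norm_le ((r * n + s) ^ 2) (-r ^ 2)
      rw [norm_neg, sub_neg_eq_add] at this
      exact this
    rw [norm_pow, norm_pow] at h1
    nlinarith [norm_nonneg r]
  have hX1 : 1 < X := by linarith [norm_nonneg r]
  have hXp : 0 < X := by linarith
  have hCp : 0 < ‖(N 1 0 : ℂ)‖ := lt_of_lt_of_le (by positivity) hCl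
  refine ⟨N, ⟨hNG, by linear_combination htr, hdN, norm_pos_iff.1 hCp⟩, ?_⟩
  intro w hw
  rw [coe_DD] at hw
  -- C (w - y0) = (C w - A) + (A r - C p) / r
  have hN11 : (N 1 1 : ℂ) = -N 0 0 := by linear_combination htr
  rw [hN11] at e1
  have e4 : (N 1 0 : ℂ) * (w - y0) = (N 1 0 * w - N 0 0) - I * (r * n + s) / r := by
    rw [hy0, ← e1]; field_simp; ring
  have e5 : ‖(N 1 0 : ℂ)‖ * ‖w - y0‖ ≤ 1 + X := by
    rw [← norm_mul, e4]
    calc _ ≤ ‖(N 1 0 : ℂ) * w - N 0 0‖ + ‖I * (r * n + s) / r‖ := norm_sub_le _ _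
      _ ≤ 1 + X := by
        have : ‖I * (r * n + s) / r‖ ≤ X := by
          rw [norm_div, norm_mul, norm_I, one_mul]
          rw [div_le_iff₀ (by linarith)]
          nlinarith
        linarith
  have e6 : X ^ 2 / 2 * ‖w - y0‖ ≤ 1 + X :=
    (mul_le_mul_of_nonneg_right hCl (norm_nonneg _)).trans e5
  have e7 : X * ‖w - y0‖ ≤ 4 := by nlinarith [norm_nonneg (w - y0)]
  have e8 : 4 < η * X := by
    have : 4 / η < X := by linarith [norm_nonneg r]
    rw [div_lt_iff₀ hη] at this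
    linarith
  nlinarith

/-- maximality: near a finite parabolic point outside `K0` there are disks -/
lemma max_near (J : Set GLC) (hJ : Adm J) (hmax : ∀ J', Adm J' → J ⊆ J' → J' = J) (y0 : ℂ)
    (hy : (y0 : OnePoint ℂ) ∈ X0) (hyK : (y0 : OnePoint ℂ) ∉ K0) (U : Set Ch) (hU : IsOpen U)
    (hyU : (y0 : OnePoint ℂ) ∈ U) : ∃ M ∈ J, (DD M ∩ U).Nonempty := by
  by_contra hcon
  push Not at hcon
  have hopen : IsOpen {w : ℂ | (w : OnePoint ℂ) ∈ U ∩ K0ᶜ} :=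
    (hU.inter K0_closed.isOpen_compl).preimage OnePoint.continuous_coe
  obtain ⟨η, hη, hball⟩ := Metric.isOpen_iff.1 hopen y0 ⟨hyU, hyK⟩
  obtain ⟨N, hN, hNw⟩ := small_cand y0 hy η hη
  have hNU : DD N ⊆ U ∩ K0ᶜ := by
    rintro _ ⟨w, hw, rfl⟩
    apply hball
    rw [Metric.mem_ball, dist_eq_norm]
    exact hNw w ⟨w, hw, rfl⟩
  have hdisj : ∀ M ∈ J, Disjoint (DD M) (DD N) := by
    intro M hM
    rw [Set.disjoint_left]
    intro p hp hp2
    have := hcon M hM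
    have h2 : p ∈ DD M ∩ U := ⟨hp, (hNU hp2).1⟩
    rw [this] at h2
    exact h2
  have hadm : Adm (insert N J) := by
    refine ⟨Or.inr hJ.1, Or.inr hJ.2.1, ?_, ?_, ?_⟩
    · rintro M (rfl | hM)
      · exact hN
      · exact hJ.2.2.1 M hM
    · rintro M (rfl | hM) M' (rfl | hM') hne
      · exact absurd rfl hne
      · exact (hdisj M' hM').symm
      · exact hdisj M hM
      · exact hJ.2.2.2.1 M hM M' hM' hne
    · rintro M (rfl | hM) h1 h2
      · rw [Set.disjoint_left]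
        intro p hp
        exact (hNU hp).2
      · exact hJ.2.2.2.2 M hM h1 h2
  have heq := hmax _ hadm (Set.subset_insert _ _)
  have hNJ : N ∈ J := by rw [← heq]; exact Set.mem_insert _ _
  have h1 := hcon N hNJ
  have h2 : ((N 0 0 / N 1 0 : ℂ) : OnePoint ℂ) ∈ DD N := by
    rw [coe_DD]
    have : (N 1 0 : ℂ) * (N 0 0 / N 1 0) - N 0 0 = 0 := by
      have := hN.2.2.2
      field_simp
      ring
    rw [this, norm_zero]; norm_num
  have h3 : ((N 0 0 / N 1 0 : ℂ) : OnePoint ℂ) ∈ DD N ∩ U := ⟨h2, (hNU h2).1⟩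
  rw [h1] at h3
  exact h3

/-- (M) -/
lemma max_in (J : Set GLC) (hJ : Adm J) (hmax : ∀ J', Adm J' → J ⊆ J' → J' = J) (y : Ch)
    (hy : y ∈ X0) (hyi : y ≠ (∞ : OnePoint ℂ)) (hyK : y ∉ K0) (U : Set Ch) (hU : IsOpen U)
    (hyU : y ∈ U) (hfin : {M | M ∈ J ∧ (DD M ∩ U).Nonempty}.Finite) : ∃ M ∈ J, y ∈ DD M := by
  by_contra hcon
  push Not at hcon
  induction y using OnePoint.rec with
  | infty => exact hyi rfl
  | coe y0 =>
    have hcl : IsClosed (⋃ M ∈ {M | M ∈ J ∧ (DD M ∩ U).Nonempty}, DD M) := by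
      apply hfin.isClosed_biUnion
      rintro M ⟨hM, _⟩
      exact DD_closed M (hJ.2.2.1 M hM)
    obtain ⟨M, hM, p, hp, hpU, hpn⟩ := max_near J hJ hmax y0 hy hyK _ (hU.inter hcl.isOpen_compl)
      ⟨hyU, by
        simp only [Set.mem_compl_iff, Set.mem_iUnion, not_exists]
        rintro M ⟨hM, _⟩
        exact hcon M hM⟩
    apply hpn
    simp only [Set.mem_iUnion]
    exact ⟨M, ⟨hM, p, hp, hpU⟩, hp⟩

lemma base_circ (g : GLC) (hg : g ∈ G0) : act g Rhat ∈ PP ∧ act g C2 ∈ PP ∧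
    g • (∞ : OnePoint ℂ) ∈ act g Rhat ∧ g • (∞ : OnePoint ℂ) ∈ act g C2 :=
  ⟨G0_PP g hg _ R_mem, G0_PP g hg _ C2_mem, smul_mem_act.2 infty_mem_Rhat,
    smul_mem_act.2 infty_mem_C2⟩

/-- the lower left entry of `M * g` -/
lemma low_mul (M g : GLC) (hM : Cand M) : ((M * g : GLC) 1 0 : ℂ) = M 1 0 * g 0 0 - M 0 0 * g 1 0 := by
  simp only [Matrix.GeneralLinearGroup.coe_mul, Matrix.mul_apply, Fin.sum_univ_two]
  rw [hM.2.1]; ring

lemma low_DI (M g : GLC) (hM : Cand M) : g • (∞ : OnePoint ℂ) ∈ DI M ↔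
    ‖((M * g : GLC) 1 0 : ℂ)‖ < ‖(g 1 0 : ℂ)‖ := by
  have h : (1 : ℂ) ≠ 0 ∨ (0 : ℂ) ≠ 0 := Or.inl one_ne_zero
  rw [← pr_zero 1, smul_pr g 1 0 h, pr_DI M _ _ (smul_ne g 1 0 h), low_mul M g hM]
  simp

lemma low_DD (M g : GLC) (hM : Cand M) : g • (∞ : OnePoint ℂ) ∈ DD M ↔
    ‖((M * g : GLC) 1 0 : ℂ)‖ ≤ ‖(g 1 0 : ℂ)‖ := by
  have h : (1 : ℂ) ≠ 0 ∨ (0 : ℂ) ≠ 0 := Or.inl one_ne_zero
  rw [← pr_zero 1, smul_pr g 1 0 h, pr_DD M hM _ _ (smul_ne g 1 0 h), low_mul M g hM]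
  simp

/-- one step of the descent -/
lemma keyK (J : Set GLC) (hJ : Adm J) (hmax : ∀ J', Adm J' → J ⊆ J' → J' = J) (z : Ch) (n : ℕ)
    (ih : ∀ m < n, ∀ g ∈ G0, normSq (g 1 0 : ℂ) = m →
      g • (∞ : OnePoint ℂ) ∈ derivedSet (orb (Subgroup.closure J) z))
    (g : GLC) (hg : g ∈ G0) (hn : normSq (g 1 0 : ℂ) = n)
    (hy : g • (∞ : OnePoint ℂ) ∉ derivedSet (orb (Subgroup.closure J) z)) :
    ∃ M ∈ J, ∃ U : Set Ch, IsOpen U ∧ g • (∞ : OnePoint ℂ) ∈ U ∧ g • (∞ : OnePoint ℂ) ∈ DD M ∧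
      g • (∞ : OnePoint ℂ) ∉ DI M ∧ ∀ y ∈ X0, y ∈ U → y ≠ (∞ : OnePoint ℂ) → y ∉ K0 → y ∈ DD M := by
  have h1 : ∀ M ∈ J, g • (∞ : OnePoint ℂ) ∉ DI M := by
    intro M hM hDI
    have hMc := hJ.2.2.1 M hM
    rw [low_DI M g hMc] at hDI
    have hMg : M * g ∈ G0 := G0.mul_mem hMc.1 hg
    obtain ⟨m, hm⟩ := GI_normSq _ ((G0_int _ hMg).1 1 0)
    have hlt : m < n := by
      have : (m : ℝ) < n := by
        rw [← hm, ← hn, normSq_eq_norm_sq, normSq_eq_norm_sq]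
        have := norm_nonneg ((M * g : GLC) 1 0 : ℂ)
        nlinarith
      exact_mod_cast this
    have h2 := ih m hlt _ hMg hm
    have h3 := L_inv (Subgroup.closure J) z M (Subgroup.subset_closure hM) _ h2
    rw [← mul_smul, ← mul_assoc, cand_sq M hMc, one_mul] at h3
    exact hy h3
  obtain ⟨U0, hU0, hyU0, hfin⟩ := nbhd_fin J hJ z _ hy
  have hcl : IsClosed (⋃ M ∈ {M | (M ∈ J ∧ (DD M ∩ U0).Nonempty) ∧ g • (∞ : OnePoint ℂ) ∉ DD M}, DD M) := by
    apply Set.Finite.isClosed_biUnion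
    · exact hfin.subset (fun M hM => hM.1)
    · rintro M ⟨⟨hM, _⟩, _⟩
      exact DD_closed M (hJ.2.2.1 M hM)
  set U1 := U0 ∩ (⋃ M ∈ {M | (M ∈ J ∧ (DD M ∩ U0).Nonempty) ∧ g • (∞ : OnePoint ℂ) ∉ DD M}, DD M)ᶜ
    with hU1
  have hU1o : IsOpen U1 := hU0.inter hcl.isOpen_compl
  have hyU1 : g • (∞ : OnePoint ℂ) ∈ U1 := by
    refine ⟨hyU0, ?_⟩
    simp only [Set.mem_compl_iff, Set.mem_iUnion, not_exists]
    rintro M ⟨_, hM⟩
    exact hM
  have h2 : ∀ y ∈ X0, y ∈ U1 → y ≠ (∞ : OnePoint ℂ) → y ∉ K0 →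
      ∃ M ∈ J, y ∈ DD M ∧ g • (∞ : OnePoint ℂ) ∈ DD M := by
    intro y hyX hyU hyi hyK
    obtain ⟨M, hM, hyM⟩ := max_in J hJ hmax y hyX hyi hyK U0 hU0 hyU.1 hfin
    refine ⟨M, hM, hyM, ?_⟩
    by_contra hcon
    apply hyU.2
    simp only [Set.mem_iUnion]
    exact ⟨M, ⟨⟨hM, y, hyM, hyU.1⟩, hcon⟩, hyM⟩
  obtain ⟨hP1, _, hy1, _⟩ := base_circ g hg
  obtain ⟨y, hyX, _, hyU, hyK⟩ := para_dense _ hP1 U1 (K0 ∪ {(∞ : OnePoint ℂ)}) hU1o
    ⟨_, hyU1, hy1⟩ (K0_closed.union isClosed_singleton) (by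
      rw [Set.union_inter_distrib_right]
      exact (K0_count _ hP1).union ((Set.countable_singleton _).mono Set.inter_subset_left))
  have hyK1 : y ∉ K0 := fun h => hyK (Or.inl h)
  have hyK2 : y ≠ (∞ : OnePoint ℂ) := fun h => hyK (Or.inr h)
  obtain ⟨M, hM, _, hgM⟩ := h2 y hyX hyU hyK2 hyK1
  refine ⟨M, hM, U1, hU1o, hyU1, hgM, h1 M hM, ?_⟩
  intro y' hy'X hy'U hy'i hy'K
  obtain ⟨M', hM', hyM', hgM'⟩ := h2 y' hy'X hy'U hy'i hy'K
  have : M' = M := by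
    by_contra hne
    exact Set.disjoint_left.1 (hJ.2.2.2.1 M' hM' M hM hne) hgM' hgM
  rw [← this]; exact hyM'

lemma Rhat_ne_C2 : Rhat ≠ C2 := by
  intro h
  have h0 : ((0 : ℂ) : OnePoint ℂ) ∈ Rhat := (mem_Rhat_coe 0).2 rfl
  rw [h, C2_cirV, coe_mem_cirV] at h0
  norm_num at h0

lemma X0_L (J : Set GLC) (hJ : Adm J) (hmax : ∀ J', Adm J' → J ⊆ J' → J' = J) (z : Ch) (n : ℕ) :
    ∀ g ∈ G0, normSq (g 1 0 : ℂ) = n →
      g • (∞ : OnePoint ℂ) ∈ derivedSet (orb (Subgroup.closure J) z) := by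
  induction n using Nat.strong_induction_on with
  | _ n ih =>
  intro g hg hn
  by_contra hy
  obtain ⟨M, hM, U, hU, hyU, hyDD, hyDI, hUall⟩ := keyK J hJ hmax z n ih g hg hn hy
  have hMc := hJ.2.2.1 M hM
  have hMg : M * g ∈ G0 := G0.mul_mem hMc.1 hg
  have hy' : (M * g) • (∞ : OnePoint ℂ) ∉ derivedSet (orb (Subgroup.closure J) z) := by
    intro h
    have h3 := L_inv (Subgroup.closure J) z M (Subgroup.subset_closure hM) _ h
    rw [← mul_smul, ← mul_assoc, cand_sq M hMc, one_mul] at h3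
    exact hy h3
  have hn' : normSq ((M * g : GLC) 1 0 : ℂ) = n := by
    have h1 := (low_DD M g hMc).1 hyDD
    have h2 := not_lt.1 ((low_DI M g hMc).not.1 hyDI)
    rw [← hn, normSq_eq_norm_sq, normSq_eq_norm_sq, le_antisymm h1 h2]
  obtain ⟨M', hM', U', hU', hyU', hyDD', _, hUall'⟩ := keyK J hJ hmax z n ih (M * g) hMg hn' hy'
  have hMM : M' = M := by
    by_contra hne
    apply Set.disjoint_left.1 (hJ.2.2.2.1 M' hM' M hM hne) hyDD'
    rw [mul_smul, smul_DD M hMc]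
    exact hyDI
  subst hMM
  obtain ⟨v, hvq, hv⟩ := DD_bd M' hMc
  -- the window
  have hWo : IsOpen (U ∩ act M' U') := hU.inter (act_isOpen.2 hU')
  have hyW : g • (∞ : OnePoint ℂ) ∈ U ∩ act M' U' := by
    refine ⟨hyU, ?_⟩
    rw [mem_act, cand_inv M' hMc, ← mul_smul]
    exact hyU'
  have hKc : IsClosed (K0 ∪ act M' K0 ∪ {(∞ : OnePoint ℂ)} ∪ {M' • (∞ : OnePoint ℂ)}) :=
    ((K0_closed.union (act_isClosed.2 K0_closed)).union isClosed_singleton).union isClosed_singleton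
  have hKcount : ∀ S ∈ PP, ((K0 ∪ act M' K0 ∪ {(∞ : OnePoint ℂ)} ∪ {M' • (∞ : OnePoint ℂ)}) ∩ S).Countable := by
    intro S hS
    rw [Set.union_inter_distrib_right, Set.union_inter_distrib_right, Set.union_inter_distrib_right]
    refine (((K0_count S hS).union ?_).union ?_).union ?_
    · have : act M' K0 ∩ S = act M' (K0 ∩ act M' S) := by
        rw [act_inter, act_act_cand M' hMc]
      rw [this]
      exact (K0_count _ (G0_PP _ hMc.1 S hS)).image _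
    · exact (Set.countable_singleton _).mono Set.inter_subset_left
    · exact (Set.countable_singleton _).mono Set.inter_subset_left
  have hbd : ∀ y ∈ X0, y ∈ U ∩ act M' U' →
      y ∉ (K0 ∪ act M' K0 ∪ {(∞ : OnePoint ℂ)} ∪ {M' • (∞ : OnePoint ℂ)}) → y ∈ cirV v := by
    intro y hyX hyW2 hyK
    simp only [Set.mem_union, Set.mem_singleton_iff, not_or] at hyK
    obtain ⟨⟨⟨k1, k2⟩, k3⟩, k4⟩ := hyK
    rw [hv]
    refine ⟨hUall y hyX hyW2.1 k3 k1, ?_⟩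
    rw [← smul_DD M' hMc]
    apply hUall' _ (G0_X0 M' hMc.1 y hyX)
    · have := hyW2.2
      rwa [mem_act, cand_inv M' hMc] at this
    · intro h
      apply k4
      rw [← h, ← mul_smul, cand_sq M' hMc, one_smul]
    · intro h
      apply k2
      rw [mem_act, cand_inv M' hMc]
      exact h
  have hcirc : ∀ k : GLC, act k Rhat ∈ PP → g • (∞ : OnePoint ℂ) ∈ act k Rhat →
      act k Rhat = cirV v := by
    intro k hk hgk
    apply eq_of_inf k v hvq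
    intro hfin
    obtain ⟨y, hyX, hyS, hyW2, hyK⟩ := para_dense _ hk _
      ((K0 ∪ act M' K0 ∪ {(∞ : OnePoint ℂ)} ∪ {M' • (∞ : OnePoint ℂ)}) ∪ (act k Rhat ∩ cirV v))
      hWo ⟨_, hyW, hgk⟩ (hKc.union hfin.isClosed) (by
        rw [Set.union_inter_distrib_right]
        exact (hKcount _ hk).union (hfin.countable.mono Set.inter_subset_left))
    apply hyK
    right
    refine ⟨hyS, hbd y hyX hyW2 ?_⟩
    intro h; exact hyK (Or.inl h)
  obtain ⟨hP1, hP2, hy1, hy2⟩ := base_circ g hg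
  have e1 := hcirc g hP1 hy1
  have e2 : act g C2 = cirV v := by
    have : act g C2 = act (g * gr) Rhat := by rw [act_mul]; rfl
    rw [this] at hP2 hy2 ⊢
    exact hcirc (g * gr) hP2 hy2
  rw [← e2, act_inj] at e1
  exact Rhat_ne_C2 e1

lemma lim_sup (J : Set GLC) (hJ : Adm J) (hmax : ∀ J', Adm J' → J ⊆ J' → J' = J) (z : Ch) :
    Lam ⊆ derivedSet (orb (Subgroup.closure J) z) := by
  have hX : X0 ⊆ derivedSet (orb (Subgroup.closure J) z) := by
    rintro y ⟨g, hg, rfl⟩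
    obtain ⟨n, hn⟩ := GI_normSq _ ((G0_int g hg).1 1 0)
    exact X0_L J hJ hmax z n g hg hn
  have hcl : IsClosed (derivedSet (orb (Subgroup.closure J) z)) := isClosed_derivedSet _
  apply closure_minimal _ hcl
  rintro p ⟨S, hS, hp⟩
  apply hcl.closure_subset_iff.2 hX
  rw [mem_closure_iff]
  intro U hU hpU
  obtain ⟨y, hyX, _, hyU, _⟩ := para_dense S hS U ∅ hU ⟨p, hpU, hp⟩ isClosed_empty (by simp)
  exact ⟨y, hyU, hyX⟩

lemma Gamma_le (J : Set GLC) (hJ : Adm J) : Subgroup.closure J ≤ G0 :=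
  (Subgroup.closure_le _).2 (fun M hM => (hJ.2.2.1 M hM).1)

/-- the limit set -/
lemma lim_eq (J : Set GLC) (hJ : Adm J) (hmax : ∀ J', Adm J' → J ⊆ J' → J' = J) (z : Ch) :
    derivedSet {w : Ch | ∃ g ∈ Subgroup.closure J, w = g • z} = Lam :=
  Set.Subset.antisymm (lim_sub _ (Gamma_le J hJ) z) (lim_sup J hJ hmax z)

end Pool.Agent.Lib.MP_cc6c48_an
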