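import Pool.Agent.Lib.MP_cc6c48_an.Tree

/-! The packing: invariance, and every circle is an image of the real line under the group. -/

set_option autoImplicit false

open OnePoint Topology Filter Complex ComplexConjugate

namespace Pool.Agent.Lib.MP_cc6c48_an

lemma PP_fam : IsFam Rhat C2 C3 C4 PP := by
  refine ⟨fun F hF => hF.1, fun F hF => hF.2.1, fun F hF => hF.2.2.1, fun F hF => hF.2.2.2.1, ?_⟩
  intro S hS T hT U hU V hV h1 h2 h3 h4 h5 h6 h7 F hF
  exact hF.2.2.2.2 S (hS F hF) T (hT F hF) U (hU F hF) V hV h1 h2 h3 h4 h5 h6 h7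

lemma PP_min (F : Set (Set Ch)) (hF : IsFam Rhat C2 C3 C4 F) : PP ⊆ F := fun _ hS => hS F hF

lemma C2_cirV : C2 = cirV ⟨0, 0, 1, 2⟩ := by
  rw [← cz_e1]; unfold cz; congr 1; ext <;> simp [rv, e]

lemma C3_cirV : C3 = cirV ⟨2, 0, 1, 0⟩ := by
  rw [← cz_e2]; unfold cz; congr 1; ext <;> simp [rv, e]

lemma C4_cirV : C4 = cirV ⟨2, 2, 1, 2⟩ := by
  rw [← cz_e3]; unfold cz; congr 1; ext <;> simp [rv, e]

lemma infty_mem_C2 : (∞ : OnePoint ℂ) ∈ C2 := by
  rw [C2_cirV, infty_mem_cirV]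

lemma infty_notMem_C3 : (∞ : OnePoint ℂ) ∉ C3 := by
  rw [C3_cirV, infty_mem_cirV]; norm_num

lemma infty_notMem_C4 : (∞ : OnePoint ℂ) ∉ C4 := by
  rw [C4_cirV, infty_mem_cirV]; norm_num

lemma Rhat_inter_C2 : Rhat ∩ C2 = {(∞ : OnePoint ℂ)} := by
  ext p
  induction p using OnePoint.rec with
  | infty => simp [infty_mem_Rhat, infty_mem_C2]
  | coe z =>
    rw [Set.mem_inter_iff, mem_Rhat_coe, C2_cirV, coe_mem_cirV]
    simp only [Set.mem_singleton_iff, coe_ne_infty, iff_false]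
    rintro ⟨h1, h2⟩
    simp only [h1] at h2
    norm_num at h2

lemma gT_R : act gT Rhat = Rhat := by
  rw [← cz_e0, act_gT]; congr 1
lemma gw_R : act gw Rhat = Rhat := by
  rw [← cz_e0, act_gw]; congr 1
lemma gT_C2 : act gT C2 = C2 := by
  rw [← cz_e1, act_gT]; congr 1
lemma gr_C2 : act gr C2 = Rhat := by
  rw [← cz_e1, ← cz_e0, act_gr]; congr 1
lemma gr_C3 : act gr C3 = C3 := by
  rw [← cz_e2, act_gr]; congr 1
lemma gw_C3 : act gw C3 = C2 := by
  rw [← cz_e2, ← cz_e1, act_gw]; congr 1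
lemma C4_w : act gw (act gT⁻¹ C3) = C4 := by
  have h : act gT⁻¹ C3 = cz (2, -2, 1, 2) := by
    rw [← eq_act_iff, act_gT, ← cz_e2]; congr 1
  rw [h, act_gw, ← cz_e3]; congr 1
lemma gr_C4 : act gr C4 = act gT⁻¹ C3 := by
  have h : act gT⁻¹ C3 = cz (2, -2, 1, 2) := by
    rw [← eq_act_iff, act_gT, ← cz_e2]; congr 1
  rw [h, ← cz_e3, act_gr]; congr 1

lemma gTi_R : act gT⁻¹ Rhat = Rhat := by rw [← eq_act_iff, gT_R]
lemma gTi_C2 : act gT⁻¹ C2 = C2 := by rw [← eq_act_iff, gT_C2]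
lemma gTi_C4 : act gT⁻¹ C4 = C3 := by rw [← eq_act_iff]; rfl
lemma gwi_R : act gw⁻¹ Rhat = Rhat := by rw [← eq_act_iff, gw_R]
lemma gwi_C2 : act gw⁻¹ C2 = C3 := by rw [← eq_act_iff, gw_C3]
lemma gwi_C3 : act gw⁻¹ C3 = C2 := by rw [← eq_act_iff]; rfl
lemma gri_R : act gr⁻¹ Rhat = C2 := by rw [← eq_act_iff, gr_C2]
lemma gri_C2 : act gr⁻¹ C2 = Rhat := by rw [← eq_act_iff]; rfl
lemma gri_C3 : act gr⁻¹ C3 = C3 := by rw [← eq_act_iff, gr_C3]

lemma act_gi (S : Set Ch) : act gi S = S := by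
  ext p
  rw [mem_act]
  have : gi • p = p := by
    induction p using OnePoint.rec with
    | infty => rw [smul_infty_eq_ite]; simp [gi, mk]
    | coe z => rw [smul_some_eq_ite]; simp [gi, mk]
  have h2 : gi⁻¹ • p = p := by rw [inv_smul_eq_iff, this]
  rw [h2]

lemma tan_symm {S T : Set Ch} (h : ∃! p, p ∈ S ∩ T) : ∃! p, p ∈ T ∩ S := by
  rwa [Set.inter_comm]

lemma t12 : ∃! p, p ∈ Rhat ∩ C2 := by
  rw [Rhat_inter_C2]; exact ⟨∞, rfl, fun _ h => h⟩

lemma t13 : ∃! p, p ∈ Rhat ∩ C3 := by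
  have := (tan_act gw Rhat C2).2 t12
  rwa [gw_R] at this

lemma t14 : ∃! p, p ∈ Rhat ∩ C4 := by
  have := (tan_act gT Rhat C3).2 t13
  rwa [gT_R] at this

lemma t23 : ∃! p, p ∈ C2 ∩ C3 := by
  have := (tan_act gr Rhat C3).2 t13
  rwa [gr_C3] at this

lemma t24 : ∃! p, p ∈ C2 ∩ C4 := by
  have := (tan_act gT C2 C3).2 t23
  rwa [gT_C2] at this

lemma t34 : ∃! p, p ∈ C3 ∩ C4 := by
  have := (tan_act gT⁻¹ C2 C3).2 t23
  have := (tan_act gw _ _).2 this
  rw [gTi_C2, C4_w] at this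
  exact this

lemma e123 : Rhat ∩ C2 ∩ C3 = ∅ := by
  rw [Rhat_inter_C2, Set.singleton_inter_eq_empty]; exact infty_notMem_C3

lemma e124 : Rhat ∩ C2 ∩ C4 = ∅ := by
  rw [Rhat_inter_C2, Set.singleton_inter_eq_empty]; exact infty_notMem_C4

lemma e134 : Rhat ∩ C3 ∩ C4 = ∅ := by
  have : act gw (act gT⁻¹ (Rhat ∩ C2 ∩ C3)) = ∅ := by rw [e123]; simp [act]
  rw [act_inter, act_inter, act_inter, act_inter, gTi_R, gTi_C2, gw_R, C4_w] at this
  exact this

lemma e234 : C2 ∩ C3 ∩ C4 = ∅ := by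
  have h1 : act gT⁻¹ (Rhat ∩ C3 ∩ C4) = ∅ := by rw [e134]; simp [act]
  rw [act_inter, act_inter, gTi_R, gTi_C4] at h1
  have h2 : act gr (C2 ∩ C3 ∩ C4) = ∅ := by
    rw [act_inter, act_inter, gr_C2, gr_C3, gr_C4]
    rw [← h1]
    ext p; simp only [Set.mem_inter_iff]; tauto
  exact (act_empty_iff _ _).1 h2

/-- the closure rule of the packing, transported -/
lemma rule (g : GLC) (S T U W : Set Ch) (h1 : act g S ∈ PP) (h2 : act g T ∈ PP) (h3 : act g U ∈ PP)
    (hW : ∃ h : GLC, W = act h Rhat)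
    (a1 : ∃! p, p ∈ S ∩ T) (a2 : ∃! p, p ∈ T ∩ U) (a3 : ∃! p, p ∈ S ∩ U) (a4 : S ∩ T ∩ U = ∅)
    (a5 : ∃! p, p ∈ W ∩ S) (a6 : ∃! p, p ∈ W ∩ T) (a7 : ∃! p, p ∈ W ∩ U) : act g W ∈ PP := by
  obtain ⟨h, rfl⟩ := hW
  refine PP_fam.2.2.2.2 _ h1 _ h2 _ h3 _ ⟨g * h, (act_mul _ _ _).symm⟩ ((tan_act _ _ _).2 a1)
    ((tan_act _ _ _).2 a2) ((tan_act _ _ _).2 a3) ?_ ((tan_act _ _ _).2 a5)
    ((tan_act _ _ _).2 a6) ((tan_act _ _ _).2 a7)
  rw [← act_inter, ← act_inter, a4]; simp [act]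

lemma C2_circ : ∃ h : GLC, C2 = act h Rhat := ⟨gr, rfl⟩
lemma C3_circ : ∃ h : GLC, C3 = act h Rhat := ⟨gw * gr, by rw [act_mul]; rfl⟩
lemma C4_circ : ∃ h : GLC, C4 = act h Rhat := ⟨gT * (gw * gr), by rw [act_mul, act_mul]; rfl⟩

lemma rule4 (g : GLC) (h1 : act g Rhat ∈ PP) (h2 : act g C2 ∈ PP) (h3 : act g C3 ∈ PP) :
    act g C4 ∈ PP :=
  rule g _ _ _ _ h1 h2 h3 C4_circ t12 t23 t13 e123 (tan_symm t14) (tan_symm t24) (tan_symm t34)

lemma rule3 (g : GLC) (h1 : act g Rhat ∈ PP) (h2 : act g C2 ∈ PP) (h3 : act g C4 ∈ PP) :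
    act g C3 ∈ PP :=
  rule g _ _ _ _ h1 h2 h3 C3_circ t12 t24 t14 e124 (tan_symm t13) (tan_symm t23) t34

lemma R_mem : Rhat ∈ PP := PP_fam.1
lemma C2_mem : C2 ∈ PP := PP_fam.2.1
lemma C3_mem : C3 ∈ PP := PP_fam.2.2.1
lemma C4_mem : C4 ∈ PP := PP_fam.2.2.2.1

lemma PP_act (g : GLC) (h1 : act g Rhat ∈ PP) (h2 : act g C2 ∈ PP) (h3 : act g C3 ∈ PP)
    (h4 : act g C4 ∈ PP) (S : Set Ch) (hS : S ∈ PP) : act g S ∈ PP := by
  have hF : IsFam Rhat C2 C3 C4 {S | act g S ∈ PP} := by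
    refine ⟨h1, h2, h3, h4, ?_⟩
    intro S hS T hT U hU V hV a1 a2 a3 a4 a5 a6 a7
    exact rule g S T U V hS hT hU hV a1 a2 a3 a4 a5 a6 a7
  exact PP_min _ hF hS

lemma gT_PP (S : Set Ch) (hS : S ∈ PP) : act gT S ∈ PP := by
  have h1 : act gT Rhat ∈ PP := by rw [gT_R]; exact R_mem
  have h2 : act gT C2 ∈ PP := by rw [gT_C2]; exact C2_mem
  have h3 : act gT C3 ∈ PP := C4_mem
  exact PP_act gT h1 h2 h3 (rule4 gT h1 h2 h3) S hS

lemma gTi_PP (S : Set Ch) (hS : S ∈ PP) : act gT⁻¹ S ∈ PP := by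
  have h1 : act gT⁻¹ Rhat ∈ PP := by rw [gTi_R]; exact R_mem
  have h2 : act gT⁻¹ C2 ∈ PP := by rw [gTi_C2]; exact C2_mem
  have h3 : act gT⁻¹ C4 ∈ PP := by rw [gTi_C4]; exact C3_mem
  exact PP_act _ h1 h2 (rule3 _ h1 h2 h3) h3 S hS

lemma gw_PP (S : Set Ch) (hS : S ∈ PP) : act gw S ∈ PP := by
  have h1 : act gw Rhat ∈ PP := by rw [gw_R]; exact R_mem
  have h2 : act gw C2 ∈ PP := C3_mem
  have h3 : act gw C3 ∈ PP := by rw [gw_C3]; exact C2_mem
  exact PP_act _ h1 h2 h3 (rule4 _ h1 h2 h3) S hS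

lemma gwi_PP (S : Set Ch) (hS : S ∈ PP) : act gw⁻¹ S ∈ PP := by
  have h1 : act gw⁻¹ Rhat ∈ PP := by rw [gwi_R]; exact R_mem
  have h2 : act gw⁻¹ C2 ∈ PP := by rw [gwi_C2]; exact C3_mem
  have h3 : act gw⁻¹ C3 ∈ PP := by rw [gwi_C3]; exact C2_mem
  exact PP_act _ h1 h2 h3 (rule4 _ h1 h2 h3) S hS

lemma gr_PP (S : Set Ch) (hS : S ∈ PP) : act gr S ∈ PP := by
  have h1 : act gr Rhat ∈ PP := C2_mem
  have h2 : act gr C2 ∈ PP := by rw [gr_C2]; exact R_mem
  have h3 : act gr C3 ∈ PP := by rw [gr_C3]; exact C3_mem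
  exact PP_act _ h1 h2 h3 (rule4 _ h1 h2 h3) S hS

lemma gri_PP (S : Set Ch) (hS : S ∈ PP) : act gr⁻¹ S ∈ PP := by
  have h1 : act gr⁻¹ Rhat ∈ PP := by rw [gri_R]; exact C2_mem
  have h2 : act gr⁻¹ C2 ∈ PP := by rw [gri_C2]; exact R_mem
  have h3 : act gr⁻¹ C3 ∈ PP := by rw [gri_C3]; exact C3_mem
  exact PP_act _ h1 h2 h3 (rule4 _ h1 h2 h3) S hS

lemma G0_PP (g : GLC) (hg : g ∈ G0) (S : Set Ch) (hS : S ∈ PP) : act g S ∈ PP := by
  have key : (∀ S ∈ PP, act g S ∈ PP) ∧ (∀ S ∈ PP, act g⁻¹ S ∈ PP) := by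
    induction hg using Subgroup.closure_induction with
    | mem x hx =>
      rcases hx with rfl | rfl | rfl | rfl
      · exact ⟨gT_PP, gTi_PP⟩
      · exact ⟨gw_PP, gwi_PP⟩
      · exact ⟨gr_PP, gri_PP⟩
      · refine ⟨fun S hS => by rwa [act_gi], fun S hS => ?_⟩
        have : act gi⁻¹ S = S := by rw [← eq_act_iff, act_gi]
        rwa [this]
    | one => exact ⟨fun S hS => by rwa [act_one], fun S hS => by rwa [inv_one, act_one]⟩
    | mul x y _ _ hx hy =>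
      refine ⟨fun S hS => ?_, fun S hS => ?_⟩
      · rw [act_mul]; exact hx.1 _ (hy.1 _ hS)
      · rw [mul_inv_rev, act_mul]; exact hy.2 _ (hx.2 _ hS)
    | inv x _ hx =>
      refine ⟨hx.2, fun S hS => ?_⟩
      rw [inv_inv]; exact hx.1 _ hS
  exact key.1 S hS

lemma G0_PP_iff (g : GLC) (hg : g ∈ G0) (S : Set Ch) : S ∈ PP ↔ act g S ∈ PP := by
  refine ⟨G0_PP g hg S, fun h => ?_⟩
  have := G0_PP g⁻¹ (G0.inv_mem hg) _ h
  rwa [act_inv_act] at this

lemma M0_R (g : GLC) (hg : g ∈ M0) : act g Rhat = Rhat := by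
  induction hg using Subgroup.closure_induction with
  | mem x hx =>
    rcases hx with rfl | rfl
    · exact gT_R
    · exact gw_R
  | one => exact act_one _
  | mul x y _ _ hx hy => rw [act_mul, hy, hx]
  | inv x _ hx => rw [← eq_act_iff, hx]

lemma Rhat_not_tan : ¬ ∃! p, p ∈ Rhat ∩ Rhat := by
  rintro ⟨p, _, hu⟩
  have h1 := hu ∞ ⟨infty_mem_Rhat, infty_mem_Rhat⟩
  have h0 : ((0 : ℂ) : OnePoint ℂ) ∈ Rhat := (mem_Rhat_coe 0).2 rfl
  have h2 := hu _ ⟨h0, h0⟩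
  rw [← h1] at h2
  exact coe_ne_infty _ h2

lemma tanR (g : GLC) (hg : g ∈ G0) (h : ∃! p, p ∈ Rhat ∩ act g Rhat) :
    ∃ β ∈ M0, act g Rhat = act β C2 := by
  rcases classify g hg with h1 | ⟨v, h1, h2, h3⟩
  · rw [h1] at h; exact absurd h Rhat_not_tan
  · rcases h3 with h3 | h3
    · exact h3.2
    · exfalso
      rw [h1] at h
      have h4 := tan_real _ h
      simp only [rv] at h4
      have h5 : v.2.1 ^ 2 = v.1 * v.2.2.2 := by exact_mod_cast h4
      unfold qz at h2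
      unfold yz at h3
      nlinarith

lemma act_gT_zpow (n : ℤ) : act (gT ^ n) C3 = cz (2, 2 * n, 1, 2 * n ^ 2) := by
  induction n using Int.induction_on with
  | zero =>
    rw [zpow_zero, act_one, ← cz_e2]; congr 1
  | succ n ih =>
    rw [zpow_add_one, (Commute.self_zpow gT n).symm.eq] 
    rw [act_mul, ih, act_gT]
    congr 1
    simp [LT]
    constructor <;> ring
  | pred n ih =>
    rw [zpow_sub_one, (Commute.self_zpow gT (-n)).inv_left.symm.eq, act_mul, ← eq_act_iff, ih,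
      act_gT]
    congr 1
    simp [LT]
    constructor <;> ring

lemma tan2 (g : GLC) (hg : g ∈ G0) (h : ∃! p, p ∈ Rhat ∩ act g Rhat)
    (h' : ∃! p, p ∈ C2 ∩ act g Rhat) (hi : (∞ : OnePoint ℂ) ∉ act g Rhat) :
    ∃ n : ℤ, act g Rhat = act (gT ^ n) C3 := by
  rcases classify g hg with h1 | ⟨v, h1, h2, h3⟩
  · rw [h1] at h; exact absurd h Rhat_not_tan
  · rw [h1] at h h' hi
    have h4 := tan_real _ h
    simp only [rv] at h4
    have h5 : v.2.1 ^ 2 = v.1 * v.2.2.2 := by exact_mod_cast h4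
    have hy : v.2.2.1 = 1 := by
      rcases h3 with h3 | h3
      · exact h3.1
      · exfalso
        unfold qz at h2
        unfold yz at h3
        nlinarith
    have h6 := (tan_act gr _ _).2 h'
    rw [gr_C2, act_gr] at h6
    have h7 := tan_real _ h6
    simp only [rv, Lr] at h7
    have h8 : (-v.2.1) ^ 2 = v.1 * (v.2.2.2 - 2 * v.2.2.1 + v.1) := by exact_mod_cast h7
    rw [hy] at h8
    have h9 : v.1 * (v.1 - 2) = 0 := by linear_combination -h8 + h5
    have hb : v.1 ≠ 0 := by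
      intro hb; apply hi
      show ((rv v).b = 0)
      simp [rv, hb]
    have hb2 : v.1 = 2 := by
      have := (mul_eq_zero.1 h9).resolve_left hb
      omega
    rw [hb2] at h5
    have hx : Even v.2.1 := by
      have : Even (v.2.1 ^ 2) := by rw [h5]; exact even_two_mul _
      exact (Int.even_pow' (by norm_num)).1 this
    obtain ⟨n, hn⟩ := hx
    refine ⟨n, ?_⟩
    rw [h1, act_gT_zpow]
    congr 1
    have hc : v.2.2.2 = 2 * n ^ 2 := by
      rw [hn] at h5; nlinarith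
    ext
    · exact hb2
    · simp only; rw [hn]; ring
    · exact hy
    · exact hc

lemma inf_circ (g : GLC) : (act g Rhat).Infinite := by
  apply Set.Infinite.image
  · intro a _ b _ h; exact MulAction.injective g h
  · apply Set.Infinite.mono (Set.subset_insert _ _)
    apply Set.infinite_range_of_injective
    intro a b hab
    have := coe_injective hab
    exact_mod_cast this

lemma not_tan_self (g : GLC) : ¬ ∃! p, p ∈ act g Rhat ∩ act g Rhat := by
  rintro ⟨p, _, hu⟩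
  rw [Set.inter_self] at hu
  apply inf_circ g
  apply Set.Finite.subset (Set.finite_singleton p)
  intro q hq; exact hu q hq

lemma tan3 (g : GLC) (h1 : ∃! p, p ∈ act g Rhat ∩ Rhat) (h2 : ∃! p, p ∈ act g Rhat ∩ C2)
    (h3 : ∃! p, p ∈ act g Rhat ∩ C3) : act g Rhat = act gT C3 ∨ act g Rhat = act gT⁻¹ C3 := by
  obtain ⟨v, hq, he⟩ := act_Rhat_eq g
  have hns := not_tan_self g
  have a1 := tan_symm h1
  rw [he] at a1
  have b1 := tan_real v a1
  have hy : v.y ≠ 0 := by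
    intro hy; rw [Vec.q, b1, hy] at hq; norm_num at hq
  -- normalise
  obtain ⟨b, x, c, hbe, hxe⟩ : ∃ b x c : ℝ, act g Rhat = cirV ⟨b, x, 1, c⟩ ∧ x ^ 2 = b * c := by
    refine ⟨v.y⁻¹ * v.b, v.y⁻¹ * v.x, v.y⁻¹ * v.c, ?_, ?_⟩
    · rw [he, ← cirV_smul v v.y⁻¹ (inv_ne_zero hy), inv_mul_cancel₀ hy]
    · linear_combination (v.y⁻¹) ^ 2 * b1
  have a2 := (tan_act gr _ _).2 (tan_symm h2)
  rw [gr_C2, hbe, act_cirV] at a2
  have b2 := tan_real _ a2
  simp [vact, vom, gr, mk] at b2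
  have b3 : b * (b - 2) = 0 := by linear_combination -b2 + hxe
  by_cases hb : b = 0
  · exfalso
    subst hb
    have hx : x = 0 := by
      have : x ^ 2 = 0 := by rw [hxe]; ring
      exact pow_eq_zero_iff (by norm_num) |>.1 this
    subst hx
    -- horizontal line im z = c / 2, meets C3 in exactly one point
    obtain ⟨p, ⟨hp1, hp2⟩, hu⟩ := h3
    rw [hbe, C3_cirV] at hu
    rw [hbe] at hp1
    rw [C3_cirV] at hp2
    induction p using OnePoint.rec with
    | infty => rw [infty_mem_cirV] at hp2; norm_num at hp2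
    | coe z =>
      rw [coe_mem_cirV] at hp1 hp2
      simp only at hp1 hp2
      have hz : (((⟨-z.re, z.im⟩ : ℂ)) : OnePoint ℂ) = (z : OnePoint ℂ) := by
        apply hu
        constructor
        · rw [coe_mem_cirV]; simp only; linarith
        · rw [coe_mem_cirV]; simp only [normSq_apply] at hp2 ⊢; linarith
      have hz2 : (⟨-z.re, z.im⟩ : ℂ) = z := coe_injective hz
      have hz3 : z.re = 0 := by
        have := congrArg Complex.re hz2; simp at this; linarith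
      have hz4 : z.im = c / 2 := by linarith
      simp only [normSq_apply, hz3, hz4] at hp2
      have hc : c * (c - 2) = 0 := by linarith
      rcases mul_eq_zero.1 hc with hc | hc
      · apply hns
        have : act g Rhat = Rhat := by
          rw [hbe, Rhat_eq, ← cirV_smul v0 (-1) (by norm_num)]
          congr 1; ext <;> simp [v0, hc]
        nth_rewrite 2 [this]
        exact h1
      · apply hns
        have : act g Rhat = C2 := by
          rw [hbe, C2_cirV]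
          congr 1
          have : c = 2 := by linarith
          rw [this]
        nth_rewrite 2 [this]
        exact h2
  · have hb2 : b = 2 := by
      have := (mul_eq_zero.1 b3).resolve_left hb
      linarith
    subst hb2
    have hc : c = x ^ 2 / 2 := by linarith
    subst hc
    obtain ⟨p, ⟨hp1, hp2⟩, hu⟩ := h3
    rw [hbe] at hp1
    rw [C3_cirV] at hp2
    by_cases hx : x = 0
    · exfalso
      apply hns
      have : act g Rhat = C3 := by
        rw [hbe, C3_cirV, hx]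
        congr 1
        norm_num
      nth_rewrite 2 [this]
      exact ⟨p, ⟨by rw [hbe]; exact hp1, by rw [C3_cirV]; exact hp2⟩, hu⟩
    · rw [hbe, C3_cirV] at hu
      induction p using OnePoint.rec with
      | infty => rw [infty_mem_cirV] at hp2; norm_num at hp2
      | coe z =>
        rw [coe_mem_cirV] at hp1 hp2
        simp only at hp1 hp2
        have hz : (((⟨z.re, 1 - z.im⟩ : ℂ)) : OnePoint ℂ) = (z : OnePoint ℂ) := by
          apply hu
          constructor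
          · rw [coe_mem_cirV]; simp only [normSq_apply] at hp1 ⊢; linarith
          · rw [coe_mem_cirV]; simp only [normSq_apply] at hp2 ⊢; linarith
        have hz2 : (⟨z.re, 1 - z.im⟩ : ℂ) = z := coe_injective hz
        have hz3 : z.im = 1 / 2 := by
          have := congrArg Complex.im hz2; simp at this; linarith
        simp only [normSq_apply, hz3] at hp1 hp2
        have hz4 : x * (z.re - x / 4) = 0 := by linarith
        have hz5 : z.re = x / 4 := by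
          have := (mul_eq_zero.1 hz4).resolve_left hx
          linarith
        rw [hz5] at hp2
        have hx2 : (x - 2) * (x + 2) = 0 := by linarith
        have e1 : act gT C3 = cirV ⟨2, 2, 1, 2⟩ := C4_cirV
        have e2 : act gT⁻¹ C3 = cirV ⟨2, -2, 1, 2⟩ := by
          have h : act gT⁻¹ C3 = cz (2, -2, 1, 2) := by
            rw [← eq_act_iff, act_gT, ← cz_e2]; congr 1
          rw [h]; unfold cz; congr 1; ext <;> simp [rv]
        rw [e1, e2, hbe]
        rcases mul_eq_zero.1 hx2 with h | h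
        · left
          have : x = 2 := by linarith
          rw [this]; congr 1; norm_num
        · right
          have : x = -2 := by linarith
          rw [this]; congr 1; norm_num

/-- every circle of the packing is an image of the real line -/
lemma PP_orbit (S : Set Ch) (hS : S ∈ PP) : ∃ g ∈ G0, S = act g Rhat := by
  have hT : gT ∈ G0 := Subgroup.subset_closure (Or.inl rfl)
  have hw : gw ∈ G0 := Subgroup.subset_closure (Or.inr (Or.inl rfl))
  have hr : gr ∈ G0 := Subgroup.subset_closure (Or.inr (Or.inr (Or.inl rfl)))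
  have f3 : ∃ g ∈ G0, C3 = act g Rhat :=
    ⟨gw * gr, G0.mul_mem hw hr, by rw [act_mul]; rfl⟩
  have hF : IsFam Rhat C2 C3 C4 {S | ∃ g ∈ G0, S = act g Rhat} := by
    refine ⟨⟨1, G0.one_mem, (act_one _).symm⟩, ⟨gr, hr, rfl⟩, f3,
      ⟨gT * (gw * gr), G0.mul_mem hT (G0.mul_mem hw hr), by rw [act_mul, act_mul]; rfl⟩, ?_⟩
    rintro S ⟨g, hg, rfl⟩ T ⟨t, ht, rfl⟩ U ⟨u, hu, rfl⟩ V' ⟨v, rfl⟩ a1 a2 a3 a4 a5 a6 a7
    -- pull back by g
    rw [← tan_act g⁻¹, act_inv_act] at a1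
    rw [← tan_act g⁻¹] at a2
    rw [← tan_act g⁻¹, act_inv_act] at a3
    rw [← act_empty_iff g⁻¹, act_inter, act_inter, act_inv_act] at a4
    rw [← tan_act g⁻¹, act_inv_act] at a5
    rw [← tan_act g⁻¹] at a6 a7
    rw [← act_mul g⁻¹] at a1 a2 a3 a4 a5 a6 a7
    rw [← act_mul g⁻¹] at a2 a4 a6 a7
    have ht' : g⁻¹ * t ∈ G0 := G0.mul_mem (G0.inv_mem hg) ht
    have hu' : g⁻¹ * u ∈ G0 := G0.mul_mem (G0.inv_mem hg) hu
    obtain ⟨β, hβ, hβe⟩ := tanR _ ht' a1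
    have hβ' : β⁻¹ ∈ M0 := M0.inv_mem hβ
    have hβR := M0_R _ hβ'
    rw [hβe] at a2 a4 a6
    rw [← tan_act β⁻¹, act_inv_act] at a2
    rw [← tan_act β⁻¹, hβR] at a3
    rw [← act_empty_iff β⁻¹, act_inter, act_inter, act_inv_act, hβR] at a4
    rw [← tan_act β⁻¹, hβR] at a5
    rw [← tan_act β⁻¹, act_inv_act] at a6
    rw [← tan_act β⁻¹] at a7
    rw [← act_mul β⁻¹] at a2 a3 a4 a5 a6 a7
    rw [← act_mul β⁻¹] at a7
    have hu'' : β⁻¹ * (g⁻¹ * u) ∈ G0 := G0.mul_mem (G0.inv_mem (M0_le hβ)) hu'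
    have hni : (∞ : OnePoint ℂ) ∉ act (β⁻¹ * (g⁻¹ * u)) Rhat := by
      intro hi
      have : (∞ : OnePoint ℂ) ∈ Rhat ∩ C2 ∩ act (β⁻¹ * (g⁻¹ * u)) Rhat :=
        ⟨⟨infty_mem_Rhat, infty_mem_C2⟩, hi⟩
      rw [a4] at this
      exact this
    obtain ⟨n, hn⟩ := tan2 _ hu'' a3 a2 hni
    have hnT : gT ^ n ∈ M0 := M0.zpow_mem (Subgroup.subset_closure (Or.inl rfl)) n
    have hnT' : (gT ^ n)⁻¹ ∈ M0 := M0.inv_mem hnT
    have hnR := M0_R _ hnT'
    have hnC : act (gT ^ n)⁻¹ C2 = C2 := by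
      rw [← eq_act_iff]
      have : ∀ m : ℤ, act (gT ^ m) C2 = C2 := by
        intro m
        induction m using Int.induction_on with
        | zero => rw [zpow_zero, act_one]
        | succ m ih => rw [zpow_add_one, act_mul, gT_C2, ih]
        | pred m ih => rw [zpow_sub_one, act_mul, gTi_C2, ih]
      exact (this n).symm
    rw [hn] at a7
    rw [← tan_act (gT ^ n)⁻¹, hnR, ← act_mul] at a5
    rw [← tan_act (gT ^ n)⁻¹, hnC, ← act_mul] at a6
    rw [← tan_act (gT ^ n)⁻¹, act_inv_act, ← act_mul] at a7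
    have hfin : ∀ k ∈ G0, act ((gT ^ n)⁻¹ * (β⁻¹ * (g⁻¹ * v))) Rhat = act k C3 →
        ∃ g ∈ G0, act v Rhat = act g Rhat := by
      intro k hk hke
      obtain ⟨m, hm, hme⟩ := f3
      refine ⟨g * (β * (gT ^ n * (k * m))), ?_, ?_⟩
      · exact G0.mul_mem hg (G0.mul_mem (M0_le hβ) (G0.mul_mem (M0_le hnT) (G0.mul_mem hk hm)))
      · rw [hme] at hke
        rw [act_mul, act_mul, act_mul, act_mul, ← hke, ← act_mul, ← act_mul, ← act_mul]
        congr 1
        group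
    rcases tan3 _ a5 a6 a7 with h | h
    · exact hfin gT hT h
    · exact hfin gT⁻¹ (G0.inv_mem hT) h
  exact PP_min _ hF hS

end Pool.Agent.Lib.MP_cc6c48_an
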