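import Pool.Agent.Lib.MP_cc6c48_an.Packing
import Mathlib.LinearAlgebra.Matrix.FixedDetMatrices

/-! Parabolic points are dense in every circle of the packing. -/

set_option autoImplicit false

open OnePoint Topology Filter Complex ComplexConjugate Matrix

namespace Pool.Agent.Lib.MP_cc6c48_an

/-- the modular group inside GL2(C) -/
noncomputable def phi : SpecialLinearGroup (Fin 2) ℤ →* GLC := SpecialLinearGroup.mapGL ℂ

lemma phi_apply (g : SpecialLinearGroup (Fin 2) ℤ) (i j : Fin 2) : (phi g i j : ℂ) = (g i j : ℂ) := by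
  unfold phi
  rw [SpecialLinearGroup.mapGL_coe_matrix]
  rfl

lemma phi_mem (g : SpecialLinearGroup (Fin 2) ℤ) : phi g ∈ G0 := by
  have : (⊤ : Subgroup (SpecialLinearGroup (Fin 2) ℤ)) ≤ G0.comap phi := by
    rw [← SpecialLinearGroup.SL2Z_generators, Subgroup.closure_le]
    rintro x (rfl | rfl)
    · show phi ModularGroup.S ∈ G0
      have : phi ModularGroup.S = gw := by
        apply Matrix.GeneralLinearGroup.ext
        intro i j
        rw [phi_apply]
        fin_cases i <;> fin_cases j <;> simp [gw, mk, ModularGroup.S]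
      rw [this]; exact Subgroup.subset_closure (Or.inr (Or.inl rfl))
    · show phi ModularGroup.T ∈ G0
      have : phi ModularGroup.T = gT := by
        apply Matrix.GeneralLinearGroup.ext
        intro i j
        rw [phi_apply]
        fin_cases i <;> fin_cases j <;> simp [gT, mk, ModularGroup.T]
      rw [this]; exact Subgroup.subset_closure (Or.inl rfl)
  exact this (Subgroup.mem_top g)

lemma rat_mem_X0 (q : ℚ) : (((q : ℝ) : ℂ) : OnePoint ℂ) ∈ X0 := by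
  have hc : IsCoprime q.num (q.den : ℤ) := by
    rw [Int.isCoprime_iff_gcd_eq_one]
    exact q.reduced
  obtain ⟨g, hg0, hg1⟩ := hc.exists_SL2_col 0
  refine ⟨phi g, phi_mem g, ?_⟩
  rw [smul_infty_eq_ite, phi_apply, phi_apply, hg0, hg1]
  have hd : ((q.den : ℤ) : ℂ) ≠ 0 := by exact_mod_cast q.den_ne_zero
  rw [if_neg hd]
  congr 1
  have := Rat.num_div_den q
  have h2 : ((q.num : ℂ) / (q.den : ℂ)) = (q : ℂ) := by exact_mod_cast congrArg (Rat.cast : ℚ → ℂ) this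
  push_cast
  rw [h2]

lemma G0_X0 (g : GLC) (hg : g ∈ G0) (p : Ch) (hp : p ∈ X0) : g • p ∈ X0 := by
  obtain ⟨h, hh, rfl⟩ := hp
  exact ⟨g * h, G0.mul_mem hg hh, by rw [mul_smul]⟩

lemma infty_X0 : (∞ : OnePoint ℂ) ∈ X0 := ⟨1, G0.one_mem, by rw [one_smul]⟩

lemma nhd_infty (U : Set Ch) (hU : IsOpen U) (h : (∞ : OnePoint ℂ) ∈ U) :
    ∃ R : ℝ, ∀ z : ℂ, R < ‖z‖ → (z : OnePoint ℂ) ∈ U := by
  have h1 : ∀ᶠ z : ℂ in coclosedCompact ℂ, (z : OnePoint ℂ) ∈ U :=
    OnePoint.tendsto_coe_infty.eventually (hU.mem_nhds h)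
  rw [coclosedCompact_eq_cocompact, ← Metric.cobounded_eq_cocompact, ← comap_norm_atTop,
    Filter.eventually_comap] at h1
  obtain ⟨R, hR⟩ := Filter.eventually_atTop.1 h1
  exact ⟨R, fun z hz => hR ‖z‖ hz.le z rfl⟩

lemma real_dense (U K : Set Ch) (hU : IsOpen U) (hn : (U ∩ Rhat).Nonempty) (hK : IsClosed K)
    (hc : (K ∩ Rhat).Countable) : ∃ q : ℚ, (((q : ℝ) : ℂ) : OnePoint ℂ) ∈ U ∧
      (((q : ℝ) : ℂ) : OnePoint ℂ) ∉ K := by
  have hcont : Continuous fun t : ℝ => ((t : ℂ) : OnePoint ℂ) :=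
    OnePoint.continuous_coe.comp Complex.continuous_ofReal
  have hW : IsOpen {t : ℝ | ((t : ℂ) : OnePoint ℂ) ∈ U} := hU.preimage hcont
  have hKc : IsClosed {t : ℝ | ((t : ℂ) : OnePoint ℂ) ∈ K} := hK.preimage hcont
  have hinj : Function.Injective fun t : ℝ => ((t : ℂ) : OnePoint ℂ) := by
    intro a b hab
    have := coe_injective hab
    exact_mod_cast this
  have hKcount : {t : ℝ | ((t : ℂ) : OnePoint ℂ) ∈ K}.Countable := by
    apply Set.Countable.mono _ (hc.preimage hinj)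
    intro t ht
    exact ⟨ht, (mem_Rhat_coe _).2 (by simp)⟩
  have hWn : {t : ℝ | ((t : ℂ) : OnePoint ℂ) ∈ U}.Nonempty := by
    obtain ⟨p, hp1, hp2⟩ := hn
    rcases hp2 with hp2 | ⟨t, rfl⟩
    · rw [hp2] at hp1
      obtain ⟨R, hR⟩ := nhd_infty U hU hp1
      refine ⟨|R| + 1, hR _ ?_⟩
      rw [Complex.norm_real, Real.norm_of_nonneg (by positivity)]
      have := le_abs_self R
      linarith
    · exact ⟨t, hp1⟩
  obtain ⟨t, ht1, ht2⟩ := (hKcount.dense_compl ℝ).exists_mem_open hW hWn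
  obtain ⟨q, hq⟩ := (Rat.denseRange_cast (𝕜 := ℝ)).exists_mem_open (hW.inter hKc.isOpen_compl)
    ⟨t, ht2, ht1⟩
  exact ⟨q, hq.1, hq.2⟩

/-- (P3) -/
lemma para_dense (S : Set Ch) (hS : S ∈ PP) (U K : Set Ch) (hU : IsOpen U) (hn : (U ∩ S).Nonempty)
    (hK : IsClosed K) (hc : (K ∩ S).Countable) : ∃ y ∈ X0, y ∈ S ∧ y ∈ U ∧ y ∉ K := by
  obtain ⟨g, hg, rfl⟩ := PP_orbit S hS
  have h1 : IsOpen (act g⁻¹ U) := act_isOpen.2 hU
  have h2 : IsClosed (act g⁻¹ K) := act_isClosed.2 hK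
  have h3 : (act g⁻¹ U ∩ Rhat).Nonempty := by
    have : act g⁻¹ (U ∩ act g Rhat) = act g⁻¹ U ∩ Rhat := by rw [act_inter, act_inv_act]
    rw [← this]; exact hn.image _
  have h4 : (act g⁻¹ K ∩ Rhat).Countable := by
    have : act g⁻¹ (K ∩ act g Rhat) = act g⁻¹ K ∩ Rhat := by rw [act_inter, act_inv_act]
    rw [← this]; exact hc.image _
  obtain ⟨q, hq1, hq2⟩ := real_dense _ _ h1 h3 h2 h4
  refine ⟨g • (((q : ℝ) : ℂ) : OnePoint ℂ), G0_X0 g hg _ (rat_mem_X0 q), ?_, ?_, ?_⟩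
  · rw [smul_mem_act, mem_Rhat_coe]; simp
  · rw [mem_act, inv_inv] at hq1; exact hq1
  · rw [mem_act, inv_inv] at hq2; exact hq2

/-- the packing is preserved, hence so is its closure -/
lemma Lam_act (g : GLC) (hg : g ∈ G0) : act g Lam = Lam := by
  have key : ∀ g ∈ G0, act g Lam ⊆ Lam := by
    intro g hg
    unfold Lam
    rw [act_closure]
    apply closure_mono
    rintro p ⟨q, ⟨S, hS, hq⟩, rfl⟩
    exact ⟨act g S, G0_PP g hg S hS, smul_mem_act.2 hq⟩
  apply Set.Subset.antisymm (key g hg)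
  rw [← act_subset (g := g⁻¹), act_inv_act]
  exact key _ (G0.inv_mem hg)

lemma Lam_smul (g : GLC) (hg : g ∈ G0) (p : Ch) : g • p ∈ Lam ↔ p ∈ Lam := by
  have := smul_mem_act (g := g) (S := Lam) (p := p)
  rwa [Lam_act g hg] at this

lemma Rhat_Lam : Rhat ⊆ Lam := fun p hp => subset_closure ⟨Rhat, R_mem, hp⟩

lemma X0_Lam : X0 ⊆ Lam := by
  rintro p ⟨g, hg, rfl⟩
  rw [Lam_smul g hg]
  exact Rhat_Lam infty_mem_Rhat

lemma Lam_closed : IsClosed Lam := isClosed_closure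

end Pool.Agent.Lib.MP_cc6c48_an
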