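import Pool.Agent.Lib.MP_cc6c48_an.Circles

/-! The tree of Descartes quadruples: classification of the circles `γ Rhat`, `γ` in the group. -/

set_option autoImplicit false

open OnePoint Topology Filter Complex ComplexConjugate

namespace Pool.Agent.Lib.MP_cc6c48_an

/-- integer vectors -/
abbrev V : Type := ℤ × ℤ × ℤ × ℤ

/-- the real vector of an integer vector -/
def rv (v : V) : Vec := ⟨v.1, v.2.1, v.2.2.1, v.2.2.2⟩

/-- the circle of an integer vector -/
def cz (v : V) : Set Ch := cirV (rv v)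

def LT : (V ≃ₗ[ℤ] V) where
  toFun v := (v.1, v.2.1 + v.1, v.2.2.1, v.2.2.2 + 2 * v.2.1 + v.1)
  invFun v := (v.1, v.2.1 - v.1, v.2.2.1, v.2.2.2 - 2 * v.2.1 + v.1)
  left_inv v := by ext <;> simp; ring
  right_inv v := by ext <;> simp; ring
  map_add' v w := by ext <;> simp <;> ring
  map_smul' r v := by ext <;> simp <;> ring

def Lw : (V ≃ₗ[ℤ] V) where
  toFun v := (v.2.2.2, -v.2.1, v.2.2.1, v.1)
  invFun v := (v.2.2.2, -v.2.1, v.2.2.1, v.1)
  left_inv v := by ext <;> simp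
  right_inv v := by ext <;> simp
  map_add' v w := by ext <;> simp; ring
  map_smul' r v := by ext <;> simp

def Lr : (V ≃ₗ[ℤ] V) where
  toFun v := (v.1, -v.2.1, v.1 - v.2.2.1, v.2.2.2 - 2 * v.2.2.1 + v.1)
  invFun v := (v.1, -v.2.1, v.1 - v.2.2.1, v.2.2.2 - 2 * v.2.2.1 + v.1)
  left_inv v := by ext <;> simp; ring
  right_inv v := by ext <;> simp; ring
  map_add' v w := by ext <;> simp <;> ring
  map_smul' r v := by ext <;> simp <;> ring

/-- elements of the group with their linear action -/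
noncomputable def RelG : Subgroup (GLC × (V ≃ₗ[ℤ] V)) :=
  Subgroup.closure {(gT, LT), (gw, Lw), (gr, Lr), (gi, 1)}

noncomputable def RelM : Subgroup (GLC × (V ≃ₗ[ℤ] V)) :=
  Subgroup.closure {(gT, LT), (gw, Lw)}

lemma RelM_le : RelM ≤ RelG := by
  apply Subgroup.closure_mono
  intro x hx
  rcases hx with h | h
  · left; exact h
  · right; left; exact h

lemma act_gT (v : V) : act gT (cz v) = cz (LT v) := by
  unfold cz
  rw [act_cirV]
  congr 1
  ext <;> simp [vact, vom, rv, LT, gT, mk]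
  all_goals ring

lemma act_gw (v : V) : act gw (cz v) = cz (Lw v) := by
  unfold cz
  rw [act_cirV]
  congr 1
  ext <;> simp [vact, vom, rv, Lw, gw, mk]

lemma act_gr (v : V) : act gr (cz v) = cz (Lr v) := by
  unfold cz
  rw [act_cirV]
  congr 1
  ext <;> simp [vact, vom, rv, Lr, gr, mk]
  all_goals ring

lemma act_gi_cz (v : V) : act gi (cz v) = cz v := by
  unfold cz
  rw [act_cirV]
  congr 1
  ext <;> simp [vact, vom, rv, gi, mk]

lemma rel_act (x : GLC × (V ≃ₗ[ℤ] V)) (hx : x ∈ RelG) : ∀ v : V, act x.1 (cz v) = cz (x.2 v) := by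
  induction hx using Subgroup.closure_induction with
  | mem x hx =>
    rcases hx with rfl | rfl | rfl | rfl
    · exact act_gT
    · exact act_gw
    · exact act_gr
    · exact act_gi_cz
  | one => intro v; exact act_one _
  | mul x y _ _ hx hy =>
    intro v
    show act (x.1 * y.1) (cz v) = cz (x.2 (y.2 v))
    rw [act_mul, hy, hx]
  | inv x _ hx =>
    intro v
    show act x.1⁻¹ (cz v) = cz (x.2⁻¹ v)
    have : v = x.2 (x.2⁻¹ v) := by simp
    conv_lhs => rw [this, ← hx, act_inv_act]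

def qz (v : V) : ℤ := v.2.1 ^ 2 + v.2.2.1 ^ 2 - v.1 * v.2.2.2

lemma rel_q (x : GLC × (V ≃ₗ[ℤ] V)) (hx : x ∈ RelG) : ∀ v : V, qz (x.2 v) = qz v := by
  induction hx using Subgroup.closure_induction with
  | mem x hx =>
    rcases hx with rfl | rfl | rfl | rfl
    · intro v; simp [LT, qz]; ring
    · intro v; simp [Lw, qz]; ring
    · intro v; simp [Lr, qz]; ring
    · intro v; simp
  | one => intro v; rfl
  | mul x y _ _ hx hy =>
    intro v
    show qz (x.2 (y.2 v)) = qz v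
    rw [hx, hy]
  | inv x _ hx =>
    intro v
    show qz (x.2⁻¹ v) = qz v
    rw [← hx (x.2⁻¹ v)]
    simp

/-- y coordinate -/
def yz (v : V) : ℤ := v.2.2.1

lemma rel_y (x : GLC × (V ≃ₗ[ℤ] V)) (hx : x ∈ RelM) : ∀ v : V, yz (x.2 v) = yz v := by
  induction hx using Subgroup.closure_induction with
  | mem x hx =>
    rcases hx with rfl | rfl
    · intro v; simp [LT, yz]
    · intro v; simp [Lw, yz]
  | one => intro v; rfl
  | mul x y _ _ hx hy =>
    intro v
    show yz (x.2 (y.2 v)) = yz v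
    rw [hx, hy]
  | inv x _ hx =>
    intro v
    show yz (x.2⁻¹ v) = yz v
    rw [← hx (x.2⁻¹ v)]
    simp

/-- base quadruple -/
def e : Fin 4 → V := ![(0, 0, -1, 0), (0, 0, 1, 2), (2, 0, 1, 0), (2, 2, 1, 2)]

lemma rel_e0 (x : GLC × (V ≃ₗ[ℤ] V)) (hx : x ∈ RelM) : x.2 (e 0) = e 0 := by
  induction hx using Subgroup.closure_induction with
  | mem x hx =>
    rcases hx with rfl | rfl
    · simp [LT, e]
    · simp [Lw, e]
  | one => rfl
  | mul x y _ _ hx hy =>
    show x.2 (y.2 (e 0)) = e 0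
    rw [hy, hx]
  | inv x _ hx =>
    show x.2⁻¹ (e 0) = e 0
    nth_rewrite 1 [← hx]
    simp

/-- replacing a member by the other circle tangent to the remaining three -/
def swp (i : Fin 4) (Q : Fin 4 → V) : Fin 4 → V :=
  Function.update Q i (2 • (∑ j, Q j) - 3 • Q i)

lemma swp_self (i : Fin 4) (Q : Fin 4 → V) : swp i Q i = 2 • (∑ j, Q j) - 3 • Q i := by
  simp [swp]

lemma swp_ne (i j : Fin 4) (Q : Fin 4 → V) (h : j ≠ i) : swp i Q j = Q j := by
  simp [swp, h]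

lemma swp_swp (i : Fin 4) (Q : Fin 4 → V) : swp i (swp i Q) = Q := by
  have hs : ∑ j, swp i Q j = 3 • (∑ j, Q j) - 4 • Q i := by
    rw [Finset.sum_eq_add_sum_sdiff_singleton_of_mem (Finset.mem_univ i), swp_self]
    have h2 : ∑ j ∈ Finset.univ \ {i}, swp i Q j = ∑ j ∈ Finset.univ \ {i}, Q j := by
      apply Finset.sum_congr rfl
      intro j hj
      apply swp_ne
      simpa using hj
    rw [h2]
    have h3 := Finset.sum_eq_add_sum_sdiff_singleton_of_mem (Finset.mem_univ i) Q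
    rw [h3]
    module
  funext j
  by_cases h : j = i
  · subst h
    rw [swp_self, hs, swp_self]
    module
  · rw [swp_ne _ _ _ h, swp_ne _ _ _ h]

lemma swp_map (L : (V ≃ₗ[ℤ] V)) (i : Fin 4) (Q : Fin 4 → V) :
    (fun j => L (swp i Q j)) = swp i (fun j => L (Q j)) := by
  funext j
  by_cases h : j = i
  · subst h
    rw [swp_self, swp_self, map_sub, map_nsmul, map_nsmul, map_sum]
  · rw [swp_ne _ _ _ h, swp_ne _ _ _ h]

lemma swp_perm (σ : Equiv.Perm (Fin 4)) (i : Fin 4) (Q : Fin 4 → V) :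
    (swp i Q) ∘ σ = swp (σ.symm i) (Q ∘ σ) := by
  funext j
  by_cases h : j = σ.symm i
  · subst h
    rw [swp_self]
    simp only [Function.comp_apply, Equiv.apply_symm_apply, swp_self]
    congr 2
    exact (Equiv.sum_comp σ Q).symm
  · rw [swp_ne _ _ _ h]
    simp only [Function.comp_apply]
    rw [swp_ne]
    intro h2
    apply h
    rw [← h2]; simp

lemma gT_e : (fun j => LT (e j)) = (swp 2 e) ∘ (Equiv.swap 2 3) := by decide
lemma gTi_e : (fun j => LT.symm (e j)) = (swp 3 e) ∘ (Equiv.swap 2 3) := by decide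
lemma gw_e : (fun j => Lw (e j)) = (swp 3 e) ∘ (Equiv.swap 1 2) := by decide
lemma gwi_e : (fun j => Lw.symm (e j)) = (swp 3 e) ∘ (Equiv.swap 1 2) := by decide
lemma gr_e : (fun j => Lr (e j)) = (swp 3 e) ∘ (Equiv.swap 0 1) := by decide
lemma gri_e : (fun j => Lr.symm (e j)) = (swp 3 e) ∘ (Equiv.swap 0 1) := by decide

lemma swp3_e : swp 3 e = (fun j => Lw (e (Equiv.swap 1 2 j))) := by decide
lemma swp2_e : swp 2 e = (fun j => LT (e (Equiv.swap 2 3 j))) := by decide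
lemma swp1_e : swp 1 e = (fun j => Lw (LT.symm (Lw (e (Equiv.swap 1 3 j))))) := by decide

/-- quadruples reached before the real line is replaced -/
def StA (Q : Fin 4 → V) : Prop :=
  ∃ x ∈ RelM, ∃ σ : Equiv.Perm (Fin 4), σ 0 = 0 ∧ Q = fun j => x.2 (e (σ j))

/-- quadruples reached by a reduced path containing the replacement of the real line -/
inductive StB : Fin 4 → (Fin 4 → V) → Prop
  | zero (Q : Fin 4 → V) : StA Q → StB 0 (swp 0 Q)
  | step (i j : Fin 4) (Q : Fin 4 → V) : StB j Q → i ≠ j → StB i (swp i Q)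

lemma StA_swp (Q : Fin 4 → V) (h : StA Q) (k : Fin 4) (hk : k ≠ 0) : StA (swp k Q) := by
  obtain ⟨x, hx, σ, hσ, rfl⟩ := h
  have e1 : swp k (fun j => x.2 (e (σ j))) = fun j => x.2 (swp (σ k) e (σ j)) := by
    have h2 := swp_perm σ (σ k) e
    rw [Equiv.symm_apply_apply] at h2
    have h3 := swp_map x.2 k (e ∘ σ)
    rw [← h2] at h3
    exact h3.symm
  have hk2 : σ k ≠ 0 := by
    intro h; apply hk; apply σ.injective; rw [h, hσ]
  have hT : (gT, LT) ∈ RelM := Subgroup.subset_closure (Or.inl rfl)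
  have hw : (gw, Lw) ∈ RelM := Subgroup.subset_closure (Or.inr rfl)
  have h4 : ∃ y ∈ RelM, ∃ τ : Equiv.Perm (Fin 4), τ 0 = 0 ∧ swp (σ k) e = fun j => y.2 (e (τ j)) := by
    have : ∀ i : Fin 4, i ≠ 0 → i = 1 ∨ i = 2 ∨ i = 3 := by decide
    rcases this _ hk2 with h | h | h
    · rw [h]
      exact ⟨_, RelM.mul_mem hw (RelM.mul_mem (RelM.inv_mem hT) hw), Equiv.swap 1 3, by decide, swp1_e⟩
    · rw [h]
      exact ⟨_, hT, Equiv.swap 2 3, by decide, swp2_e⟩
    · rw [h]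
      exact ⟨_, hw, Equiv.swap 1 2, by decide, swp3_e⟩
  obtain ⟨y, hy, τ, hτ, h5⟩ := h4
  refine ⟨x * y, RelM.mul_mem hx hy, σ.trans τ, by simp [hσ, hτ], ?_⟩
  rw [e1, h5]
  rfl

/-- reachable quadruples -/
def Rch (Q : Fin 4 → V) : Prop := ∃ σ : Equiv.Perm (Fin 4), StA (Q ∘ σ) ∨ ∃ i, StB i (Q ∘ σ)

lemma st_swp (Q : Fin 4 → V) (h : StA Q ∨ ∃ i, StB i Q) (k : Fin 4) :
    StA (swp k Q) ∨ ∃ i, StB i (swp k Q) := by
  rcases h with h | ⟨i, h⟩
  · by_cases hk : k = 0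
    · subst hk; exact Or.inr ⟨0, StB.zero Q h⟩
    · exact Or.inl (StA_swp Q h k hk)
  · by_cases hk : k = i
    · subst hk
      cases h with
      | zero Q' h' => rw [swp_swp]; exact Or.inl h'
      | step i j Q' h' hij => rw [swp_swp]; exact Or.inr ⟨j, h'⟩
    · exact Or.inr ⟨k, StB.step k i Q h hk⟩

lemma Rch_swp (Q : Fin 4 → V) (h : Rch Q) (k : Fin 4) : Rch (swp k Q) := by
  obtain ⟨σ, h⟩ := h
  refine ⟨σ, ?_⟩
  rw [swp_perm]
  exact st_swp _ h _

lemma Rch_perm (Q : Fin 4 → V) (h : Rch Q) (τ : Equiv.Perm (Fin 4)) : Rch (Q ∘ τ) := by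
  obtain ⟨σ, h⟩ := h
  refine ⟨σ.trans τ.symm, ?_⟩
  have : (Q ∘ τ) ∘ (σ.trans τ.symm) = Q ∘ σ := by
    funext j; simp
  rw [this]
  exact h

lemma Rch_step (x : GLC × (V ≃ₗ[ℤ] V)) (L : V ≃ₗ[ℤ] V) (k : Fin 4) (τ : Equiv.Perm (Fin 4))
    (hL : (fun j => L (e j)) = (swp k e) ∘ τ) (h : Rch (fun j => x.2 (e j))) :
    Rch (fun j => x.2 (L (e j))) := by
  have e1 : (fun j => x.2 (L (e j))) = (swp k (fun j => x.2 (e j))) ∘ τ := by
    rw [← swp_map]
    funext j
    have := congrFun hL j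
    simp only [Function.comp_apply] at this ⊢
    rw [this]
  rw [e1]
  exact Rch_perm _ (Rch_swp _ h k) τ

lemma Rch_rel (x : GLC × (V ≃ₗ[ℤ] V)) (hx : x ∈ RelG) : Rch (fun j => x.2 (e j)) := by
  induction hx using Subgroup.closure_induction_right with
  | one =>
    refine ⟨1, Or.inl ⟨1, RelM.one_mem, 1, rfl, ?_⟩⟩
    rfl
  | mul_right x hx y hy h =>
    rcases hy with rfl | rfl | rfl | rfl
    · exact Rch_step x _ 2 _ gT_e h
    · exact Rch_step x _ 3 _ gw_e h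
    · exact Rch_step x _ 3 _ gr_e h
    · exact h
  | mul_inv_cancel x hx y hy h =>
    rcases hy with rfl | rfl | rfl | rfl
    · exact Rch_step x _ 3 _ gTi_e h
    · exact Rch_step x _ 3 _ gwi_e h
    · exact Rch_step x _ 3 _ gri_e h
    · exact h

/-- good vectors -/
def Gd (v : V) : Prop := 1 ≤ yz v ∧ (yz v = 1 → ∃ x ∈ RelM, v = x.2 (e 1)) ∧ (yz v = 1 ∨ 7 ≤ yz v)

lemma StA_good (Q : Fin 4 → V) (h : StA Q) : Q 0 = e 0 ∧ ∀ j, j ≠ 0 → yz (Q j) = 1 ∧ Gd (Q j) := by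
  obtain ⟨x, hx, σ, hσ, rfl⟩ := h
  refine ⟨?_, ?_⟩
  · show x.2 (e (σ 0)) = e 0
    rw [hσ, rel_e0 x hx]
  · intro j hj
    have hk2 : σ j ≠ 0 := by
      intro h; apply hj; apply σ.injective; rw [h, hσ]
    have hT : (gT, LT) ∈ RelM := Subgroup.subset_closure (Or.inl rfl)
    have hw : (gw, Lw) ∈ RelM := Subgroup.subset_closure (Or.inr rfl)
    have hy : yz (x.2 (e (σ j))) = 1 := by
      rw [rel_y x hx]
      have : ∀ i : Fin 4, i ≠ 0 → yz (e i) = 1 := by decide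
      exact this _ hk2
    have hx1 : ∃ y ∈ RelM, x.2 (e (σ j)) = y.2 (e 1) := by
      have : ∀ i : Fin 4, i ≠ 0 → i = 1 ∨ i = 2 ∨ i = 3 := by decide
      rcases this _ hk2 with h | h | h
      · rw [h]; exact ⟨x, hx, rfl⟩
      · rw [h]
        have h2 : e 2 = Lw (e 1) := by decide
        exact ⟨x * (gw, Lw), RelM.mul_mem hx hw, by rw [h2]; rfl⟩
      · rw [h]
        have h2 : e 3 = LT (Lw (e 1)) := by decide
        exact ⟨x * ((gT, LT) * (gw, Lw)), RelM.mul_mem hx (RelM.mul_mem hT hw), by rw [h2]; rfl⟩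
    exact ⟨hy, ⟨hy.ge, fun _ => hx1, Or.inl hy⟩⟩

lemma yz_swp (i : Fin 4) (Q : Fin 4 → V) : yz (swp i Q i) = 2 * (yz (Q 0) + yz (Q 1) + yz (Q 2) + yz (Q 3))
    - 3 * yz (Q i) := by
  rw [swp_self, Fin.sum_univ_four]
  simp [yz]
  ring

lemma StB_good (i : Fin 4) (Q : Fin 4 → V) (h : StB i Q) :
    7 ≤ yz (Q i) ∧ ∀ j, yz (Q j) ≤ yz (Q i) ∧ Gd (Q j) := by
  induction h with
  | zero Q hQ =>
    obtain ⟨h0, h1⟩ := StA_good Q hQ
    have y0 : yz (Q 0) = -1 := by rw [h0]; rfl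
    have y1 := (h1 1 (by decide)).1
    have y2 := (h1 2 (by decide)).1
    have y3 := (h1 3 (by decide)).1
    have hs : yz (swp 0 Q 0) = 7 := by rw [yz_swp, y0, y1, y2, y3]; norm_num
    refine ⟨hs.ge, ?_⟩
    intro j
    by_cases hj : j = 0
    · subst hj
      refine ⟨le_refl _, ⟨by omega, fun h => by omega, Or.inr hs.ge⟩⟩
    · rw [swp_ne _ _ _ hj, hs]
      obtain ⟨h2, h3⟩ := h1 j hj
      exact ⟨by omega, h3⟩
  | step i j Q hQ hij ih =>
    obtain ⟨h7, hall⟩ := ih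
    have a0 := (hall 0).2.1
    have a1 := (hall 1).2.1
    have a2 := (hall 2).2.1
    have a3 := (hall 3).2.1
    have b0 := (hall 0).1
    have b1 := (hall 1).1
    have b2 := (hall 2).1
    have b3 := (hall 3).1
    have hs : yz (Q j) + 4 ≤ yz (swp i Q i) := by
      rw [yz_swp]
      fin_cases i <;> fin_cases j <;> simp at hij h7 b0 b1 b2 b3 ⊢ <;> omega
    refine ⟨by omega, ?_⟩
    intro k
    by_cases hk : k = i
    · subst hk
      exact ⟨le_refl _, ⟨by omega, fun h => by omega, Or.inr (by omega)⟩⟩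
    · rw [swp_ne _ _ _ hk]
      have := (hall k).1
      exact ⟨by omega, (hall k).2⟩

lemma Rch_good (Q : Fin 4 → V) (h : Rch Q) (j : Fin 4) : Q j = e 0 ∨ Gd (Q j) := by
  obtain ⟨σ, h⟩ := h
  have e1 : Q j = (Q ∘ σ) (σ.symm j) := by simp
  rw [e1]
  rcases h with h | ⟨i, h⟩
  · obtain ⟨h0, h1⟩ := StA_good _ h
    by_cases hj : σ.symm j = 0
    · left; rw [hj, h0]
    · right; exact (h1 _ hj).2
  · right; exact ((StB_good i _ h).2 _).2

lemma cz_e0 : cz (e 0) = Rhat := by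
  rw [Rhat_eq]; unfold cz; congr 1; ext <;> simp [rv, e, v0]

lemma cz_e1 : cz (e 1) = C2 := by
  unfold C2
  rw [← cz_e0, act_gr]
  congr 1

lemma cz_e2 : cz (e 2) = C3 := by
  unfold C3
  rw [← cz_e1, act_gw]
  congr 1

lemma cz_e3 : cz (e 3) = C4 := by
  unfold C4
  rw [← cz_e2, act_gT]
  congr 1

/-- the modular group -/
noncomputable def M0 : Subgroup GLC := Subgroup.closure {gT, gw}

lemma M0_le : M0 ≤ G0 := by
  apply Subgroup.closure_mono
  intro x hx
  rcases hx with h | h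
  · left; exact h
  · right; left; exact h

lemma rel_fst (x : GLC × (V ≃ₗ[ℤ] V)) (hx : x ∈ RelM) : x.1 ∈ M0 := by
  have : RelM.map (MonoidHom.fst GLC (V ≃ₗ[ℤ] V)) = M0 := by
    unfold RelM M0
    rw [MonoidHom.map_closure]
    congr 1
    ext y
    simp [Set.image_insert_eq]
  rw [← this]
  exact ⟨x, hx, rfl⟩

lemma G0_rel (g : GLC) (hg : g ∈ G0) : ∃ L, (g, L) ∈ RelG := by
  have : RelG.map (MonoidHom.fst GLC (V ≃ₗ[ℤ] V)) = G0 := by
    unfold RelG G0
    rw [MonoidHom.map_closure]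
    congr 1
    ext y
    simp [Set.image_insert_eq]
  rw [← this] at hg
  obtain ⟨x, hx, rfl⟩ := hg
  exact ⟨x.2, hx⟩

/-- classification of the circles of the orbit of the real line -/
lemma classify (g : GLC) (hg : g ∈ G0) : act g Rhat = Rhat ∨
    ∃ v : V, act g Rhat = cz v ∧ qz v = 1 ∧ ((yz v = 1 ∧ ∃ β ∈ M0, act g Rhat = act β C2) ∨ 7 ≤ yz v) := by
  obtain ⟨L, hL⟩ := G0_rel g hg
  have h1 := rel_act _ hL (e 0)
  rw [cz_e0] at h1
  simp only at h1
  rcases Rch_good _ (Rch_rel _ hL) 0 with h | h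
  · left
    simp only at h
    rw [h1, h, cz_e0]
  · right
    refine ⟨L (e 0), h1, ?_, ?_⟩
    · rw [rel_q _ hL]; decide
    · rcases h.2.2 with h3 | h3
      · left
        obtain ⟨x, hx, hx2⟩ := h.2.1 h3
        refine ⟨h3, x.1, rel_fst x hx, ?_⟩
        rw [h1, ← cz_e1, rel_act x (RelM_le hx), ← hx2]
      · right; exact h3

end Pool.Agent.Lib.MP_cc6c48_an
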